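import Pool.Agent.H84.W.Two

set_option autoImplicit false

/-!
Finitely presented groups are base groups of two-generator finitely presented HNN extensions.
-/

namespace Pool.Agent.H84.W

section

variable (G : Type) [Group G] (m : ℕ)

/-- The first free subgroup. -/
noncomputable def xf : FreeGroup (Fin (m + 1)) →* BF G :=
  FreeGroup.lift fun n => cj (la G) (lb G) n

/-- The second free subgroup. -/
noncomputable def yf (g : Fin (m + 1) → G) : FreeGroup (Fin (m + 1)) →* BF G :=
  FreeGroup.lift fun n => HN.base (DF G) (g n) * cj (lb G) (la G) n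

theorem xf_of (n : Fin (m + 1)) : xf G m (FreeGroup.of n) = cj (la G) (lb G) n :=
  FreeGroup.lift_apply_of

theorem yf_of (g : Fin (m + 1) → G) (n : Fin (m + 1)) : yf G m g (FreeGroup.of n) =
    HN.base (DF G) (g n) * cj (lb G) (la G) n := FreeGroup.lift_apply_of

theorem cj_inj_fin (u v : Bool) (huv : u ≠ v) :
    Function.Injective (FreeGroup.lift (fun n : Fin (m + 1) =>
      cj (FreeGroup.of u) (FreeGroup.of v) n) : FreeGroup (Fin (m + 1)) →* FreeGroup Bool) := by
  have h : (FreeGroup.lift (fun n : Fin (m + 1) =>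
      cj (FreeGroup.of u) (FreeGroup.of v) n) : FreeGroup (Fin (m + 1)) →* FreeGroup Bool) =
      (FreeGroup.lift (fun n : ℕ => cj (FreeGroup.of u) (FreeGroup.of v) n)).comp
        (FreeGroup.map fun n : Fin (m + 1) => (n : ℕ)) := by
    apply FreeGroup.ext_hom
    intro n
    simp
  rw [h]
  exact (cj_inj u v huv).comp (FreeGroup.map_injective Fin.val_injective)

theorem xf_injective : Function.Injective (xf G m) := by
  have h : (BFlift G 1 (FreeGroup.of false) (FreeGroup.of true)).comp (xf G m) =
      FreeGroup.lift (fun n : Fin (m + 1) => cj (FreeGroup.of false) (FreeGroup.of true) n) := by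
    apply FreeGroup.ext_hom
    intro n
    rw [MonoidHom.comp_apply, xf_of, FreeGroup.lift_apply_of, map_cj,
      BFlift_la, BFlift_lb]
  have h1 := cj_inj_fin m false true (by decide)
  rw [← h] at h1
  exact Function.Injective.of_comp h1

theorem yf_injective (g : Fin (m + 1) → G) : Function.Injective (yf G m g) := by
  have h : (BFlift G 1 (FreeGroup.of false) (FreeGroup.of true)).comp (yf G m g) =
      FreeGroup.lift (fun n : Fin (m + 1) => cj (FreeGroup.of true) (FreeGroup.of false) n) := by
    apply FreeGroup.ext_hom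
    intro n
    rw [MonoidHom.comp_apply, yf_of, FreeGroup.lift_apply_of, map_mul,
      BFlift_base, MonoidHom.one_apply, one_mul, map_cj, BFlift_la, BFlift_lb]
  have h1 := cj_inj_fin m true false (by decide)
  rw [← h] at h1
  exact Function.Injective.of_comp h1

variable (g : Fin (m + 1) → G)

/-- The isomorphism. -/
noncomputable def isoF : (xf G m).range ≃* (yf G m g).range :=
  (MonoidHom.ofInjective (xf_injective G m)).symm.trans
    (MonoidHom.ofInjective (yf_injective G m g))

theorem isoF_apply (w : FreeGroup (Fin (m + 1))) (h : xf G m w ∈ (xf G m).range) :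
    (isoF G m g ⟨xf G m w, h⟩ : BF G) = yf G m g w := by
  have h2 : (⟨xf G m w, h⟩ : (xf G m).range) = MonoidHom.ofInjective (xf_injective G m) w := rfl
  change (MonoidHom.ofInjective (yf_injective G m g)
    ((MonoidHom.ofInjective (xf_injective G m)).symm ⟨xf G m w, h⟩) : BF G) = _
  rw [h2, MulEquiv.symm_apply_apply]
  rfl

/-- The two-generator group. -/
abbrev TF2 : Type := HNNExtension (BF G) (xf G m).range (yf G m g).range (isoF G m g)

theorem TF2_rel (w : FreeGroup (Fin (m + 1))) :
    (HNNExtension.t : TF2 G m g) * HNNExtension.of (xf G m w) *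
    (HNNExtension.t)⁻¹ = HNNExtension.of (yf G m g w) := by
  have h1 := HNNExtension.t_mul_of (φ := isoF G m g) ⟨xf G m w, ⟨w, rfl⟩⟩
  rw [isoF_apply] at h1
  rw [mul_inv_eq_iff_eq_mul]
  exact h1

theorem TF2_gen (h0 : g 0 = 1) (hg : Subgroup.closure (Set.range g) = ⊤) :
    Subgroup.closure {(HNNExtension.of (la G) : TF2 G m g), HNNExtension.t} = ⊤ := by
  set S := Subgroup.closure {(HNNExtension.of (la G) : TF2 G m g), HNNExtension.t} with hS
  rw [eq_top_iff]
  have ha : HNNExtension.of (la G) ∈ S := Subgroup.subset_closure (by simp)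
  have ht : HNNExtension.t ∈ S := Subgroup.subset_closure (by simp)
  have hb : HNNExtension.of (lb G) ∈ S := by
    have h := TF2_rel G m g (FreeGroup.of 0)
    have e0 : ((0 : Fin (m + 1)) : ℕ) = 0 := rfl
    rw [xf_of, yf_of, e0, cj_zero, cj_zero, h0, map_one, one_mul] at h
    rw [← h]
    exact Subgroup.mul_mem _ (Subgroup.mul_mem _ ht ha) (Subgroup.inv_mem _ ht)
  have hG : ∀ x, HNNExtension.of (HN.base (DF G) x) ∈ S := by
    intro x
    have hx : x ∈ Subgroup.closure (Set.range g) := by rw [hg]; trivial
    have h1 : Subgroup.closure (Set.range g) ≤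
        S.comap (HNNExtension.of.comp (HN.base (DF G))) := by
      rw [Subgroup.closure_le]
      rintro _ ⟨n, rfl⟩
      have h := TF2_rel G m g (FreeGroup.of n)
      rw [xf_of, yf_of, map_mul, map_cj, map_cj] at h
      have h2 : HNNExtension.of (HN.base (DF G) (g n)) =
          (HNNExtension.t : TF2 G m g) *
            cj (HNNExtension.of (la G)) (HNNExtension.of (lb G)) n * (HNNExtension.t)⁻¹ *
            (cj (HNNExtension.of (lb G)) (HNNExtension.of (la G)) n)⁻¹ := by
        rw [h, mul_inv_cancel_right]
      change HNNExtension.of (HN.base (DF G) (g n)) ∈ S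
      rw [h2]
      exact Subgroup.mul_mem _ (Subgroup.mul_mem _ (Subgroup.mul_mem _ ht (cj_mem S ha hb _))
        (Subgroup.inv_mem _ ht)) (Subgroup.inv_mem _ (cj_mem S hb ha _))
    exact h1 hx
  rintro x -
  induction x using HNNExtension.induction_on with
  | of b =>
    refine HN.mem_of (D := DF G) (S.comap HNNExtension.of) hG ?_ b
    intro p
    change HNNExtension.of (HN.t (DF G) p) ∈ S
    have hp : ∀ p : Bool, HNNExtension.of (HN.t (DF G) p) ∈ S := by
      rintro (_ | _)
      · exact ha
      · exact hb
    exact hp p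
  | t => exact ht
  | mul x y hx hy => exact Subgroup.mul_mem _ hx hy
  | inv x hx => exact Subgroup.inv_mem _ hx

end

theorem BF_fp (G : Type) [Group G] [Group.IsFinitelyPresented G] :
    Group.IsFinitelyPresented (BF G) := by
  have : Finite (DF G).I := inferInstanceAs (Finite Bool)
  refine HN.fp _ fun p => ?_
  change (⊥ : Subgroup G).FG
  exact (Subgroup.fg_iff _).mpr ⟨∅, Subgroup.closure_empty, Set.finite_empty⟩

theorem freeByFree_of_free {A : Type} [Group A] (h : IsFreeGroup A) : FreeByFree A := by
  refine freeByFree_of (F := A) (F' := A) (MonoidHom.id A) Function.surjective_id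
    (MonoidHom.ker (MonoidHom.id A)).subtype (Subgroup.subtype_injective _)

theorem freeByFree_range {X B : Type} [Group B] (f : FreeGroup X →* B)
    (hf : Function.Injective f) : FreeByFree f.range :=
  freeByFree_of_free (IsFreeGroup.ofMulEquiv (MonoidHom.ofInjective hf))

/-- Every finitely presented torsion-free group is a retract of the base group of an HNN extension
with free associated subgroups which is generated by two elements, finitely presented and
torsion-free. -/
theorem two_fp (G : Type) [Group G] [Group.IsFinitelyPresented G] (htf : TF G) :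
    ∃ (B : Type) (_ : Group B) (A A' : Subgroup B) (φ : A ≃* A') (i : G →* B)
      (r : B →* G), (∀ q, r (i q) = q) ∧ FreeByFree A ∧
      Group.IsFinitelyPresented (HNNExtension B A A' φ) ∧ TF (HNNExtension B A A' φ) ∧
      ∃ a b : HNNExtension B A A' φ, Subgroup.closure {a, b} = ⊤ := by
  obtain ⟨n, p, hp, _⟩ := ‹Group.IsFinitelyPresented G›
  let g : Fin (n + 1) → G := Fin.cons 1 (fun j => p (FreeGroup.of j))
  have h0 : g 0 = 1 := rfl
  have hg : Subgroup.closure (Set.range g) = ⊤ := by
    rw [eq_top_iff]
    rintro x -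
    obtain ⟨y, rfl⟩ := hp x
    induction y using FreeGroup.induction_on with
    | C1 => rw [map_one]; exact Subgroup.one_mem _
    | of j => exact Subgroup.subset_closure ⟨j.succ, by simp [g]⟩
    | inv_of j h => rw [map_inv]; exact Subgroup.inv_mem _ h
    | mul a b ha hb => rw [map_mul]; exact Subgroup.mul_mem _ ha hb
  have := BF_fp G
  refine ⟨BF G, inferInstance, (xf G n).range, (yf G n g).range, isoF G n g, HN.base (DF G),
    BFlift G (MonoidHom.id G) 1 1, fun q => BFlift_base G _ _ _ q,
    freeByFree_range _ (xf_injective G n), HNN_fp _ _ _ ?_, HNN_tf _ _ _ (HN_tf _ htf),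
    _, _, TF2_gen G n g h0 hg⟩
  rw [← Group.fg_iff_subgroup_fg]
  exact Group.fg_range _

theorem countable_of_fp (G : Type) [Group G] [Group.IsFinitelyPresented G] : Countable G := by
  obtain ⟨n, φ, hφ, _⟩ := ‹Group.IsFinitelyPresented G›
  have : Countable (FreeGroup (Fin n)) := by
    have h' : Function.Surjective (FreeGroup.mk : List (Fin n × Bool) → _) := Quot.mk_surjective
    exact h'.countable
  exact hφ.countable

theorem countable_base {B : Type} [Group B] (A A' : Subgroup B) (φ : A ≃* A')
    [Group.IsFinitelyPresented (HNNExtension B A A' φ)] : Countable B := by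
  have := countable_of_fp (HNNExtension B A A' φ)
  exact (HNNExtension.of_injective φ).countable

instance countable_UU : Countable UU := by
  have : Countable (FreeGroup ℕ) := by
    have h' : Function.Surjective (FreeGroup.mk : List (ℕ × Bool) → _) := Quot.mk_surjective
    exact h'.countable
  exact (QuotientGroup.mk'_surjective (tfcl RU)).countable

/-- The group-theoretic form of the theorem. -/
theorem exists_W : ∃ (W : Type) (_ : Group W), Group.IsFinitelyPresented W ∧ TF W ∧
    (∃ a b : W, Subgroup.closure {a, b} = ⊤) ∧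
    ∀ (Φ : (G : Type) → [Group G] → Prop),
      (∀ (G B : Type) [Group G] [Group B] (i : G →* B) (r : B →* G), (∀ x, r (i x) = x) →
        Φ B → Φ G) →
      (∀ (B : Type) [Group B] [Countable B] (A A' : Subgroup B) (φ : A ≃* A'), FreeByFree A →
        Φ (HNNExtension B A A' φ) → Φ B) →
      Φ W → ∀ (P : Type) [Group P] [Group.IsFinitelyPresented P], Φ (TFQ P) := by
  obtain ⟨B1, _, A1, A1', φ1, i1, r1, h1, h2, h3, h4⟩ := rope (tfcl RQ) re_RQ (tfcl_tf RQ)
  obtain ⟨B2, _, A2, A2', φ2, i2, r2, k1, k2, k3, k4, k5⟩ :=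
    two_fp (HNNExtension B1 A1 A1' φ1) h4
  have c1 : Countable B1 := countable_base A1 A1' φ1
  have c2 : Countable B2 := countable_base A2 A2' φ2
  have c3 : Countable (BF UU) := HN.countable inferInstance (inferInstanceAs (Countable Bool))
  refine ⟨HNNExtension B2 A2 A2' φ2, inferInstance, k3, k4, k5, ?_⟩
  intro Φ hr hh hW P _ _
  have s1 : Φ B2 := hh B2 A2 A2' φ2 k2 hW
  have s2 : Φ (HNNExtension B1 A1 A1' φ1) := hr _ _ i2 r2 k1 s1
  have s3 : Φ B1 := hh B1 A1 A1' φ1 h2 s2
  have s4 : Φ (FreeGroup Bool ⧸ tfcl RQ) := hr _ _ i1 r1 h1 s3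
  let e : FreeGroup Bool ⧸ tfcl RQ ≃* TG UU gU :=
    (QuotientGroup.quotientMulEquivOfEq pT_ker.symm).trans
      (QuotientGroup.quotientKerEquivOfSurjective (pT UU gU) (pT_surjective UU gU rfl gU_closure))
  have s5 : Φ (TG UU gU) := hr _ _ e.symm.toMonoidHom e.toMonoidHom
    (fun x => e.apply_symm_apply x) s4
  have s6 : Φ (BF UU) := hh _ _ _ _ (freeByFree_range _ (xh_injective UU)) s5
  have s7 : Φ UU := hr _ _ (HN.base (DF UU)) (BFlift UU (MonoidHom.id UU) 1 1)
    (fun q => BFlift_base UU _ _ _ q) s6
  obtain ⟨i, r, hir⟩ := retr_U P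
  exact hr _ _ i r hir s7

end Pool.Agent.H84.W
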