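import Mathlib

set_option autoImplicit false

/-!
Amalgamated products `B *_A C`.
-/

namespace Pool.Agent.H84.W

open Monoid

section

variable {A B C : Type} [Group A] [Group B] [Group C] (i : A →* B) (j : A →* C)

/-- The relations `i a = j a`. -/
def amRels : Set (Coprod B C) := {r | ∃ a : A, r = Coprod.inl (i a) * (Coprod.inr (j a))⁻¹}

/-- The amalgamated product (pushout) of `B` and `C` over `A`. -/
def Am : Type := Coprod B C ⧸ Subgroup.normalClosure (amRels i j)

noncomputable instance Am.group : Group (Am i j) :=
  inferInstanceAs (Group (Coprod B C ⧸ Subgroup.normalClosure (amRels i j)))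

/-- The projection from the free product. -/
noncomputable def Am.mk : Coprod B C →* Am i j :=
  QuotientGroup.mk' (Subgroup.normalClosure (amRels i j))

/-- The first factor. -/
noncomputable def Am.inl : B →* Am i j := (Am.mk i j).comp Coprod.inl

/-- The second factor. -/
noncomputable def Am.inr : C →* Am i j := (Am.mk i j).comp Coprod.inr

end

end Pool.Agent.H84.W
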