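import Pool.Agent.H84.W.Fp
import Pool.Agent.H84.W.AmDef

set_option autoImplicit false

/-!
Amalgamated products `B *_A C`: the factors embed, and the amalgamated product of torsion-free
groups is torsion-free.
-/

namespace Pool.Agent.H84.W

open Monoid

section

variable {A B C : Type} [Group A] [Group B] [Group C] (i : A →* B) (j : A →* C)

theorem Am.mk_surjective : Function.Surjective (Am.mk i j) := QuotientGroup.mk'_surjective _

theorem Am.glue (a : A) : Am.inl i j (i a) = Am.inr i j (j a) := by
  rw [← mul_inv_eq_one]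
  change Am.mk i j _ * (Am.mk i j _)⁻¹ = 1
  rw [← map_inv (Am.mk i j), ← map_mul]
  exact (QuotientGroup.eq_one_iff _).mpr (Subgroup.subset_normalClosure ⟨a, rfl⟩)

theorem Am.glue' : (Am.inl i j).comp i = (Am.inr i j).comp j := MonoidHom.ext (Am.glue i j)

variable {i j}

/-- The universal property. -/
noncomputable def Am.lift {K : Type*} [Group K] (f : B →* K) (g : C →* K)
    (h : ∀ a, f (i a) = g (j a)) : Am i j →* K :=
  QuotientGroup.lift (Subgroup.normalClosure (amRels i j)) (Coprod.lift f g) (by
    apply Subgroup.normalClosure_le_normal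
    rintro r ⟨a, rfl⟩
    rw [SetLike.mem_coe, MonoidHom.mem_ker]
    simp only [map_mul, map_inv, Coprod.lift_apply_inr, Coprod.lift_apply_inl]
    rw [h, mul_inv_cancel])

@[simp] theorem Am.lift_inl {K : Type*} [Group K] (f : B →* K) (g : C →* K)
    (h : ∀ a, f (i a) = g (j a)) (b : B) : Am.lift f g h (Am.inl i j b) = f b := by
  change Coprod.lift f g (Coprod.inl b) = f b
  rw [Coprod.lift_apply_inl]

@[simp] theorem Am.lift_inr {K : Type*} [Group K] (f : B →* K) (g : C →* K)
    (h : ∀ a, f (i a) = g (j a)) (c : C) : Am.lift f g h (Am.inr i j c) = g c := by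
  change Coprod.lift f g (Coprod.inr c) = g c
  rw [Coprod.lift_apply_inr]

/-- Induction: a subgroup which contains both factors is everything. -/
theorem Am.mem_of (H : Subgroup (Am i j)) (h1 : ∀ b, Am.inl i j b ∈ H)
    (h2 : ∀ c, Am.inr i j c ∈ H) (x : Am i j) : x ∈ H := by
  obtain ⟨w, rfl⟩ := Am.mk_surjective i j x
  induction w using Coprod.induction_on with
  | inl b => exact h1 b
  | inr w => exact h2 w
  | mul x y hx hy => rw [map_mul]; exact H.mul_mem hx hy

variable (i j)

theorem Am.countable [Countable B] [Countable C] : Countable (Am i j) := by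
  have : Countable (Coprod B C) := by
    have h : Function.Surjective (Coprod.mk : FreeMonoid (B ⊕ C) → _) := Coprod.mk_surjective
    have : Countable (FreeMonoid (B ⊕ C)) := inferInstanceAs (Countable (List (B ⊕ C)))
    exact h.countable
  exact (Am.mk_surjective i j).countable

/-- The identification of the two subgroups of the free product. -/
noncomputable def amIso (hi : Function.Injective i) (hj : Function.Injective j) :
    ((Coprod.inl : B →* Coprod B C).comp i).range ≃*
      ((Coprod.inr : C →* Coprod B C).comp j).range :=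
  (MonoidHom.ofInjective (Coprod.inl_injective.comp hi)).symm.trans
    (MonoidHom.ofInjective (Coprod.inr_injective.comp hj))

theorem amIso_apply (hi : Function.Injective i) (hj : Function.Injective j) (a : A)
    (h : Coprod.inl (i a) ∈ ((Coprod.inl : B →* Coprod B C).comp i).range) :
    (amIso i j hi hj ⟨Coprod.inl (i a), h⟩ : Coprod B C) = Coprod.inr (j a) := by
  have h2 : (⟨Coprod.inl (i a), h⟩ : ((Coprod.inl : B →* Coprod B C).comp i).range) =
    MonoidHom.ofInjective (f := (Coprod.inl : B →* Coprod B C).comp i)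
      (Coprod.inl_injective.comp hi) a := rfl
  change (MonoidHom.ofInjective (f := (Coprod.inr : C →* Coprod B C).comp j)
    (Coprod.inr_injective.comp hj)
    ((MonoidHom.ofInjective (f := (Coprod.inl : B →* Coprod B C).comp i)
      (Coprod.inl_injective.comp hi)).symm ⟨Coprod.inl (i a), h⟩) : Coprod B C) = _
  rw [h2, MulEquiv.symm_apply_apply]
  rfl

/-- The homomorphism to the HNN extension of the free product. -/
noncomputable def amHnn (hi : Function.Injective i) (hj : Function.Injective j) :
    Am i j →* HN (single _ _ (amIso i j hi hj)) :=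
  Am.lift ((MulAut.conj (HN.t (single _ _ (amIso i j hi hj)) ())).toMonoidHom.comp
      ((HN.base _).comp Coprod.inl)) ((HN.base _).comp Coprod.inr) (fun a => by
    have h := HN.t_rel (single _ _ (amIso i j hi hj)) () ⟨Coprod.inl (i a), ⟨a, rfl⟩⟩
    change HN.t (single _ _ (amIso i j hi hj)) () * HN.base _ (Coprod.inl (i a)) *
      (HN.t (single _ _ (amIso i j hi hj)) ())⁻¹ = HN.base _ (Coprod.inr (j a))
    rw [← amIso_apply i j hi hj a ⟨a, rfl⟩]
    exact h)

theorem Am.inl_injective (hi : Function.Injective i) (hj : Function.Injective j) :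
    Function.Injective (Am.inl i j) := by
  intro b b' h
  have h1 := congrArg (amHnn i j hi hj) h
  simp only [amHnn, Am.lift_inl, MonoidHom.comp_apply] at h1
  exact Coprod.inl_injective (base_injective _ _ ((MulAut.conj _).injective h1))

theorem Am.inr_injective (hi : Function.Injective i) (hj : Function.Injective j) :
    Function.Injective (Am.inr i j) := by
  intro b b' h
  have h1 := congrArg (amHnn i j hi hj) h
  simp only [amHnn, Am.lift_inr, MonoidHom.comp_apply] at h1
  exact Coprod.inr_injective (base_injective _ _ h1)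

/-! ### The tree -/

/-- the vertices of the tree -/
abbrev Vy : Type := (Am i j ⧸ (Am.inl i j).range) ⊕ (Am i j ⧸ (Am.inr i j).range)

/-- the first base vertex -/
noncomputable def y0 : Vy i j := Sum.inl ((1 : Am i j) : Am i j ⧸ (Am.inl i j).range)

/-- the second base vertex -/
noncomputable def y1 : Vy i j := Sum.inr ((1 : Am i j) : Am i j ⧸ (Am.inr i j).range)

theorem inl_y0 (b : B) : Am.inl i j b • y0 i j = y0 i j := by
  unfold y0
  rw [Sum.smul_inl, MulAction.Quotient.smul_coe, smul_eq_mul, mul_one]
  apply congrArg Sum.inl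
  apply Eq.symm
  rw [QuotientGroup.eq, inv_one, one_mul]
  exact ⟨b, rfl⟩

theorem inr_y1 (b : C) : Am.inr i j b • y1 i j = y1 i j := by
  unfold y1
  rw [Sum.smul_inr, MulAction.Quotient.smul_coe, smul_eq_mul, mul_one]
  apply congrArg Sum.inr
  apply Eq.symm
  rw [QuotientGroup.eq, inv_one, one_mul]
  exact ⟨b, rfl⟩

/-- the base edge -/
noncomputable def eA : Vy i j × Vy i j →₀ ℤ := Finsupp.single (y0 i j, y1 i j) 1

theorem act_eA (a : A) : act (Am.inr i j (j a)) (eA i j) = eA i j := by
  unfold eA
  rw [act_single, Prod.smul_mk, inr_y1, ← Am.glue, inl_y0]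

/-- the affine action -/
noncomputable def afA : Am i j →* Equiv.Perm (Vy i j × Vy i j →₀ ℤ) :=
  Am.lift ((actP (Γ := Am i j)).comp (Am.inl i j))
    ((MulAut.conj (Equiv.addRight (eA i j))).toMonoidHom.comp
      ((actP (Γ := Am i j)).comp (Am.inr i j))) (fun a => by
      ext1 m
      show act (Am.inl i j (i a)) m = act (Am.inr i j (j a)) (m + -(eA i j)) + eA i j
      have h1 : act (Am.inr i j (j a)) (-(eA i j)) = -(eA i j) := by
        rw [← zero_sub, act_sub, act_zero, act_eA]
      rw [act_add, h1, neg_add_cancel_right, Am.glue])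

/-- the crossed homomorphism -/
noncomputable def dA (g : Am i j) : Vy i j × Vy i j →₀ ℤ := afA i j g 0

theorem afA_inl (b : B) (m : Vy i j × Vy i j →₀ ℤ) :
    afA i j (Am.inl i j b) m = act (Am.inl i j b) m := by
  unfold afA
  rw [Am.lift_inl]
  rfl

theorem afA_inr (b : C) (m : Vy i j × Vy i j →₀ ℤ) :
    afA i j (Am.inr i j b) m = act (Am.inr i j b) (m + -(eA i j)) + eA i j := by
  unfold afA
  rw [Am.lift_inr]
  rfl

/-- the elements for which the affine action has the expected form -/
def afSA : Subgroup (Am i j) where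
  carrier := {g | ∀ m, afA i j g m = act g m + dA i j g}
  one_mem' := by
    intro m
    unfold dA
    rw [map_one, Equiv.Perm.one_apply, Equiv.Perm.one_apply, act_one, add_zero]
  mul_mem' := by
    intro g h hg hh m
    unfold dA at hg hh ⊢
    rw [map_mul, Equiv.Perm.mul_apply, Equiv.Perm.mul_apply, hh, hg, hg (afA i j h 0), act_add,
      act_mul, add_assoc]
  inv_mem' := by
    intro g hg m
    have h1 : afA i j g (act g⁻¹ m + dA i j g⁻¹) = m := by
      have h2 := hg (dA i j g⁻¹)
      rw [hg, act_add, ← act_mul, mul_inv_cancel, act_one, add_assoc, ← h2]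
      unfold dA
      rw [map_inv, ← Equiv.Perm.mul_apply, mul_inv_cancel, Equiv.Perm.one_apply, add_zero]
    rw [map_inv, Equiv.Perm.inv_eq_iff_eq]
    exact h1.symm

theorem afA_eq (g : Am i j) (m : Vy i j × Vy i j →₀ ℤ) :
    afA i j g m = act g m + dA i j g := by
  refine Am.mem_of (afSA i j) (fun b m => ?_) (fun p m => ?_) g m
  · unfold dA
    rw [afA_inl, afA_inl, act_zero, add_zero]
  · unfold dA
    rw [afA_inr, afA_inr, zero_add, act_add, add_assoc]

theorem dA_mul (g h : Am i j) : dA i j (g * h) = dA i j g + act g (dA i j h) := by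
  have h1 : dA i j (g * h) = afA i j g (dA i j h) := by
    unfold dA
    rw [map_mul, Equiv.Perm.mul_apply]
  rw [h1, afA_eq, add_comm]

theorem dA_one : dA i j 1 = 0 := by
  unfold dA
  rw [map_one, Equiv.Perm.one_apply]

/-- the elements with the right boundary -/
def bdSA : Subgroup (Am i j) where
  carrier := {g | bd (dA i j g) = Finsupp.single (g • y0 i j) 1 - Finsupp.single (y0 i j) 1}
  one_mem' := by
    show bd (dA i j 1) = _
    rw [dA_one, map_zero, one_smul, sub_self]
  mul_mem' := by
    intro g h hg hh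
    show bd (dA i j (g * h)) = _
    have hg' : bd (dA i j g) =
      Finsupp.single (g • y0 i j) 1 - Finsupp.single (y0 i j) 1 := hg
    have hh' : bd (dA i j h) =
      Finsupp.single (h • y0 i j) 1 - Finsupp.single (y0 i j) 1 := hh
    rw [dA_mul, map_add, bd_act, hg', hh', act_sub, act_single, act_single, mul_smul]
    abel
  inv_mem' := by
    intro g hg
    show bd (dA i j g⁻¹) = _
    have hg' : bd (dA i j g) =
      Finsupp.single (g • y0 i j) 1 - Finsupp.single (y0 i j) 1 := hg
    have h1 := dA_mul i j g⁻¹ g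
    rw [inv_mul_cancel, dA_one] at h1
    have h2 : dA i j g⁻¹ = - act g⁻¹ (dA i j g) := eq_neg_of_add_eq_zero_left h1.symm
    rw [h2, map_neg, bd_act, hg', act_sub, act_single, act_single, inv_smul_smul]
    abel

theorem bd_dA (g : Am i j) :
    bd (dA i j g) = Finsupp.single (g • y0 i j) 1 - Finsupp.single (y0 i j) 1 := by
  refine Am.mem_of (bdSA i j) (fun b => ?_) (fun p => ?_) g
  · show bd (dA i j (Am.inl i j b)) = _
    have h : dA i j (Am.inl i j b) = 0 := by
      unfold dA
      rw [afA_inl, act_zero]
    rw [h, map_zero, inl_y0, sub_self]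
  · show bd (dA i j (Am.inr i j p)) = _
    have h : dA i j (Am.inr i j p) = eA i j - act (Am.inr i j p) (eA i j) := by
      unfold dA
      rw [afA_inr, zero_add, ← zero_sub (eA i j), act_sub, act_zero]
      abel
    rw [h, map_sub, bd_act]
    unfold eA
    rw [bd_single, act_sub, act_single, act_single, inr_y1]
    abel

/-- The amalgamated product of torsion-free groups is torsion-free. -/
theorem Am.tf (hi : Function.Injective i) (hj : Function.Injective j) (hB : TF B) (hC : TF C) :
    TF (Am i j) := by
  intro c hc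
  have hfin : Finite (Subgroup.zpowers c) := by
    have h := finite_zpowers.2 hc
    exact h.to_subtype
  have := Fintype.ofFinite (Subgroup.zpowers c)
  have key : ∀ {K : Type} [Group K] (f : K →* Am i j), Function.Injective f → TF K →
      ∀ σ ∈ Subgroup.zpowers c, ∀ g : Am i j, g⁻¹ * (σ * g) ∈ f.range → σ = 1 := by
    intro K _ f hf hK σ hσ g hx
    obtain ⟨b, hb⟩ := hx
    have h1 : IsOfFinOrder σ := by
      obtain ⟨k, hk⟩ := Subgroup.mem_zpowers_iff.1 hσ
      obtain ⟨n, hn, h4⟩ := isOfFinOrder_iff_pow_eq_one.1 hc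
      refine isOfFinOrder_iff_pow_eq_one.2 ⟨n, hn, ?_⟩
      rw [← hk, ← zpow_natCast, ← zpow_mul, mul_comm, zpow_mul, zpow_natCast, h4, one_zpow]
    have h3 : IsOfFinOrder (f b) := by
      rw [hb]
      obtain ⟨n, hn, h4⟩ := isOfFinOrder_iff_pow_eq_one.1 h1
      refine isOfFinOrder_iff_pow_eq_one.2 ⟨n, hn, ?_⟩
      have h5 : g⁻¹ * (σ * g) = g⁻¹ * σ * g⁻¹⁻¹ := by group
      rw [h5, conj_pow, h4]
      group
    have h6 : b = 1 := by
      apply hK
      obtain ⟨n, hn, h4⟩ := isOfFinOrder_iff_pow_eq_one.1 h3
      refine isOfFinOrder_iff_pow_eq_one.2 ⟨n, hn, ?_⟩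
      apply hf
      rw [map_pow, h4, map_one]
    rw [h6, map_one] at hb
    have h7 : σ = g * (g⁻¹ * (σ * g)) * g⁻¹ := by group
    rw [h7, ← hb, mul_one, mul_inv_cancel]
  have hf : ∀ σ ∈ Subgroup.zpowers c, ∀ x : Vy i j, σ • x = x → σ = 1 := by
    rintro σ hσ (x | x) hx
    · rw [Sum.smul_inl, Sum.inl.injEq] at hx
      induction x using QuotientGroup.induction_on with
      | H g =>
        rw [MulAction.Quotient.smul_coe, smul_eq_mul, eq_comm, QuotientGroup.eq] at hx
        exact key (Am.inl i j) (Am.inl_injective i j hi hj) hB σ hσ g hx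
    · rw [Sum.smul_inr, Sum.inr.injEq] at hx
      induction x using QuotientGroup.induction_on with
      | H g =>
        rw [MulAction.Quotient.smul_coe, smul_eq_mul, eq_comm, QuotientGroup.eq] at hx
        exact key (Am.inr i j) (Am.inr_injective i j hi hj) hC σ hσ g hx
  have h1 := card_eq_one (Subgroup.zpowers c) hf (y0 i j) (dA i j) (dA_mul i j) (bd_dA i j)
  rw [Fintype.card_eq_one_iff] at h1
  obtain ⟨x, hx⟩ := h1
  have h2 := hx ⟨c, Subgroup.mem_zpowers c⟩
  have h3 := hx ⟨1, Subgroup.one_mem _⟩
  exact congrArg Subtype.val (h2.trans h3.symm)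

end

end Pool.Agent.H84.W
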