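import Mathlib

set_option autoImplicit false

/-!
Groups with a free normal subgroup and a free quotient.
-/

namespace Pool.Agent.H84.W

/-- Groups with a free normal subgroup and a free quotient. -/
def FreeByFree (A : Type) [Group A] : Prop :=
  ∃ (K : Subgroup A) (_ : K.Normal), IsFreeGroup K ∧ IsFreeGroup (A ⧸ K)

end Pool.Agent.H84.W
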