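import Pool.Agent.H84.W.Base
import Pool.Agent.H84.W.FbfDef

set_option autoImplicit false

/-!
Assembly maps: natural transformations of functors from groups to abelian groups which commute with
directed colimits and have exact sequences for certain HNN extensions.
-/

namespace Pool.Agent.H84.W

/-- A functor from groups to abelian groups. -/
structure GrpFun where
  /-- the abelian group of a group -/
  obj : (G : Type) → [Group G] → Type
  [grp : ∀ (G : Type) [Group G], AddCommGroup (obj G)]
  /-- the induced homomorphism -/
  map : {G K : Type} → [Group G] → [Group K] → (G →* K) → (obj G →+ obj K)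
  map_id : ∀ (G : Type) [Group G], map (MonoidHom.id G) = AddMonoidHom.id (obj G)
  map_comp : ∀ {G K L : Type} [Group G] [Group K] [Group L] (g : K →* L) (f : G →* K),
    map (g.comp f) = (map g).comp (map f)

attribute [instance] GrpFun.grp

/-- The functor commutes with directed colimits: for every group `G`, the abelian group `E G` is the
colimit of the abelian groups `E F`, for all homomorphisms `F → G` from finitely presented
groups. -/
structure GrpFun.Finitary (E : GrpFun) : Prop where
  surj : ∀ (G : Type) [Group G] (x : E.obj G), ∃ (F : Type) (_ : Group F)
    (_ : Group.IsFinitelyPresented F) (f : F →* G) (y : E.obj F), E.map f y = x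
  inj : ∀ (F G : Type) [Group F] [Group G] [Group.IsFinitelyPresented F] (f : F →* G)
    (y : E.obj F), E.map f y = 0 → ∃ (F' : Type) (_ : Group F') (_ : Group.IsFinitelyPresented F')
      (g : F →* F') (h : F' →* G), h.comp g = f ∧ E.map g y = 0

/-- Natural transformations `α n : H n → L n`, `n` an integer. -/
structure Assembly where
  /-- the sources -/
  H : ℤ → GrpFun
  /-- the targets -/
  L : ℤ → GrpFun
  /-- the assembly maps -/
  α : (n : ℤ) → (G : Type) → [Group G] → ((H n).obj G →+ (L n).obj G)
  nat : ∀ (n : ℤ) {G K : Type} [Group G] [Group K] (f : G →* K) (x : (H n).obj G),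
    (L n).map f (α n G x) = α n K ((H n).map f x)

/-- `T` is surjective in degree `n` for the group `G`. -/
def Assembly.Surj (T : Assembly) (n : ℤ) (G : Type) [Group G] : Prop :=
  Function.Surjective (T.α n G)

/-- `T` is injective in degree `n` for the group `G`. -/
def Assembly.Inj (T : Assembly) (n : ℤ) (G : Type) [Group G] : Prop :=
  Function.Injective (T.α n G)

/-- The difference `E A → E B` of the maps induced by two homomorphisms. -/
def GrpFun.diff (E : GrpFun) {A B : Type} [Group A] [Group B] (i j : A →* B) (x : E.obj A) :
    E.obj B :=
  E.map i x - E.map j x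

/-- A pair of connecting homomorphisms, which commute with the assembly maps. -/
structure Assembly.Connecting (T : Assembly) (A G : Type) [Group A] [Group G] (n : ℤ) where
  /-- the connecting homomorphism of `H` -/
  dH : (T.H (n + 1)).obj G →+ (T.H n).obj A
  /-- the connecting homomorphism of `L` -/
  dL : (T.L (n + 1)).obj G →+ (T.L n).obj A
  comm : ∀ x, T.α n A (dH x) = dL (T.α (n + 1) G x)

/-- The sequence `E' B → E' G → E A → E B → E G`, with the homomorphisms `k`, `d`, `i - j`, `k`, is
exact at `E A` and `E B`, and the first two homomorphisms have composition zero. -/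
structure GrpFun.ExactRight (E' E : GrpFun) {A B G : Type} [Group A] [Group B] [Group G]
    (i j : A →* B) (k : B →* G) (d : E'.obj G → E.obj A) : Prop where
  zero : ∀ y, d (E'.map k y) = 0
  exactA : Function.Exact d (E.diff i j)
  exactB : Function.Exact (E.diff i j) (E.map k)

/-- For all `n`, the sequence
`H (n+1) B → H (n+1) G → H n A → H n B → H n G` is exact at the three inner places, the sequence
`L (n+1) B → L (n+1) G → L n A → L n B → L n G` is exact at `L n A` and `L n B`, and its first two
homomorphisms have composition zero. The assembly maps commute with the connecting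
homomorphisms. -/
def Assembly.ExactSeq (T : Assembly) {A B G : Type} [Group A] [Group B] [Group G]
    (i j : A →* B) (k : B →* G) : Prop :=
  ∀ n : ℤ, ∃ c : T.Connecting A G n,
    Function.Exact ((T.H (n + 1)).map k) c.dH ∧
    (T.H (n + 1)).ExactRight (T.H n) i j k c.dH ∧
    (T.L (n + 1)).ExactRight (T.L n) i j k c.dL

/-- The exact sequences of an HNN extension `G` of `B` with the associated subgroup `A`. -/
def Assembly.HnnExact (T : Assembly) {B : Type} [Group B] (A A' : Subgroup B) (φ : A ≃* A') :
    Prop :=
  T.ExactSeq A.subtype (A'.subtype.comp φ.toMonoidHom)
    (HNNExtension.of : B →* HNNExtension B A A' φ)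

/-- The properties of assembly maps which are used. -/
structure Assembly.Admissible (T : Assembly) : Prop where
  /-- source and target commute with directed colimits -/
  finitary : ∀ n, (T.H n).Finitary ∧ (T.L n).Finitary
  /-- the assembly maps are isomorphisms for the countable groups with a free normal subgroup and a
  free quotient -/
  bijective : ∀ (A : Type) [Group A] [Countable A], FreeByFree A →
    ∀ n, T.Inj n A ∧ T.Surj n A
  /-- exact sequences for HNN extensions with such associated subgroups -/
  exact : ∀ (B : Type) [Group B] [Countable B] (A A' : Subgroup B) (φ : A ≃* A'),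
    FreeByFree A → T.HnnExact A A' φ

/-- `P` holds for all torsion-free groups. -/
def AllTF (P : (G : Type) → [Group G] → Prop) : Prop :=
  ∀ (G : Type) [Group G], TF G → P G

/-- The group `W` is finitely presented, torsion-free and generated by two elements. -/
def FP2TF (W : Type) [Group W] : Prop :=
  Group.IsFinitelyPresented W ∧ (∃ a b : W, Subgroup.closure {a, b} = ⊤) ∧ TF W

end Pool.Agent.H84.W
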