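import Pool.Agent.H84.W.Gen
import Pool.Agent.H84.W.AsmDef

set_option autoImplicit false

/-!
Assembly maps: natural transformations of functors from groups to abelian groups which commute with
directed colimits and have exact sequences for certain HNN extensions.
-/

namespace Pool.Agent.H84.W

namespace GrpFun

variable (E : GrpFun)

theorem map_comp_apply {G K L : Type} [Group G] [Group K] [Group L] (g : K →* L) (f : G →* K)
    (x : E.obj G) : E.map (g.comp f) x = E.map g (E.map f x) := by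
  rw [E.map_comp]
  rfl

theorem map_retr {G B : Type} [Group G] [Group B] (i : G →* B) (r : B →* G)
    (h : ∀ x, r (i x) = x) (x : E.obj G) : E.map r (E.map i x) = x := by
  rw [← E.map_comp_apply]
  have : r.comp i = MonoidHom.id G := MonoidHom.ext h
  rw [this, E.map_id]
  rfl

end GrpFun

namespace Assembly

variable (T : Assembly)

theorem surj_retr (n : ℤ) {G B : Type} [Group G] [Group B] (i : G →* B) (r : B →* G)
    (h : ∀ x, r (i x) = x) (hB : T.Surj n B) : T.Surj n G := by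
  intro y
  obtain ⟨x, hx⟩ := hB ((T.L n).map i y)
  refine ⟨(T.H n).map r x, ?_⟩
  rw [← T.nat, hx, (T.L n).map_retr i r h]

theorem inj_retr (n : ℤ) {G B : Type} [Group G] [Group B] (i : G →* B) (r : B →* G)
    (h : ∀ x, r (i x) = x) (hB : T.Inj n B) : T.Inj n G := by
  unfold Inj
  rw [injective_iff_map_eq_zero]
  intro x hx
  have h1 : (T.H n).map i x = 0 := by
    apply hB
    rw [← T.nat, hx, map_zero, map_zero]
  rw [← (T.H n).map_retr i r h x, h1, map_zero]

theorem diff_nat (n : ℤ) {A B : Type} [Group A] [Group B] (i j : A →* B) (x : (T.H n).obj A) :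
    T.α n B ((T.H n).diff i j x) = (T.L n).diff i j (T.α n A x) := by
  unfold GrpFun.diff
  rw [map_sub, T.nat, T.nat]

section

variable {A B G : Type} [Group A] [Group B] [Group G] (i j : A →* B) (k : B →* G)

theorem surj_seq (n : ℤ) (hA : ∀ n, T.Inj n A ∧ T.Surj n A) (hE : T.ExactSeq i j k)
    (hG : T.Surj n G) : T.Surj n B := by
  obtain ⟨m, rfl⟩ : ∃ m, n = m + 1 := ⟨n - 1, by ring⟩
  intro y
  obtain ⟨x, hx⟩ := hG ((T.L (m + 1)).map k y)
  obtain ⟨c1, e2, e3, e4⟩ := hE m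
  obtain ⟨c2, f2, f3, f4⟩ := hE (m + 1)
  have h1 : c1.dH x = 0 := by
    apply (hA m).1
    rw [c1.comm, hx, e4.zero, map_zero]
  obtain ⟨b, hb⟩ := (e2 x).mp h1
  have h2 : (T.L (m + 1)).map k (y - T.α (m + 1) B b) = 0 := by
    rw [map_sub, T.nat, hb, hx, sub_self]
  obtain ⟨a, ha⟩ := (f4.exactB _).mp h2
  obtain ⟨c, rfl⟩ := (hA (m + 1)).2 a
  rw [← T.diff_nat] at ha
  refine ⟨(T.H (m + 1)).diff i j c + b, ?_⟩
  rw [map_add, ha, sub_add_cancel]

theorem inj_seq (n : ℤ) (hA : ∀ n, T.Inj n A ∧ T.Surj n A) (hE : T.ExactSeq i j k)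
    (hG : T.Inj n G) (hG' : T.Surj (n + 1) G) : T.Inj n B := by
  obtain ⟨c, e2, e3, e4⟩ := hE n
  unfold Inj
  rw [injective_iff_map_eq_zero]
  intro b hb
  have h1 : (T.H n).map k b = 0 := by
    apply hG
    rw [← T.nat, hb, map_zero, map_zero]
  obtain ⟨a, rfl⟩ := (e3.exactB _).mp h1
  rw [T.diff_nat] at hb
  obtain ⟨l, hl⟩ := (e4.exactA _).mp hb
  obtain ⟨x, rfl⟩ := hG' l
  rw [← c.comm] at hl
  have h2 := (hA n).1 hl
  rw [← h2]
  exact (e3.exactA _).mpr ⟨x, rfl⟩

end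

theorem surj_hnn (n : ℤ) {B : Type} [Group B] (A A' : Subgroup B) (φ : A ≃* A')
    (hA : ∀ n, T.Inj n A ∧ T.Surj n A) (hE : T.HnnExact A A' φ)
    (hG : T.Surj n (HNNExtension B A A' φ)) : T.Surj n B :=
  T.surj_seq _ _ _ n hA hE hG

theorem inj_hnn (n : ℤ) {B : Type} [Group B] (A A' : Subgroup B) (φ : A ≃* A')
    (hA : ∀ n, T.Inj n A ∧ T.Surj n A) (hE : T.HnnExact A A' φ)
    (hG : T.Inj n (HNNExtension B A A' φ))
    (hG' : T.Surj (n + 1) (HNNExtension B A A' φ)) : T.Inj n B :=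
  T.inj_seq _ _ _ n hA hE hG hG'

theorem surj_colim (n : ℤ) (hL : (T.L n).Finitary)
    (h : ∀ (P : Type) [Group P] [Group.IsFinitelyPresented P], T.Surj n (TFQ P))
    (G : Type) [Group G] (hG : TF G) : T.Surj n G := by
  intro y
  obtain ⟨F, _, _, f, z, rfl⟩ := hL.surj G y
  have h1 : (TFQ.lift hG f).comp (QuotientGroup.mk' (tfcl ∅)) = f := by
    ext x
    rfl
  obtain ⟨x, hx⟩ := h F ((T.L n).map (QuotientGroup.mk' (tfcl ∅)) z)
  refine ⟨(T.H n).map (TFQ.lift hG f) x, ?_⟩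
  rw [← T.nat, hx, ← GrpFun.map_comp_apply, h1]

theorem inj_colim (n : ℤ) (hH : (T.H n).Finitary) (hL : (T.L n).Finitary)
    (h : ∀ (P : Type) [Group P] [Group.IsFinitelyPresented P], T.Inj n (TFQ P))
    (G : Type) [Group G] (hG : TF G) : T.Inj n G := by
  unfold Inj
  rw [injective_iff_map_eq_zero]
  intro x hx
  obtain ⟨F, _, _, f, z, rfl⟩ := hH.surj G x
  rw [← T.nat] at hx
  obtain ⟨F', _, _, g, k, rfl, h2⟩ := hL.inj F G f _ hx
  have h1 : (TFQ.lift hG k).comp (QuotientGroup.mk' (tfcl ∅)) = k := by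
    ext x
    rfl
  have h3 : (T.H n).map ((QuotientGroup.mk' (tfcl (∅ : Set F'))).comp g) z = 0 := by
    apply h F'
    rw [← T.nat, GrpFun.map_comp_apply, h2, map_zero, map_zero]
  rw [← h1, MonoidHom.comp_assoc, GrpFun.map_comp_apply, h3, map_zero]

end Assembly

/-- One finitely presented two-generator torsion-free group decides the conjecture for all
torsion-free groups. -/
theorem one_group : ∃ (W : Type) (_ : Group W), FP2TF W ∧
    ∀ T : Assembly, T.Admissible → ∀ n : ℤ,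
      (T.Surj n W → AllTF (fun G _ => T.Surj n G)) ∧
      (T.Surj (n + 1) W → T.Inj n W → AllTF (fun G _ => T.Inj n G)) := by
  obtain ⟨W, _, h1, h2, h3, h4⟩ := exists_W
  refine ⟨W, inferInstance, ⟨h1, h3, h2⟩,
    fun T hT n => ⟨fun hW G _ hG => ?_, fun hW hW' G _ hG => ?_⟩⟩
  · refine T.surj_colim n (hT.finitary n).2 ?_ G hG
    refine h4 (fun G _ => T.Surj n G) (fun G B _ _ i r hir => T.surj_retr n i r hir) ?_ hW
    intro B _ _ A A' φ hA
    exact T.surj_hnn n A A' φ (hT.bijective A hA) (hT.exact B A A' φ hA)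
  · refine T.inj_colim n (hT.finitary n).1 (hT.finitary n).2 ?_ G hG
    intro P _ _
    refine (h4 (fun G _ => T.Surj (n + 1) G ∧ T.Inj n G) ?_ ?_ ⟨hW, hW'⟩ P).2
    · intro G B _ _ i r hir h
      exact ⟨T.surj_retr (n + 1) i r hir h.1, T.inj_retr n i r hir h.2⟩
    · intro B _ _ A A' φ hA h
      exact ⟨T.surj_hnn (n + 1) A A' φ (hT.bijective A hA) (hT.exact B A A' φ hA) h.1,
        T.inj_hnn n A A' φ (hT.bijective A hA) (hT.exact B A A' φ hA) h.2 h.1⟩

end Pool.Agent.H84.W
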