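import Mathlib

set_option autoImplicit false

/-! Permutation representations for the undecidability of the word problem. -/

namespace Pool.Agent.H84.W.WPA

theorem pinv {Ω : Type} (e : Equiv.Perm Ω) (x : Ω) : e⁻¹ (e x) = x := e.symm_apply_apply x

section CSB

variable {X Y S : Type} [Group S]

/-- An equivariant Cantor-Schroeder-Bernstein theorem. -/
theorem csb (ax : S → X → X) (ay : S → Y → Y)
    (hax : ∀ s x, ax s (ax s⁻¹ x) = x) (hay : ∀ s y, ay s (ay s⁻¹ y) = y)
    (f : X → Y) (hf : Function.Injective f) (hfe : ∀ s x, f (ax s x) = ay s (f x))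
    (g : Y → X) (hg : Function.Injective g) (hge : ∀ s y, g (ay s y) = ax s (g y)) :
    ∃ h : X → Y, Function.Bijective h ∧ ∀ s x, h (ax s x) = ay s (h x) := by
  classical
  let A : Set X := {x | ∃ (n : ℕ) (x0 : X), x0 ∉ Set.range g ∧ (fun x => g (f x))^[n] x0 = x}
  have hrange : ∀ x, x ∉ A → ∃ y, g y = x := by
    intro x hx
    by_contra hcon
    exact hx ⟨0, x, fun ⟨y, hy⟩ => hcon ⟨y, hy⟩, rfl⟩
  have hit : ∀ (s : S) (n : ℕ) (x : X), (fun x => g (f x))^[n] (ax s x) =
      ax s ((fun x => g (f x))^[n] x) := by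
    intro s n
    induction n with
    | zero => intro x; rfl
    | succ n ih =>
      intro x
      rw [Function.iterate_succ_apply, Function.iterate_succ_apply, ← ih, hfe, hge]
  have hinv1 : ∀ s x, x ∈ A → ax s x ∈ A := by
    rintro s _ ⟨n, x0, hx0, rfl⟩
    refine ⟨n, ax s x0, ?_, hit s n x0⟩
    rintro ⟨y, hy⟩
    apply hx0
    refine ⟨ay s⁻¹ y, ?_⟩
    have h1 : ax s⁻¹ (ax s x0) = x0 := by
      have := hax s⁻¹ x0
      rwa [inv_inv] at this
    rw [hge, hy, h1]
  have hinv2 : ∀ s x, ax s x ∈ A → x ∈ A := by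
    intro s x hx
    have := hinv1 s⁻¹ _ hx
    have h1 : ax s⁻¹ (ax s x) = x := by
      have := hax s⁻¹ x
      rwa [inv_inv] at this
    rwa [h1] at this
  have hrange' : ∀ x, ∃ y, x ∉ A → g y = x := by
    intro x
    by_cases hx : x ∈ A
    · exact ⟨f x, fun h => absurd hx h⟩
    · obtain ⟨y, hy⟩ := hrange x hx
      exact ⟨y, fun _ => hy⟩
  choose gi hgi using hrange'
  let h : X → Y := fun x => if x ∈ A then f x else gi x
  have h1 : ∀ x, x ∈ A → h x = f x := fun x hx => if_pos hx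
  have h2 : ∀ x, x ∉ A → g (h x) = x := fun x hx => by
    change g (if x ∈ A then f x else gi x) = x
    rw [if_neg hx]; exact hgi x hx
  have hAf : ∀ x, x ∈ A → g (f x) ∈ A := by
    rintro _ ⟨n, x0, hx0, rfl⟩
    exact ⟨n + 1, x0, hx0, Function.iterate_succ_apply' _ _ _⟩
  refine ⟨h, ⟨?_, ?_⟩, ?_⟩
  · intro x x' hxx
    by_cases hx : x ∈ A
    · by_cases hx' : x' ∈ A
      · rw [h1 x hx, h1 x' hx'] at hxx
        exact hf hxx
      · exfalso
        apply hx'
        rw [h1 x hx] at hxx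
        rw [← h2 x' hx', ← hxx]
        exact hAf x hx
    · by_cases hx' : x' ∈ A
      · exfalso
        apply hx
        rw [h1 x' hx'] at hxx
        rw [← h2 x hx, hxx]
        exact hAf x' hx'
      · rw [← h2 x hx, ← h2 x' hx', hxx]
  · intro y
    by_cases hy : g y ∈ A
    · obtain ⟨n, x0, hx0, hn⟩ := hy
      cases n with
      | zero => exact absurd ⟨y, hn.symm⟩ hx0
      | succ n =>
        rw [Function.iterate_succ_apply'] at hn
        refine ⟨(fun x => g (f x))^[n] x0, ?_⟩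
        rw [h1 _ ⟨n, x0, hx0, rfl⟩]
        exact hg hn
    · exact ⟨g y, hg (h2 _ hy)⟩
  · intro s x
    by_cases hx : x ∈ A
    · rw [h1 _ (hinv1 s x hx), h1 _ hx, hfe]
    · have hx' : ax s x ∉ A := fun hh => hx (hinv2 s x hh)
      apply hg
      rw [h2 _ hx', hge, h2 _ hx]

end CSB

section Intertwiner

variable {Ω S : Type} [Group S]

theorem exists_intertwiner (α β : S →* Equiv.Perm Ω) (p q : Ω)
    (hp : ∀ s, α s p = p ↔ β s q = q)
    (f : Ω → Ω) (hf : Function.Injective f) (hfe : ∀ s ω, f (α s ω) = β s (f ω))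
    (hfo : ∀ ω s, β s q ≠ f ω)
    (g : Ω → Ω) (hg : Function.Injective g) (hge : ∀ s ω, g (β s ω) = α s (g ω))
    (hgo : ∀ ω s, α s p ≠ g ω) :
    ∃ R : Equiv.Perm Ω, R p = q ∧ ∀ s ω, R (α s ω) = β s (R ω) := by
  classical
  have hwd : ∀ s s', α s p = α s' p ↔ β s q = β s' q := by
    intro s s'
    have h1 : ∀ (γ : S →* Equiv.Perm Ω) (o : Ω), γ s o = γ s' o ↔ γ (s'⁻¹ * s) o = o := by
      intro γ o
      rw [map_mul, map_inv, Equiv.Perm.mul_apply, Equiv.Perm.inv_eq_iff_eq]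
    rw [h1, h1, hp]
  have act1 : ∀ (γ : S →* Equiv.Perm Ω) (o : Ω) (s : S) (ω : Ω), (∀ t, γ t o ≠ ω) →
      ∀ t, γ t o ≠ γ s ω := by
    intro γ o s ω hω t ht
    apply hω (s⁻¹ * t)
    rw [map_mul, map_inv, Equiv.Perm.mul_apply, ht, pinv]
  let X := {ω : Ω // ∀ t, α t p ≠ ω}
  let Y := {ω : Ω // ∀ t, β t q ≠ ω}
  obtain ⟨h, hbij, hh⟩ := csb (X := X) (Y := Y) (S := S)
    (fun s x => ⟨α s x.1, act1 α p s x.1 x.2⟩) (fun s x => ⟨β s x.1, act1 β q s x.1 x.2⟩)
    (fun s x => Subtype.ext (by simp)) (fun s x => Subtype.ext (by simp))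
    (fun x => ⟨f x.1, hfo x.1⟩) (fun x y hxy => Subtype.ext (hf (congrArg Subtype.val hxy)))
    (fun s x => Subtype.ext (hfe s x.1))
    (fun x => ⟨g x.1, hgo x.1⟩) (fun x y hxy => Subtype.ext (hg (congrArg Subtype.val hxy)))
    (fun s x => Subtype.ext (hge s x.1))
  let R : Ω → Ω := fun ω => if hω : ∃ t, α t p = ω then β hω.choose q
    else (h ⟨ω, fun t ht => hω ⟨t, ht⟩⟩ : Y).1
  have R1 : ∀ t, R (α t p) = β t q := by
    intro t
    have hω : ∃ t', α t' p = α t p := ⟨t, rfl⟩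
    change (if hω : ∃ t', α t' p = α t p then β hω.choose q else _) = _
    rw [dif_pos hω]
    exact (hwd _ _).mp hω.choose_spec
  have R2 : ∀ x : X, R x.1 = (h x).1 := by
    intro x
    have hω : ¬ ∃ t', α t' p = x.1 := fun ⟨t, ht⟩ => x.2 t ht
    change (if hω : ∃ t', α t' p = x.1 then β hω.choose q else _) = _
    rw [dif_neg hω]
  have cases : ∀ ω : Ω, (∃ t, ω = α t p) ∨ ∃ x : X, x.1 = ω := by
    intro ω
    by_cases hω : ∃ t, α t p = ω
    · obtain ⟨t, ht⟩ := hω; exact Or.inl ⟨t, ht.symm⟩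
    · exact Or.inr ⟨⟨ω, fun t ht => hω ⟨t, ht⟩⟩, rfl⟩
  have Rbij : Function.Bijective R := by
    constructor
    · intro ω ω' hωω
      rcases cases ω with ⟨t, rfl⟩ | ⟨x, rfl⟩
      · rcases cases ω' with ⟨t', rfl⟩ | ⟨x', rfl⟩
        · rw [R1, R1] at hωω
          exact (hwd _ _).mpr hωω
        · rw [R1, R2] at hωω
          exact absurd hωω ((h x').2 t)
      · rcases cases ω' with ⟨t', rfl⟩ | ⟨x', rfl⟩
        · rw [R1, R2] at hωω
          exact absurd hωω.symm ((h x).2 t')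
        · rw [R2, R2] at hωω
          rw [hbij.1 (Subtype.ext hωω)]
    · intro ω
      by_cases hω : ∃ t, β t q = ω
      · obtain ⟨t, rfl⟩ := hω
        exact ⟨_, R1 t⟩
      · obtain ⟨x, hx⟩ := hbij.2 ⟨ω, fun t ht => hω ⟨t, ht⟩⟩
        exact ⟨x.1, by rw [R2, hx]⟩
  refine ⟨Equiv.ofBijective R Rbij, ?_, ?_⟩
  · have := R1 1
    rwa [map_one, map_one, Equiv.Perm.one_apply, Equiv.Perm.one_apply] at this
  · intro s ω
    change R (α s ω) = β s (R ω)
    rcases cases ω with ⟨t, rfl⟩ | ⟨x, rfl⟩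
    · rw [← Equiv.Perm.mul_apply, ← map_mul, R1, R1, map_mul, Equiv.Perm.mul_apply]
    · rw [R2, R2 ⟨α s x.1, act1 α p s x.1 x.2⟩, hh]

end Intertwiner

section Absorb

variable {G Ω0 K S : Type} [Group G] [Group S]

/-- Left multiplication on subsets. -/
def lm : G →* Equiv.Perm (Set G) where
  toFun g :=
    { toFun := fun A => (fun x => g * x) '' A
      invFun := fun A => (fun x => g⁻¹ * x) '' A
      left_inv := fun A => by ext x; simp
      right_inv := fun A => by ext x; simp }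
  map_one' := by ext A x; simp
  map_mul' g h := by
    ext A x
    simp only [Equiv.coe_fn_mk, Set.mem_image, Equiv.Perm.mul_apply]
    constructor
    · rintro ⟨y, hy, rfl⟩
      exact ⟨h * y, ⟨y, hy, rfl⟩, by rw [mul_assoc]⟩
    · rintro ⟨_, ⟨y, hy, rfl⟩, rfl⟩
      exact ⟨y, hy, by rw [mul_assoc]⟩

/-- Extend an action by a large piece. -/
def big (K : Type) (act : G →* Equiv.Perm Ω0) : G →* Equiv.Perm (Ω0 ⊕ (Set G × K)) where
  toFun g := Equiv.sumCongr (act g) (Equiv.prodCongr (lm g) (Equiv.refl K))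
  map_one' := by
    ext x
    rcases x with x | ⟨A, k⟩ <;> simp
  map_mul' g h := by
    ext x
    rcases x with x | ⟨A, k⟩ <;> simp

theorem big_inl (act : G →* Equiv.Perm Ω0) (g : G) (x : Ω0) :
    big K act g (Sum.inl x) = Sum.inl (act g x) := rfl

theorem big_inr (act : G →* Equiv.Perm Ω0) (g : G) (A : Set G) (k : K) :
    big K act g (Sum.inr (A, k)) = Sum.inr ((fun x => g * x) '' A, k) := rfl

/-- Every action of a group embeds in the large piece. -/
theorem exists_embedding (act : G →* Equiv.Perm Ω0) (j : S →* G) (hj : Function.Injective j)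
    (α : S →* Equiv.Perm (Ω0 ⊕ (Set G × K)))
    (κ : (Ω0 ⊕ (Set G × K)) → K) (hκ : Function.Injective κ) :
    ∃ f : (Ω0 ⊕ (Set G × K)) → (Ω0 ⊕ (Set G × K)), Function.Injective f ∧
      (∀ s ω, f (α s ω) = big K act (j s) (f ω)) ∧ ∀ ω, ∃ y, f ω = Sum.inr y := by
  classical
  let Ω := Ω0 ⊕ (Set G × K)
  let st : Setoid Ω :=
    { r := fun ω ω' => ∃ s, α s ω = ω'
      iseqv := ⟨fun ω => ⟨1, by simp⟩, fun {ω ω'} ⟨s, hs⟩ => ⟨s⁻¹, by
        rw [← hs, map_inv, pinv]⟩, fun {a b c} ⟨s, hs⟩ ⟨t, ht⟩ =>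
          ⟨t * s, by rw [map_mul, Equiv.Perm.mul_apply, hs, ht]⟩⟩ }
  let rep : Ω → Ω := fun ω => (Quotient.mk st ω).out
  have hrep : ∀ ω, ∃ s, α s (rep ω) = ω := fun ω =>
    Quotient.exact (s := st) (Quotient.out_eq (Quotient.mk st ω))
  have hrep2 : ∀ s ω, rep (α s ω) = rep ω := by
    intro s ω
    have : (Quotient.mk st (α s ω)) = Quotient.mk st ω :=
      Quotient.sound (st.symm ⟨s, rfl⟩)
    change (Quotient.mk st (α s ω)).out = (Quotient.mk st ω).out
    rw [this]
  let A : Ω → Set G := fun ω => {x | ∃ s, j s = x ∧ α s (rep ω) = ω}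
  refine ⟨fun ω => Sum.inr (A ω, κ (rep ω)), ?_, ?_, fun ω => ⟨_, rfl⟩⟩
  · intro ω ω' h
    have h1 := Sum.inr.inj h
    have h2 : A ω = A ω' := (Prod.mk.inj h1).1
    have h3 : rep ω = rep ω' := hκ (Prod.mk.inj h1).2
    obtain ⟨s, hs⟩ := hrep ω
    have h4 : j s ∈ A ω := ⟨s, rfl, hs⟩
    rw [h2] at h4
    obtain ⟨s', hs', hs2⟩ := h4
    have := hj hs'
    subst this
    rw [← hs, ← hs2, h3]
  · intro s ω
    simp only
    rw [big_inr, hrep2]
    congr 2
    ext x
    constructor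
    · rintro ⟨t, rfl, ht⟩
      rw [hrep2] at ht
      refine ⟨j (s⁻¹ * t), ⟨s⁻¹ * t, rfl, ?_⟩, ?_⟩
      · rw [map_mul, Equiv.Perm.mul_apply, ht, map_inv, pinv]
      · simp
    · rintro ⟨_, ⟨t, rfl, ht⟩, rfl⟩
      refine ⟨s * t, by simp, ?_⟩
      rw [hrep2, map_mul, Equiv.Perm.mul_apply, ht]

/-- A type in which the large set embeds. -/
theorem exists_kappa (Ω0 P : Type) : ∃ (K : Type) (κ : Ω0 ⊕ (P × K) → K),
    Function.Injective κ := by
  refine ⟨ℕ → Ω0 ⊕ P, fun x => match x with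
    | Sum.inl ω => fun _ => Sum.inl ω
    | Sum.inr (q, k) => fun n => match n with
      | 0 => Sum.inr q
      | n + 1 => k n, ?_⟩
  intro x y h
  rcases x with x | ⟨q, k⟩ <;> rcases y with y | ⟨q', k'⟩
  · have := congrFun h 0
    simp only [Sum.inl.injEq] at this
    rw [this]
  · have := congrFun h 0
    simp at this
  · have := congrFun h 0
    simp at this
  · have h0 := congrFun h 0
    simp only [Sum.inr.injEq] at h0
    have h1 : k = k' := by
      funext n
      exact congrFun h (n + 1)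
    rw [h0, h1]

/-- Two injective homomorphisms become conjugate in a suitable permutation representation
extending the given one, by a permutation with a prescribed value at one point. -/
theorem exists_conj (act : G →* Equiv.Perm Ω0) (κ : (Ω0 ⊕ (Set G × K)) → K)
    (hκ : Function.Injective κ) (p q : Ω0) (j j' : S →* G)
    (hj : Function.Injective j) (hj' : Function.Injective j')
    (hp : ∀ s, act (j s) p = p ↔ act (j' s) q = q) :
    ∃ R : Equiv.Perm (Ω0 ⊕ (Set G × K)), R (Sum.inl p) = Sum.inl q ∧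
      ∀ s, R * big K act (j s) = big K act (j' s) * R := by
  obtain ⟨f, hf1, hf2, hf3⟩ := exists_embedding act j' hj' ((big K act).comp j) κ hκ
  obtain ⟨g, hg1, hg2, hg3⟩ := exists_embedding act j hj ((big K act).comp j') κ hκ
  obtain ⟨R, hR1, hR2⟩ := exists_intertwiner ((big K act).comp j) ((big K act).comp j')
    (Sum.inl p) (Sum.inl q) (by
      intro s
      simp only [MonoidHom.comp_apply, big_inl, Sum.inl.injEq]
      exact hp s) f hf1 hf2 (by
      intro ω s h
      obtain ⟨y, hy⟩ := hf3 ω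
      rw [hy, MonoidHom.comp_apply, big_inl] at h
      exact absurd h (by simp)) g hg1 hg2 (by
      intro ω s h
      obtain ⟨y, hy⟩ := hg3 ω
      rw [hy, MonoidHom.comp_apply, big_inl] at h
      exact absurd h (by simp))
  refine ⟨R, hR1, fun s => ?_⟩
  ext ω
  exact hR2 s ω

end Absorb

end Pool.Agent.H84.W.WPA
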