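import Pool.Agent.H84.W.Base
import Pool.Agent.H84.W.Ext0

/-!
Actions of multiple HNN extensions with prescribed stabilizers.
-/

namespace Pool.Agent.H84.W

open Pool.Agent.H84.W.WPA

variable {B : Type} [Group B] (D : HD B)

/-- The action of a group on the cosets of two subgroups. -/
def actX (x : Bool → Subgroup B) : B →* Equiv.Perm (Σ ε, B ⧸ x ε) where
  toFun b := Equiv.sigmaCongrRight fun _ => MulAction.toPerm b
  map_one' := by
    ext ⟨ε, y⟩ : 1
    change (⟨ε, (1 : B) • y⟩ : Σ ε, B ⧸ x ε) = _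
    rw [one_smul]
    rfl
  map_mul' b c := by
    ext ⟨ε, y⟩ : 1
    change (⟨ε, (b * c) • y⟩ : Σ ε, B ⧸ x ε) = ⟨ε, b • c • y⟩
    rw [mul_smul]

theorem actX_iff (x : Bool → Subgroup B) (b : B) (ε : Bool) :
    actX x b ⟨ε, (1 : B)⟩ = ⟨ε, (1 : B)⟩ ↔ b ∈ x ε := by
  change (⟨ε, b • ((1 : B) : B ⧸ x ε)⟩ : Σ ε, B ⧸ x ε) = ⟨ε, ((1 : B) : B ⧸ x ε)⟩ ↔ _
  rw [MulAction.Quotient.smul_coe, smul_eq_mul, mul_one]
  constructor
  · intro h
    have h1 := eq_of_heq (Sigma.mk.inj h).2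
    rw [QuotientGroup.eq, mul_one] at h1
    exact (inv_mem_iff).mp h1
  · intro h
    have h1 : (b : B ⧸ x ε) = ((1 : B) : B ⧸ x ε) := by
      rw [QuotientGroup.eq, mul_one]
      exact inv_mem h
    rw [h1]

/-- A multiple HNN extension acts such that two points have prescribed stabilizers in the base
group, and the stable letters map points to points, if the associated subgroups are compatible. -/
theorem exists_level (x : Bool → Subgroup B) (a b : D.I → Bool)
    (h : ∀ p (s : D.A p), (s : B) ∈ x (a p) ↔ (D.φ p s : B) ∈ x (b p)) :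
    ∃ (Ω : Type) (act : HN D →* Equiv.Perm Ω) (o : Bool → Ω),
      (∀ g ε, act (HN.base D g) (o ε) = o ε ↔ g ∈ x ε) ∧
      ∀ p, act (HN.t D p) (o (a p)) = o (b p) := by
  classical
  obtain ⟨K, κ, hκ⟩ := exists_kappa (Σ ε, B ⧸ x ε) (Set B)
  have hR := fun p => exists_conj (S := D.A p) (actX x) κ hκ ⟨a p, (1 : B)⟩ ⟨b p, (1 : B)⟩
    (D.A p).subtype ((D.A' p).subtype.comp (D.φ p).toMonoidHom)
    (D.A p).subtype_injective ((D.A' p).subtype_injective.comp (D.φ p).injective) (by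
      intro s
      rw [actX_iff, actX_iff]
      exact h p s)
  choose R hR1 hR2 using hR
  refine ⟨_, HN.lift (big K (actX x)) R (fun p s => ?_), fun ε => Sum.inl ⟨ε, (1 : B)⟩, ?_, ?_⟩
  · rw [mul_inv_eq_iff_eq_mul]
    exact hR2 p s
  · intro g ε
    rw [HN.lift_base, big_inl, Sum.inl.injEq, actX_iff]
  · intro p
    rw [HN.lift_t]
    exact hR1 p

end Pool.Agent.H84.W
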