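import Pool.Agent.H84.W.G0
import Pool.Agent.H84.W.Lev

set_option autoImplicit false

/-!
Normal subgroups of a free group of rank two with recursively enumerable sets of words are
intersections with finitely generated subgroups of finitely presented torsion-free groups.
-/

namespace Pool.Agent.H84.W

/-! ### HNN data from pairs of embeddings -/

section HDof

variable {B : Type} [Group B] (I : Type) (S : I → Type) [∀ i, Group (S i)]
  (j j' : ∀ i, S i →* B) (hj : ∀ i, Function.Injective (j i)) (hj' : ∀ i, Function.Injective (j' i))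

/-- The data given by pairs of embeddings. -/
noncomputable def HDof : HD B where
  I := I
  A i := (j i).range
  A' i := (j' i).range
  φ i := (MonoidHom.ofInjective (hj i)).symm.trans (MonoidHom.ofInjective (hj' i))

theorem HDof_φ (i : I) (s : S i) (h : j i s ∈ (j i).range) :
    ((HDof I S j j' hj hj').φ i ⟨j i s, h⟩ : B) = j' i s := by
  have h2 : (⟨j i s, h⟩ : (j i).range) = MonoidHom.ofInjective (hj i) s := rfl
  change (MonoidHom.ofInjective (hj' i)
    ((MonoidHom.ofInjective (hj i)).symm ⟨j i s, h⟩) : B) = _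
  rw [h2, MulEquiv.symm_apply_apply]
  rfl

theorem HDof_rel (i : I) (s : S i) :
    HN.t (HDof I S j j' hj hj') i * HN.base (HDof I S j j' hj hj') (j i s) *
      (HN.t (HDof I S j j' hj hj') i)⁻¹ = HN.base (HDof I S j j' hj hj') (j' i s) := by
  have h := HN.t_rel (HDof I S j j' hj hj') i ⟨j i s, ⟨s, rfl⟩⟩
  rw [HDof_φ] at h
  exact h

theorem HDof_level (x : Bool → Subgroup B) (a b : I → Bool)
    (h : ∀ p (s : S p), j p s ∈ x (a p) ↔ j' p s ∈ x (b p)) :
    ∃ (Ω : Type) (act : HN (HDof I S j j' hj hj') →* Equiv.Perm Ω) (o : Bool → Ω),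
      (∀ g ε, act (HN.base _ g) (o ε) = o ε ↔ g ∈ x ε) ∧
      ∀ p, act (HN.t (HDof I S j j' hj hj') p) (o (a p)) = o (b p) := by
  refine exists_level (HDof I S j j' hj hj') x a b ?_
  rintro p ⟨_, ⟨s, rfl⟩⟩
  rw [HDof_φ]
  exact h p s

theorem HDof_fp [Group.IsFinitelyPresented B] [Finite I] [∀ i, Group.FG (S i)] :
    Group.IsFinitelyPresented (HN (HDof I S j j' hj hj')) := by
  have : Finite (HDof I S j j' hj hj').I := inferInstanceAs (Finite I)
  refine HN.fp _ fun i => ?_
  change (j i).range.FG
  rw [← Group.fg_iff_subgroup_fg]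
  exact Group.fg_range _

end HDof

theorem JJ_lt {P P' : Type} (π : P' → P) (μ : V) (ρ : P' → V) (p : P') (v : V) :
    JJ π μ ρ (lt p v) = lt (π p) (μ * v + ρ p) := by
  apply G0_ext
  · rw [JJ_left]
    simp [lt, cI]
  · rw [JJ_right]
    simp [lt]

theorem TH_lt_ne {P : Type} [DecidableEq P] (b d : P) (ε : Bool) (p : P) (v : V) (h : p ≠ d) :
    TH b d ε (lt p v) = lt p v := by
  apply G0_ext
  · rw [TH_left]
    exact th_of_ne b d ε (p, v) h
  · rw [TH_right]

theorem sg_left {P : Type} (ε : Bool) (x : FreeGroup (P × V)) :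
    (SemidirectProduct.inl (sg ε x) : G0 P) = sg ε (SemidirectProduct.inl x) :=
  map_sg SemidirectProduct.inl ε x

theorem TH_lt_eq {P : Type} [DecidableEq P] (b d : P) (ε : Bool) (v : V) :
    TH b d ε (lt d v) = sg ε (lt b v) * lt d v := by
  have : sg ε (lt b v) * lt d v =
      SemidirectProduct.inl (sg ε (FreeGroup.of (b, v)) * FreeGroup.of (d, v)) := by
    rw [map_mul, sg_left]
    rfl
  rw [this]
  apply G0_ext
  · rw [TH_left]
    exact th_of_eq b d ε v
  · rw [TH_right]
    rfl

section Codes

variable {B m s : ℤ} {κ : Bool × Bool → ℤ} {E : List (Bool × Bool) → ℤ}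

theorem E_step (h0 : E [] = 0) (h1 : ∀ w i, E (w ++ [i]) = κ i + m * E w)
    (h2 : ∀ i, 0 < κ i) (h3 : ∀ i, κ i < m) (h4 : Function.Injective κ) (i : Bool × Bool) (v : ℤ)
    (w' : List (Bool × Bool)) (h : κ i + m * v = E w') : ∃ w, w' = w ++ [i] ∧ v = E w := by
  have hm : 0 < m := lt_trans (h2 i) (h3 i)
  rcases List.eq_nil_or_concat' w' with rfl | ⟨w, i', rfl⟩
  · exfalso
    rw [h0] at h
    have e1 : (κ i + m * v) % m = κ i := by
      rw [Int.add_mul_emod_self_left, Int.emod_eq_of_lt (h2 i).le (h3 i)]
    rw [h, Int.zero_emod] at e1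
    have := h2 i
    omega
  · rw [h1] at h
    have e1 : κ i = κ i' := by
      have := congrArg (· % m) h
      simpa only [Int.add_mul_emod_self_left, Int.emod_eq_of_lt (h2 _).le (h3 _)] using this
    have e2 := h4 e1
    subst e2
    refine ⟨w, rfl, ?_⟩
    exact mul_left_cancel₀ hm.ne' (add_left_cancel h)

theorem E_inj (h0 : E [] = 0) (h1 : ∀ w i, E (w ++ [i]) = κ i + m * E w)
    (h2 : ∀ i, 0 < κ i) (h3 : ∀ i, κ i < m) (h4 : Function.Injective κ) :
    Function.Injective E := by
  intro w
  induction w using List.reverseRecOn with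
  | nil =>
    intro w' h
    rcases List.eq_nil_or_concat' w' with rfl | ⟨w, i', rfl⟩
    · rfl
    · obtain ⟨_, h5, _⟩ := E_step h0 h1 h2 h3 h4 i' (E w) [] (by rw [← h1, ← h])
      simp at h5
  | append_singleton w i ih =>
    intro w' h
    rw [h1] at h
    obtain ⟨w'', rfl, h5⟩ := E_step h0 h1 h2 h3 h4 i (E w) w' h
    rw [ih h5]

end Codes

section Main

variable {P ι : Type} (D : Rules P ι) (p0 q0 : P) (s B m : ℤ) (κ : Bool × Bool → ℤ)
  (E : List (Bool × Bool) → ℤ)

/-- The letters of the base group: the states of the machine, two free letters `some b` and a letter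
`none`. -/
abbrev PP (P : Type) : Type := P ⊕ Option Bool

/-- The code of a word. -/
def code (w : List (Bool × Bool)) : V := fun j => if j then s + B * E w else 0

/-- The index types of the subgroups. -/
def PI : ι ⊕ (Bool × Bool) → Type
  | .inl _ => Unit
  | .inr _ => Option (Option Bool)

/-- The letters of the second kind of subgroups. -/
def pi0 : Option (Option Bool) → PP P
  | none => .inl q0
  | some x => .inr x

theorem pi0_injective : Function.Injective (pi0 q0 : Option (Option Bool) → PP P) := by
  rintro (_ | x) (_ | y) h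
  · rfl
  · exact absurd h (by simp [pi0])
  · exact absurd h (by simp [pi0])
  · simp only [pi0, Sum.inr.injEq] at h
    rw [h]

/-- The shifts. -/
def rho (c : ℤ) : Option (Option Bool) → V
  | none => fun j => if j then c else 0
  | some _ => 0

/-- The factors. -/
def mu (c : ℤ) : V := fun j => if j then c else 1

/-- The source subgroups. -/
def jA : ∀ p : ι ⊕ (Bool × Bool), G0 (PI p) →* G0 (PP P)
  | .inl i => JJ (fun _ : Unit => Sum.inl (D.src i)) (D.m i) (fun _ => D.r i)
  | .inr _ => JJ (pi0 q0) (mu B) (rho s)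

open Classical in
/-- The target subgroups. -/
noncomputable def jB : ∀ p : ι ⊕ (Bool × Bool), G0 (PI p) →* G0 (PP P)
  | .inl i => JJ (fun _ : Unit => Sum.inl (D.tgt i)) (D.a i) (fun _ => D.b i)
  | .inr i => (TH (Sum.inr (some i.1)) (Sum.inr none) i.2).comp
      (JJ (pi0 q0) (mu (B * m)) (rho (s + B * κ i)))

theorem jA_injective (hB : 0 < B) (p : ι ⊕ (Bool × Bool)) :
    Function.Injective (jA D q0 s B p) := by
  rcases p with i | i
  · exact JJ_injective _ _ _ (fun _ _ _ => rfl) (D.hm i)
  · refine JJ_injective _ _ _ (pi0_injective q0) fun j => ?_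
    cases j <;> simp [mu, hB.ne']

theorem jB_injective (hB : 0 < B) (hm : 0 < m) (p : ι ⊕ (Bool × Bool)) :
    Function.Injective (jB D q0 s B m κ p) := by
  classical
  rcases p with i | i
  · exact JJ_injective _ _ _ (fun _ _ _ => rfl) (D.ha i)
  · refine (TH_injective _ _ _ (by simp)).comp (JJ_injective _ _ _ (pi0_injective q0) fun j => ?_)
    cases j <;> simp [mu, hB.ne', hm.ne']

/-- The inclusion of the free group of rank two. -/
def i0 : FreeGroup Bool →* G0 (PP P) :=
  SemidirectProduct.inl.comp (FreeGroup.map fun b => (Sum.inr (some b), 0))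

theorem i0_of (b : Bool) : (i0 (FreeGroup.of b) : G0 (PP P)) = lt (Sum.inr (some b)) 0 := by
  simp [i0, lt]

theorem i0_injective : Function.Injective (i0 : FreeGroup Bool →* G0 (PP P)) := by
  refine SemidirectProduct.inl_injective.comp (FreeGroup.map_injective ?_)
  intro b b' h
  simpa using h

theorem mk_append (w : List (Bool × Bool)) (i : Bool × Bool) :
    FreeGroup.mk (w ++ [i]) = FreeGroup.mk w * sg i.2 (FreeGroup.of i.1) := by
  rw [← FreeGroup.mul_mk]
  congr 1
  obtain ⟨b, ε⟩ := i
  cases ε <;> rfl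

variable (N : Subgroup (FreeGroup Bool)) [N.Normal]

open Classical in
/-- The values in the quotient. -/
noncomputable def tau (x : PP P × V) : FreeGroup Bool ⧸ N :=
  match x.1 with
  | .inl p => if h : p = q0 ∧ ∃ w, x.2 = code s B E w then
      QuotientGroup.mk' N (FreeGroup.mk h.2.choose) else 1
  | .inr none => 1
  | .inr (some b) => QuotientGroup.mk' N (FreeGroup.of b)

open Classical in
/-- The values detecting the accepted configurations. -/
noncomputable def tau1 (x : PP P × V) : FreeGroup (PP P × V) :=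
  match x.1 with
  | .inl p => if Acc D p0 p x.2 then 1 else FreeGroup.of x
  | .inr _ => FreeGroup.of x

/-- The word in the free letters. -/
def Wb {X : Type} (f : Bool → X) (w : List (Bool × Bool)) : FreeGroup X :=
  FreeGroup.map f (FreeGroup.mk w)

open Classical in
/-- The values detecting the codes. -/
noncomputable def tau2 (x : PP P × V) : FreeGroup (PP P × V) :=
  match x.1 with
  | .inl p => if h : p = q0 ∧ ∃ w, x.2 = code s B E w then
      Wb (fun b => (Sum.inr (some b), 0)) h.2.choose * FreeGroup.of (Sum.inr none, 0)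
      else FreeGroup.of x
  | .inr _ => FreeGroup.of x

variable {E s B m}

theorem code_inj (hB : 0 < B) (hE : Function.Injective E) : Function.Injective (code s B E) := by
  intro w w' h
  have := congrFun h true
  simp only [code, if_true, add_right_inj] at this
  exact hE (mul_left_cancel₀ hB.ne' this)

theorem tau_code (hB : 0 < B) (hE : Function.Injective E) (w : List (Bool × Bool)) :
    tau q0 s B E N (Sum.inl q0, code s B E w) = QuotientGroup.mk' N (FreeGroup.mk w) := by
  have h : q0 = q0 ∧ ∃ w', code s B E w = code s B E w' := ⟨rfl, w, rfl⟩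
  have h1 := code_inj hB hE h.2.choose_spec
  unfold tau
  simp only
  rw [dif_pos h, ← h1]

theorem tau2_code (hB : 0 < B) (hE : Function.Injective E) (w : List (Bool × Bool)) :
    tau2 q0 s B E (Sum.inl q0, code s B E w) =
      Wb (fun b => (Sum.inr (some b), 0)) w * FreeGroup.of ((Sum.inr none : PP P), 0) := by
  have h : q0 = q0 ∧ ∃ w', code s B E w = code s B E w' := ⟨rfl, w, rfl⟩
  have h1 := code_inj hB hE h.2.choose_spec
  unfold tau2
  simp only
  rw [dif_pos h, ← h1]

theorem tau2_ne {v : V} (hv : ∀ w, v ≠ code s B E w) :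
    tau2 q0 s B E ((Sum.inl q0 : PP P), v) = FreeGroup.of (Sum.inl q0, v) := by
  have h : ¬ (q0 = q0 ∧ ∃ w', v = code s B E w') := fun h => hv _ h.2.choose_spec
  unfold tau2
  simp only
  rw [dif_neg h]

end Main

end Pool.Agent.H84.W
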