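import Pool.Agent.H84.W.Ben

set_option autoImplicit false

/-!
Compatibility of the subgroups with the rules.
-/

namespace Pool.Agent.H84.W

theorem lift_iff {X Y : Type} (c : FreeGroup X →* FreeGroup Y) (hc : Function.Injective c)
    (h0 : X → FreeGroup X) (k : X → FreeGroup Y) (h : ∀ x, k x = c (h0 x)) (f : FreeGroup X) :
    FreeGroup.lift k f = 1 ↔ FreeGroup.lift h0 f = 1 := by
  have : FreeGroup.lift k = c.comp (FreeGroup.lift h0) := by
    apply FreeGroup.ext_hom
    intro x
    rw [MonoidHom.comp_apply, FreeGroup.lift_apply_of, FreeGroup.lift_apply_of, h]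
  rw [this, MonoidHom.comp_apply, map_eq_one_iff c hc]

theorem YY_le {P Γ Γ' : Type} [Group Γ] [Group Γ'] (k : P × V → Γ) (k' : P × V → Γ')
    (f : Γ →* Γ') (h : ∀ x, f (k x) = k' x) : YY k ≤ YY k' := by
  intro x hx
  rw [mem_YY] at hx ⊢
  refine ⟨hx.1, ?_⟩
  have : FreeGroup.lift k' = f.comp (FreeGroup.lift k) := by
    apply FreeGroup.ext_hom
    intro x
    rw [MonoidHom.comp_apply, FreeGroup.lift_apply_of, FreeGroup.lift_apply_of, h]
  rw [this, MonoidHom.comp_apply, hx.2, map_one]

variable {P ι : Type} (D : Rules P ι) (p0 q0 : P) {s B m : ℤ} {κ : Bool × Bool → ℤ}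
  {E : List (Bool × Bool) → ℤ} (N : Subgroup (FreeGroup Bool)) [N.Normal]

theorem tau1_le (hcode : ∀ w, Acc D p0 q0 (code s B E w) ↔ FreeGroup.mk w ∈ N) :
    YY (tau1 D p0) ≤ YY (tau q0 s B E N) := by
  classical
  refine YY_le _ _ (FreeGroup.lift (tau q0 s B E N)) ?_
  rintro ⟨p | x, v⟩
  · by_cases h : Acc D p0 p v
    · have e1 : tau1 D p0 (Sum.inl p, v) = 1 := by
        unfold tau1
        simp only
        rw [if_pos h]
      rw [e1, map_one]
      unfold tau
      simp only
      split_ifs with h1
      · obtain ⟨rfl, h2⟩ := h1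
        have h3 := h2.choose_spec
        rw [h3, hcode] at h
        exact ((QuotientGroup.eq_one_iff _).mpr h).symm
      · rfl
    · have e1 : tau1 D p0 (Sum.inl p, v) = FreeGroup.of (Sum.inl p, v) := by
        unfold tau1
        simp only
        rw [if_neg h]
      rw [e1, FreeGroup.lift_apply_of]
  · have e1 : tau1 D p0 (Sum.inr x, v) = FreeGroup.of (Sum.inr x, v) := rfl
    rw [e1, FreeGroup.lift_apply_of]

theorem lift_tau_Wb (w : List (Bool × Bool)) :
    FreeGroup.lift (tau q0 s B E N) (Wb (fun b => ((Sum.inr (some b) : PP P), 0)) w) =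
      QuotientGroup.mk' N (FreeGroup.mk w) := by
  unfold Wb
  have : (FreeGroup.lift (tau q0 s B E N)).comp
      (FreeGroup.map (fun b => ((Sum.inr (some b) : PP P), (0 : V)))) = QuotientGroup.mk' N := by
    apply FreeGroup.ext_hom
    intro b
    simp only [MonoidHom.comp_apply, FreeGroup.map.of, FreeGroup.lift_apply_of]
    rfl
  exact DFunLike.congr_fun this (FreeGroup.mk w)

theorem tau2_le : YY (tau2 q0 s B E) ≤ YY (tau q0 s B E N) := by
  classical
  refine YY_le _ _ (FreeGroup.lift (tau q0 s B E N)) ?_
  rintro ⟨p | x, v⟩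
  · by_cases h : p = q0 ∧ ∃ w, v = code s B E w
    · have e1 : tau2 q0 s B E (Sum.inl p, v) =
          Wb (fun b => (Sum.inr (some b), 0)) h.2.choose * FreeGroup.of (Sum.inr none, 0) := by
        unfold tau2
        simp only
        rw [dif_pos h]
      rw [e1, map_mul, lift_tau_Wb, FreeGroup.lift_apply_of]
      have e2 : tau q0 s B E N (Sum.inr none, 0) = 1 := rfl
      rw [e2, mul_one]
      unfold tau
      simp only
      rw [dif_pos h]
    · have e1 : tau2 q0 s B E (Sum.inl p, v) = FreeGroup.of (Sum.inl p, v) := by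
        unfold tau2
        simp only
        rw [dif_neg h]
      rw [e1, FreeGroup.lift_apply_of]
  · have e1 : tau2 q0 s B E (Sum.inr x, v) = FreeGroup.of (Sum.inr x, v) := rfl
    rw [e1, FreeGroup.lift_apply_of]

/-- The letters of the first kind are compatible with the accepted configurations. -/
theorem compat1 (hacc : ∀ i u, Acc D p0 (D.src i) (D.m i * u + D.r i) ↔
      Acc D p0 (D.tgt i) (D.a i * u + D.b i)) (i : ι) (x : G0 Unit) :
    JJ (fun _ : Unit => (Sum.inl (D.src i) : PP P)) (D.m i) (fun _ => D.r i) x ∈ YY (tau1 D p0) ↔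
    JJ (fun _ : Unit => (Sum.inl (D.tgt i) : PP P)) (D.a i) (fun _ => D.b i) x ∈
      YY (tau1 D p0) := by
  classical
  rw [JJ_mem_YY _ _ _ _ (D.hm i), JJ_mem_YY _ _ _ _ (D.ha i)]
  let h0 : Unit × V → FreeGroup (Unit × V) := fun y =>
    if Acc D p0 (D.src i) (D.m i * y.2 + D.r i) then 1 else FreeGroup.of y
  have i1 : Function.Injective (FreeGroup.map
      (cI (fun _ : Unit => (Sum.inl (D.src i) : PP P)) (D.m i) (fun _ => D.r i))) :=
    FreeGroup.map_injective (cI_injective _ _ _ (fun _ _ _ => rfl) (D.hm i))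
  have i2 : Function.Injective (FreeGroup.map
      (cI (fun _ : Unit => (Sum.inl (D.tgt i) : PP P)) (D.a i) (fun _ => D.b i))) :=
    FreeGroup.map_injective (cI_injective _ _ _ (fun _ _ _ => rfl) (D.ha i))
  rw [lift_iff _ i1 h0, lift_iff _ i2 h0]
  · rintro ⟨⟨⟩, v⟩
    by_cases h : Acc D p0 (D.src i) (D.m i * v + D.r i)
    · have h' := (hacc i v).mp h
      simp only [h0, if_pos h, map_one, tau1, cI, if_pos h']
    · have h' := fun h' => h ((hacc i v).mpr h')
      simp only [h0, if_neg h, tau1, cI, if_neg h', FreeGroup.map.of]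
  · rintro ⟨⟨⟩, v⟩
    by_cases h : Acc D p0 (D.src i) (D.m i * v + D.r i)
    · simp only [h0, if_pos h, map_one, tau1, cI]
    · simp only [h0, if_neg h, tau1, cI, FreeGroup.map.of]

/-- The vector of a number. -/
def vec (c : ℤ) : V := fun j => if j then c else 0

theorem mu_rho (c e : ℤ) (v : ℤ) : mu c * vec v + rho e none = vec (e + c * v) := by
  funext j
  cases j
  · simp [mu, vec, rho]
  · simp only [mu, vec, rho, Pi.add_apply, Pi.mul_apply, if_true]
    ring

theorem mu_rho_eq {c e : ℤ} (hc : c ≠ 0) {v : V} {d : ℤ} (h : mu c * v + rho e none = vec d) :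
    v = vec (v true) ∧ e + c * v true = d := by
  have h1 := congrFun h false
  have h2 := congrFun h true
  simp only [mu, vec, rho, Pi.add_apply, Pi.mul_apply] at h1 h2
  simp at h1 h2
  refine ⟨?_, ?_⟩
  · funext j
    cases j
    · simpa [vec] using h1
    · simp [vec]
  · rw [← h2]
    ring

theorem code_eq (w : List (Bool × Bool)) : code s B E w = vec (s + B * E w) := rfl

open Classical in
/-- The universal values for the letters of the second kind. -/
noncomputable def h2f (E : List (Bool × Bool) → ℤ) (y : Option (Option Bool) × V) :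
    FreeGroup (Option (Option Bool) × V) :=
  match y.1 with
  | none => if h : ∃ w, y.2 = vec (E w) then
      Wb (fun b => (some (some b), 0)) h.choose * FreeGroup.of (some none, 0) else FreeGroup.of y
  | some _ => FreeGroup.of y

theorem h2f_code (hE : Function.Injective E) (w : List (Bool × Bool)) :
    h2f E (none, vec (E w)) = Wb (fun b => (some (some b), 0)) w * FreeGroup.of (some none, 0) := by
  have h : ∃ w', vec (E w) = vec (E w') := ⟨w, rfl⟩
  have h1 : w = h.choose := by
    have := congrFun h.choose_spec true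
    exact hE this
  unfold h2f
  simp only
  rw [dif_pos h, ← h1]

theorem h2f_ne {v : V} (hv : ∀ w, v ≠ vec (E w)) : h2f E (none, v) = FreeGroup.of (none, v) := by
  have h : ¬ ∃ w', v = vec (E w') := fun h => hv _ h.choose_spec
  unfold h2f
  simp only
  rw [dif_neg h]

theorem map_Wb {X Y : Type} (g : X → Y) (f : Bool → X) (w : List (Bool × Bool)) :
    FreeGroup.map g (Wb f w) = Wb (fun b => g (f b)) w := by
  unfold Wb
  rw [FreeGroup.map.comp]
  rfl

/-- The letters of the second kind are compatible with the codes. -/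
theorem compat2 (hB : 0 < B) (h0 : E [] = 0) (h1 : ∀ w i, E (w ++ [i]) = κ i + m * E w)
    (h2 : ∀ i, 0 < κ i) (h3 : ∀ i, κ i < m) (h4 : Function.Injective κ) [DecidableEq (PP P)]
    (i : Bool × Bool) (x : G0 (Option (Option Bool))) :
    JJ (pi0 q0) (mu B) (rho s) x ∈ YY (tau2 q0 s B E) ↔
    TH (Sum.inr (some i.1)) (Sum.inr none) i.2
      (JJ (pi0 q0) (mu (B * m)) (rho (s + B * κ i)) x) ∈ YY (tau2 q0 s B E) := by
  have hE := E_inj h0 h1 h2 h3 h4
  have hm : 0 < m := lt_trans (h2 i) (h3 i)
  have hmu1 : ∀ j, mu B j ≠ 0 := fun j => by cases j <;> simp [mu, hB.ne']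
  have hmu2 : ∀ j, mu (B * m) j ≠ 0 := fun j => by cases j <;> simp [mu, hB.ne', hm.ne']
  rw [JJ_mem_YY _ _ _ _ hmu1, mem_YY, TH_left, TH_right, JJ_left, JJ_right]
  have e2 : Multiplicative.ofAdd (mu (B * m) * x.right.toAdd) = 1 ↔ x.right = 1 :=
    mul_eq_zero_iff _ hmu2 x.right.toAdd
  rw [e2]
  have e3 : FreeGroup.lift (tau2 q0 s B E) (th (Sum.inr (some i.1)) (Sum.inr none) i.2
      (FreeGroup.map (cI (pi0 q0) (mu (B * m)) (rho (s + B * κ i))) x.left)) =
      FreeGroup.lift (fun y => FreeGroup.lift (tau2 q0 s B E)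
        (th (Sum.inr (some i.1)) (Sum.inr none) i.2
          (FreeGroup.of (cI (pi0 q0) (mu (B * m)) (rho (s + B * κ i)) y)))) x.left := by
    have : ((FreeGroup.lift (tau2 q0 s B E)).comp
        (th ((Sum.inr (some i.1)) : PP P) (Sum.inr none) i.2)).comp
        (FreeGroup.map (cI (pi0 q0) (mu (B * m)) (rho (s + B * κ i)))) =
        FreeGroup.lift (fun y => FreeGroup.lift (tau2 q0 s B E)
        (th (Sum.inr (some i.1)) (Sum.inr none) i.2
          (FreeGroup.of (cI (pi0 q0) (mu (B * m)) (rho (s + B * κ i)) y)))) := by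
      apply FreeGroup.ext_hom
      intro y
      rw [MonoidHom.comp_apply, MonoidHom.comp_apply, FreeGroup.map.of, FreeGroup.lift_apply_of]
    exact DFunLike.congr_fun this x.left
  rw [e3]
  have i1 : Function.Injective (FreeGroup.map (cI (pi0 q0) (mu B) (rho s))) :=
    FreeGroup.map_injective (cI_injective _ _ _ (pi0_injective q0) hmu1)
  have i2 : Function.Injective ((th ((Sum.inr (some i.1)) : PP P) (Sum.inr none) i.2).comp
      (FreeGroup.map (cI (pi0 q0) (mu (B * m)) (rho (s + B * κ i))))) :=
    (th_injective _ _ _ (by simp)).comp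
      (FreeGroup.map_injective (cI_injective _ _ _ (pi0_injective q0) hmu2))
  rw [lift_iff _ i1 (h2f E), lift_iff _ i2 (h2f E)]
  · rintro ⟨_ | _ | b, v⟩
    · rw [MonoidHom.comp_apply]
      by_cases hv : ∃ w, v = vec (E w)
      · obtain ⟨w, rfl⟩ := hv
        rw [h2f_code hE, map_mul, map_mul, map_Wb, FreeGroup.map.of]
        have c1 : cI (pi0 q0) (mu (B * m)) (rho (s + B * κ i)) (none, vec (E w)) =
            (Sum.inl q0, code s B E (w ++ [i])) := by
          rw [cI, code_eq, h1]
          simp only [mu_rho]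
          rw [show s + B * κ i + B * m * E w = s + B * (κ i + m * E w) by ring]
          rfl
        rw [c1, th_of_ne _ _ _ _ (by simp), FreeGroup.lift_apply_of, tau2_code q0 hB hE]
        have c2 : cI (pi0 q0) (mu (B * m)) (rho (s + B * κ i)) (some none, 0) =
            ((Sum.inr none : PP P), 0) := by
          simp [cI, pi0, rho]
        have c3 : ∀ b, cI (pi0 q0) (mu (B * m)) (rho (s + B * κ i)) (some (some b), 0) =
            ((Sum.inr (some b) : PP P), 0) := by
          intro b
          simp [cI, pi0, rho]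
        rw [c2, th_of_eq]
        simp only [c3]
        have c4 : th ((Sum.inr (some i.1)) : PP P) (Sum.inr none) i.2
            (Wb (fun b => ((Sum.inr (some b) : PP P), (0 : V))) w) =
            Wb (fun b => ((Sum.inr (some b) : PP P), (0 : V))) w := by
          unfold Wb
          have : (th ((Sum.inr (some i.1)) : PP P) (Sum.inr none) i.2).comp
              (FreeGroup.map (fun b => ((Sum.inr (some b) : PP P), (0 : V)))) =
              FreeGroup.map (fun b => ((Sum.inr (some b) : PP P), (0 : V))) := by
            apply FreeGroup.ext_hom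
            intro b
            rw [MonoidHom.comp_apply, FreeGroup.map.of, th_of_ne _ _ _ _ (by simp)]
          exact DFunLike.congr_fun this (FreeGroup.mk w)
        rw [c4]
        have c5 : Wb (fun b => ((Sum.inr (some b) : PP P), (0 : V))) (w ++ [i]) =
            Wb (fun b => ((Sum.inr (some b) : PP P), (0 : V))) w *
              sg i.2 (FreeGroup.of (Sum.inr (some i.1), 0)) := by
          unfold Wb
          rw [mk_append, map_mul, map_sg, FreeGroup.map.of]
        rw [c5, mul_assoc]
      · have hv' : ∀ w, v ≠ vec (E w) := fun w h => hv ⟨w, h⟩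
        rw [h2f_ne hv', FreeGroup.map.of]
        have c1 : cI (pi0 q0) (mu (B * m)) (rho (s + B * κ i)) (none, v) =
            (Sum.inl q0, mu (B * m) * v + rho (s + B * κ i) none) := rfl
        rw [c1, th_of_ne _ _ _ _ (by simp), FreeGroup.lift_apply_of, tau2_ne]
        intro w' hw'
        rw [code_eq] at hw'
        obtain ⟨h5, h6⟩ := mu_rho_eq (mul_ne_zero hB.ne' hm.ne') hw'
        have h7 : κ i + m * v true = E w' := by
          have : B * (κ i + m * v true) = B * E w' := by linarith
          exact mul_left_cancel₀ hB.ne' this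
        obtain ⟨w, _, h8⟩ := E_step h0 h1 h2 h3 h4 i _ w' h7
        exact hv' w (by rw [h5, h8])
    · have c1 : cI (pi0 q0) (mu (B * m)) (rho (s + B * κ i)) (some none, v) =
          ((Sum.inr none : PP P), mu (B * m) * v) := by
        simp [cI, pi0, rho]
      have c2 : h2f E (some none, v) = FreeGroup.of (some none, v) := rfl
      rw [c2, MonoidHom.comp_apply, FreeGroup.map.of, c1, th_of_eq, map_mul, map_sg,
        FreeGroup.lift_apply_of, FreeGroup.lift_apply_of]
      rfl
    · have c1 : cI (pi0 q0) (mu (B * m)) (rho (s + B * κ i)) (some (some b), v) =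
          ((Sum.inr (some b) : PP P), mu (B * m) * v) := by
        simp [cI, pi0, rho]
      have c2 : h2f E (some (some b), v) = FreeGroup.of (some (some b), v) := rfl
      rw [c2, MonoidHom.comp_apply, FreeGroup.map.of, c1, th_of_ne _ _ _ _ (by simp),
        FreeGroup.lift_apply_of]
      rfl
  · rintro ⟨_ | _ | b, v⟩
    · by_cases hv : ∃ w, v = vec (E w)
      · obtain ⟨w, rfl⟩ := hv
        rw [h2f_code hE, map_mul, map_Wb, FreeGroup.map.of]
        have c1 : cI (pi0 q0) (mu B) (rho s) (none, vec (E w)) =
            ((Sum.inl q0 : PP P), code s B E w) := by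
          rw [cI, code_eq]
          simp only [mu_rho]
          rfl
        rw [c1, tau2_code q0 hB hE]
        have c2 : cI (pi0 q0) (mu B) (rho s) (some none, 0) = ((Sum.inr none : PP P), 0) := by
          simp [cI, pi0, rho]
        have c3 : ∀ b, cI (pi0 q0) (mu B) (rho s) (some (some b), 0) =
            ((Sum.inr (some b) : PP P), 0) := by
          intro b
          simp [cI, pi0, rho]
        rw [c2]
        simp only [c3]
      · have hv' : ∀ w, v ≠ vec (E w) := fun w h => hv ⟨w, h⟩
        rw [h2f_ne hv', FreeGroup.map.of]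
        have c1 : cI (pi0 q0) (mu B) (rho s) (none, v) =
            (Sum.inl q0, mu B * v + rho s none) := rfl
        rw [c1, tau2_ne]
        intro w' hw'
        rw [code_eq] at hw'
        obtain ⟨h5, h6⟩ := mu_rho_eq hB.ne' hw'
        have h7 : v true = E w' := by
          have : B * v true = B * E w' := by linarith
          exact mul_left_cancel₀ hB.ne' this
        exact hv' w' (by rw [h5, h7])
    · have c1 : cI (pi0 q0) (mu B) (rho s) (some none, v) =
          ((Sum.inr none : PP P), mu B * v) := by
        simp [cI, pi0, rho]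
      have c2 : h2f E (some none, v) = FreeGroup.of (some none, v) := rfl
      rw [c2, FreeGroup.map.of, c1]
      rfl
    · have c1 : cI (pi0 q0) (mu B) (rho s) (some (some b), v) =
          ((Sum.inr (some b) : PP P), mu B * v) := by
        simp [cI, pi0, rho]
      have c2 : h2f E (some (some b), v) = FreeGroup.of (some (some b), v) := rfl
      rw [c2, FreeGroup.map.of, c1]
      rfl

end Pool.Agent.H84.W
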