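import Pool.Agent.H84.W.Ben2

set_option autoImplicit false

/-!
The finitely presented torsion-free group and its finitely generated subgroup.
-/

namespace Pool.Agent.H84.W

section

variable {P ι : Type} (D : Rules P ι) (p0 q0 : P) (s B m : ℤ) (κ : Bool × Bool → ℤ)
  (hB : 0 < B) (hm : 0 < m)

/-- The data of the first level. -/
noncomputable def D1 : HD (G0 (PP P)) :=
  HDof (ι ⊕ (Bool × Bool)) (fun p => G0 (PI p)) (jA D q0 s B) (jB D q0 s B m κ)
    (jA_injective D q0 s B hB) (jB_injective D q0 s B m κ hB hm)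

theorem D1_rel (p : ι ⊕ (Bool × Bool)) (x : G0 (PI p)) :
    HN.t (D1 D q0 s B m κ hB hm) p * HN.base (D1 D q0 s B m κ hB hm) (jA D q0 s B p x) *
      (HN.t (D1 D q0 s B m κ hB hm) p)⁻¹ =
      HN.base (D1 D q0 s B m κ hB hm) (jB D q0 s B m κ p x) :=
  HDof_rel (ι ⊕ (Bool × Bool)) (fun p => G0 (PI p)) (jA D q0 s B) (jB D q0 s B m κ)
      (jA_injective D q0 s B hB) (jB_injective D q0 s B m κ hB hm) p x

theorem D1_level (x : Bool → Subgroup (G0 (PP P))) (a b : ι ⊕ (Bool × Bool) → Bool)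
    (h : ∀ p (y : G0 (PI p)), jA D q0 s B p y ∈ x (a p) ↔ jB D q0 s B m κ p y ∈ x (b p)) :
    ∃ (Ω : Type) (act : HN (D1 D q0 s B m κ hB hm) →* Equiv.Perm Ω) (o : Bool → Ω),
      (∀ g ε, act (HN.base (D1 D q0 s B m κ hB hm) g) (o ε) = o ε ↔ g ∈ x ε) ∧
      ∀ p : ι ⊕ (Bool × Bool), act (HN.t (D1 D q0 s B m κ hB hm) p) (o (a p)) = o (b p) :=
  HDof_level (ι ⊕ (Bool × Bool)) (fun p => G0 (PI p)) (jA D q0 s B) (jB D q0 s B m κ)
      (jA_injective D q0 s B hB) (jB_injective D q0 s B m κ hB hm) x a b h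

/-- The distinguished element. -/
def zz : G0 (PP P) := lt (Sum.inl q0) (vec s) * (lt (Sum.inr none) 0)⁻¹

/-- The generators of the two subgroups. -/
noncomputable def LS (c : Bool) : Set (HN (D1 D q0 s B m κ hB hm)) :=
  match c with
  | true => {HN.base _ (lt (Sum.inl p0) 0)} ∪ Set.range fun i : ι => HN.t (D1 D q0 s B m κ hB hm) (Sum.inl i)
  | false => {HN.base _ (zz q0 s)} ∪
      Set.range fun i : Bool × Bool => HN.t (D1 D q0 s B m κ hB hm) (Sum.inr i)

/-- The two subgroups. -/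
noncomputable def LL (c : Bool) : Subgroup (HN (D1 D q0 s B m κ hB hm)) :=
  Subgroup.closure (LS D p0 q0 s B m κ hB hm c)

theorem LS_finite [Finite ι] (c : Bool) : (LS D p0 q0 s B m κ hB hm c).Finite := by
  cases c
  · exact (Set.finite_singleton _).union (Set.finite_range _)
  · exact (Set.finite_singleton _).union (Set.finite_range _)

/-- The data of the second level. -/
noncomputable def D2 : HD (HN (D1 D q0 s B m κ hB hm)) where
  I := Bool
  A c := LL D p0 q0 s B m κ hB hm c
  A' c := LL D p0 q0 s B m κ hB hm c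
  φ _ := MulEquiv.refl _

theorem D2_comm (c : Bool) (x : HN (D1 D q0 s B m κ hB hm))
    (hx : x ∈ LL D p0 q0 s B m κ hB hm c) :
    HN.t (D2 D p0 q0 s B m κ hB hm) c * HN.base (D2 D p0 q0 s B m κ hB hm) x *
      (HN.t (D2 D p0 q0 s B m κ hB hm) c)⁻¹ = HN.base (D2 D p0 q0 s B m κ hB hm) x :=
  HN.t_rel (D2 D p0 q0 s B m κ hB hm) c ⟨x, hx⟩

/-- The base group in the second level. -/
noncomputable def bb : G0 (PP P) →* HN (D2 D p0 q0 s B m κ hB hm) :=
  (HN.base (D2 D p0 q0 s B m κ hB hm)).comp (HN.base (D1 D q0 s B m κ hB hm))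

/-- The conjugates of the base group. -/
noncomputable def cb (c : Bool) : G0 (PP P) →* HN (D2 D p0 q0 s B m κ hB hm) :=
  (MulAut.conj (HN.t (D2 D p0 q0 s B m κ hB hm) c)).toMonoidHom.comp (bb D p0 q0 s B m κ hB hm)

theorem cb_apply (c : Bool) (g : G0 (PP P)) : cb D p0 q0 s B m κ hB hm c g =
    HN.t (D2 D p0 q0 s B m κ hB hm) c * bb D p0 q0 s B m κ hB hm g *
      (HN.t (D2 D p0 q0 s B m κ hB hm) c)⁻¹ := rfl

/-- The finitely generated subgroup. -/
noncomputable def LF : Subgroup (HN (D2 D p0 q0 s B m κ hB hm)) :=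
  (cb D p0 q0 s B m κ hB hm true).range ⊔ (cb D p0 q0 s B m κ hB hm false).range ⊔
    Subgroup.zpowers (bb D p0 q0 s B m κ hB hm (lt (Sum.inr none) 0))

theorem bb_mem (c : Bool) (g : G0 (PP P))
    (hg : HN.base (D1 D q0 s B m κ hB hm) g ∈ LL D p0 q0 s B m κ hB hm c) :
    bb D p0 q0 s B m κ hB hm g ∈ LF D p0 q0 s B m κ hB hm := by
  have h1 : cb D p0 q0 s B m κ hB hm c g ∈ LF D p0 q0 s B m κ hB hm := by
    cases c
    · exact Subgroup.mem_sup_left (Subgroup.mem_sup_right ⟨g, rfl⟩)
    · exact Subgroup.mem_sup_left (Subgroup.mem_sup_left ⟨g, rfl⟩)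
  rw [cb_apply] at h1
  have h2 : HN.t (D2 D p0 q0 s B m κ hB hm) c * bb D p0 q0 s B m κ hB hm g *
      (HN.t (D2 D p0 q0 s B m κ hB hm) c)⁻¹ = bb D p0 q0 s B m κ hB hm g :=
    D2_comm D p0 q0 s B m κ hB hm c _ hg
  rw [h2] at h1
  exact h1

/-- The accepted configurations. -/
theorem acc_mem {p : P} {n : V} (h : Acc D p0 p n) :
    HN.base (D1 D q0 s B m κ hB hm) (lt (Sum.inl p) n) ∈ LL D p0 q0 s B m κ hB hm true := by
  induction h with
  | base => exact Subgroup.subset_closure (Or.inl rfl)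
  | step i u _ ih =>
    have h1 := D1_rel D q0 s B m κ hB hm (Sum.inl i) (lt () u : G0 Unit)
    have e1 : jA D q0 s B (Sum.inl i) (lt () u : G0 Unit) =
        lt (Sum.inl (D.src i)) (D.m i * u + D.r i) := JJ_lt _ _ _ _ _
    have e2 : jB D q0 s B m κ (Sum.inl i) (lt () u : G0 Unit) =
        lt (Sum.inl (D.tgt i)) (D.a i * u + D.b i) := JJ_lt _ _ _ _ _
    rw [e1, e2] at h1
    have h2 : HN.t (D1 D q0 s B m κ hB hm) (Sum.inl i) ∈ LL D p0 q0 s B m κ hB hm true :=
      Subgroup.subset_closure (Or.inr ⟨i, rfl⟩)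
    have h3 : HN.base (D1 D q0 s B m κ hB hm) (lt (Sum.inl (D.src i)) (D.m i * u + D.r i)) =
        (HN.t (D1 D q0 s B m κ hB hm) (Sum.inl i))⁻¹ *
          HN.base (D1 D q0 s B m κ hB hm) (lt (Sum.inl (D.tgt i)) (D.a i * u + D.b i)) *
          HN.t (D1 D q0 s B m κ hB hm) (Sum.inl i) := by
      rw [← h1]
      group
    rw [h3]
    exact Subgroup.mul_mem _ (Subgroup.mul_mem _ (Subgroup.inv_mem _ h2) ih) h2

variable {κ} (E : List (Bool × Bool) → ℤ)

/-- The elements of the words. -/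
theorem word_mem (h0 : E [] = 0) (h1 : ∀ w i, E (w ++ [i]) = κ i + m * E w)
    (w : List (Bool × Bool)) :
    HN.base (D1 D q0 s B m κ hB hm) (lt (Sum.inl q0) (code s B E w) *
      (i0 (FreeGroup.mk w) * lt (Sum.inr none) 0)⁻¹) ∈ LL D p0 q0 s B m κ hB hm false := by
  classical
  induction w using List.reverseRecOn with
  | nil =>
    have e1 : (FreeGroup.mk ([] : List (Bool × Bool))) = 1 := rfl
    rw [code_eq, h0, mul_zero, add_zero, e1, map_one, one_mul]
    exact Subgroup.subset_closure (Or.inl rfl)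
  | append_singleton w i ih =>
    let x : G0 (Option (Option Bool)) := lt none (vec (E w)) *
      (SemidirectProduct.inl (Wb (fun b => (some (some b), 0)) w) * lt (some none) 0)⁻¹
    have h3 := D1_rel D q0 s B m κ hB hm (Sum.inr i) x
    have eW : ∀ (μ : V) (c : ℤ), JJ (pi0 q0) μ (rho c)
        (SemidirectProduct.inl (Wb (fun b => (some (some b), 0)) w)) = i0 (FreeGroup.mk w) := by
      intro μ c
      apply G0_ext
      · rw [JJ_left]
        change FreeGroup.map _ (Wb _ w) = Wb _ w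
        rw [map_Wb]
        congr 1
        funext b
        simp [cI, pi0, rho]
      · rw [JJ_right]
        change Multiplicative.ofAdd (μ * 0) = 1
        rw [mul_zero, ofAdd_zero]
    have e1 : jA D q0 s B (Sum.inr i) x = lt (Sum.inl q0) (code s B E w) *
      (i0 (FreeGroup.mk w) * lt (Sum.inr none) 0)⁻¹ := by
      change JJ (pi0 q0) (mu B) (rho s) (lt none (vec (E w)) *
        (SemidirectProduct.inl (Wb (fun b => (some (some b), 0)) w) * lt (some none) 0)⁻¹) = _
      rw [map_mul, map_inv, map_mul, eW, JJ_lt, JJ_lt, mu_rho]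
      congr 3
      simp [rho, pi0]
    have e2 : jB D q0 s B m κ (Sum.inr i) x = lt (Sum.inl q0) (code s B E (w ++ [i])) *
      (i0 (FreeGroup.mk (w ++ [i])) * lt (Sum.inr none) 0)⁻¹ := by
      have eT : TH ((Sum.inr (some i.1)) : PP P) (Sum.inr none) i.2 (i0 (FreeGroup.mk w)) =
          i0 (FreeGroup.mk w) := by
        have : (TH ((Sum.inr (some i.1)) : PP P) (Sum.inr none) i.2).comp i0 = i0 := by
          apply FreeGroup.ext_hom
          intro b
          rw [MonoidHom.comp_apply, i0_of, TH_lt_ne _ _ _ _ _ (by simp)]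
        exact DFunLike.congr_fun this (FreeGroup.mk w)
      change (TH (Sum.inr (some i.1)) (Sum.inr none) i.2) (JJ (pi0 q0) (mu (B * m))
        (rho (s + B * κ i)) (lt none (vec (E w)) *
        (SemidirectProduct.inl (Wb (fun b => (some (some b), 0)) w) * lt (some none) 0)⁻¹)) = _
      rw [map_mul, map_mul, map_inv, map_inv, map_mul, map_mul, eW, eT, JJ_lt, JJ_lt, mu_rho,
        TH_lt_ne _ _ _ _ _ (by simp [pi0])]
      have e3 : (mu (B * m) * 0 + rho (s + B * κ i) (some none) : V) = 0 := by simp [rho]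
      rw [e3]
      change lt _ _ * (i0 (FreeGroup.mk w) *
        TH ((Sum.inr (some i.1)) : PP P) (Sum.inr none) i.2 (lt (Sum.inr none) 0))⁻¹ = _
      rw [TH_lt_eq, mk_append, map_mul, map_sg, i0_of, mul_assoc (i0 _), code_eq, h1]
      rw [show s + B * κ i + B * m * E w = s + B * (κ i + m * E w) by ring]
      rfl
    rw [e1, e2] at h3
    have h4 : HN.t (D1 D q0 s B m κ hB hm) (Sum.inr i) ∈ LL D p0 q0 s B m κ hB hm false :=
      Subgroup.subset_closure (Or.inr ⟨i, rfl⟩)
    rw [← h3]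
    exact Subgroup.mul_mem _ (Subgroup.mul_mem _ h4 ih) (Subgroup.inv_mem _ h4)

end

section

variable {P ι : Type} (D : Rules P ι) (p0 q0 : P) {s B m : ℤ} {κ : Bool × Bool → ℤ}
  {E : List (Bool × Bool) → ℤ} (hB : 0 < B) (hm : 0 < m)
  (N : Subgroup (FreeGroup Bool)) [N.Normal]

theorem LL_true_le (hacc : ∀ i u, Acc D p0 (D.src i) (D.m i * u + D.r i) ↔
      Acc D p0 (D.tgt i) (D.a i * u + D.b i))
    (hcode : ∀ w, Acc D p0 q0 (code s B E w) ↔ FreeGroup.mk w ∈ N)
    (g : G0 (PP P)) (hg : HN.base (D1 D q0 s B m κ hB hm) g ∈ LL D p0 q0 s B m κ hB hm true) :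
    g ∈ YY (tau q0 s B E N) := by
  classical
  apply tau1_le D p0 q0 N hcode
  obtain ⟨Ω, act, o, h1, h2⟩ := D1_level D q0 s B m κ hB hm
    (fun ε => if ε then YY (tau1 D p0) else ⊥) (fun p => p.isLeft) (fun p => p.isLeft) (by
      rintro (i | i) x
      · exact compat1 D p0 hacc i x
      · simp only [Sum.isLeft_inr, Bool.false_eq_true, if_false, Subgroup.mem_bot]
        rw [map_eq_one_iff _ (jA_injective D q0 s B hB _),
          map_eq_one_iff _ (jB_injective D q0 s B m κ hB hm _)])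
  have h3 : LL D p0 q0 s B m κ hB hm true ≤
      (MulAction.stabilizer (Equiv.Perm Ω) (o true)).comap act := by
    unfold LL
    rw [Subgroup.closure_le]
    rintro _ (rfl | ⟨i, rfl⟩)
    · change act _ (o true) = o true
      rw [h1 _ true]
      simp only [if_true]
      rw [mem_YY]
      refine ⟨rfl, ?_⟩
      change FreeGroup.lift (tau1 D p0) (FreeGroup.of (Sum.inl p0, 0)) = 1
      rw [FreeGroup.lift_apply_of]
      unfold tau1
      simp only
      rw [if_pos Acc.base]
    · change act _ (o true) = o true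
      exact h2 (Sum.inl i)
  have h4 : act _ (o true) = o true := h3 hg
  rw [h1 _ true] at h4
  simpa using h4

theorem LL_false_le (h0 : E [] = 0) (h1 : ∀ w i, E (w ++ [i]) = κ i + m * E w)
    (h2 : ∀ i, 0 < κ i) (h3 : ∀ i, κ i < m) (h4 : Function.Injective κ)
    (g : G0 (PP P)) (hg : HN.base (D1 D q0 s B m κ hB hm) g ∈ LL D p0 q0 s B m κ hB hm false) :
    g ∈ YY (tau q0 s B E N) := by
  classical
  have hE := E_inj h0 h1 h2 h3 h4
  apply tau2_le q0 N
  obtain ⟨Ω, act, o, h5, h6⟩ := D1_level D q0 s B m κ hB hm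
    (fun ε => if ε then YY (tau2 q0 s B E) else ⊥) (fun p => p.isRight) (fun p => p.isRight) (by
      rintro (i | i) x
      · simp only [Sum.isRight_inl, Bool.false_eq_true, if_false, Subgroup.mem_bot]
        rw [map_eq_one_iff _ (jA_injective D q0 s B hB _),
          map_eq_one_iff _ (jB_injective D q0 s B m κ hB hm _)]
      · exact @compat2 P q0 s B m κ E hB h0 h1 h2 h3 h4 _ i x)
  have h7 : LL D p0 q0 s B m κ hB hm false ≤
      (MulAction.stabilizer (Equiv.Perm Ω) (o true)).comap act := by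
    unfold LL
    rw [Subgroup.closure_le]
    rintro _ (rfl | ⟨i, rfl⟩)
    · change act _ (o true) = o true
      rw [h5 _ true]
      simp only [if_true]
      rw [mem_YY]
      refine ⟨rfl, ?_⟩
      change FreeGroup.lift (tau2 q0 s B E)
        (FreeGroup.of (Sum.inl q0, vec s) * (FreeGroup.of (Sum.inr none, 0))⁻¹) = 1
      rw [map_mul, map_inv, FreeGroup.lift_apply_of, FreeGroup.lift_apply_of]
      have e1 : vec s = code s B E [] := by rw [code_eq, h0, mul_zero, add_zero]
      rw [e1, tau2_code q0 hB hE]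
      have e2 : tau2 q0 s B E ((Sum.inr none : PP P), 0) = FreeGroup.of (Sum.inr none, 0) := rfl
      have e3 : Wb (fun b => ((Sum.inr (some b) : PP P), (0 : V))) [] = 1 := rfl
      rw [e2, e3, one_mul, mul_inv_cancel]
    · change act _ (o true) = o true
      exact h6 (Sum.inr i)
  have h8 : act _ (o true) = o true := h7 hg
  rw [h5 _ true] at h8
  simpa using h8

/-- The intersection of the finitely generated subgroup with the base group. -/
theorem LF_le (hY : ∀ c g, HN.base (D1 D q0 s B m κ hB hm) g ∈ LL D p0 q0 s B m κ hB hm c →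
      g ∈ YY (tau q0 s B E N)) (g : G0 (PP P))
    (hg : bb D p0 q0 s B m κ hB hm g ∈ LF D p0 q0 s B m κ hB hm) : g ∈ YY (tau q0 s B E N) := by
  classical
  have hbi : Function.Injective (HN.base (D1 D q0 s B m κ hB hm)) := base_injective _ _
  obtain ⟨Ω, act, o, h1, h2⟩ := exists_level (D2 D p0 q0 s B m κ hB hm)
    (fun ε => if ε then (YY (tau q0 s B E N)).map (HN.base (D1 D q0 s B m κ hB hm))
      else (HN.base (D1 D q0 s B m κ hB hm)).range) (fun _ => false) (fun _ => true) (by
      rintro c ⟨x, hx⟩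
      change x ∈ (HN.base (D1 D q0 s B m κ hB hm)).range ↔
        x ∈ (YY (tau q0 s B E N)).map (HN.base (D1 D q0 s B m κ hB hm))
      constructor
      · rintro ⟨g, rfl⟩
        exact ⟨g, hY c g hx, rfl⟩
      · rintro ⟨g, _, rfl⟩
        exact ⟨g, rfl⟩)
  have hc : ∀ c, act (HN.t (D2 D p0 q0 s B m κ hB hm) c) (o false) = o true := h2
  have h3 : LF D p0 q0 s B m κ hB hm ≤
      (MulAction.stabilizer (Equiv.Perm Ω) (o true)).comap act := by
    have h4 : ∀ c, (cb D p0 q0 s B m κ hB hm c).range ≤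
        (MulAction.stabilizer (Equiv.Perm Ω) (o true)).comap act := by
      rintro c _ ⟨g, rfl⟩
      change act _ (o true) = o true
      rw [cb_apply, map_mul, map_mul, map_inv, Equiv.Perm.mul_apply, Equiv.Perm.mul_apply,
        ← hc c]
      have e1 : (act (HN.t (D2 D p0 q0 s B m κ hB hm) c))⁻¹
          (act (HN.t (D2 D p0 q0 s B m κ hB hm) c) (o false)) = o false :=
        (act (HN.t (D2 D p0 q0 s B m κ hB hm) c)).symm_apply_apply _
      rw [e1]
      congr 1
      change act (HN.base _ (HN.base _ g)) (o false) = o false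
      rw [h1 _ false]
      simp only [Bool.false_eq_true, if_false]
      exact ⟨g, rfl⟩
    refine sup_le (sup_le (h4 true) (h4 false)) ?_
    rw [Subgroup.zpowers_le]
    change act (HN.base _ (HN.base _ _)) (o true) = o true
    rw [h1 _ true]
    simp only [if_true]
    refine ⟨_, ?_, rfl⟩
    rw [SetLike.mem_coe, mem_YY]
    refine ⟨rfl, ?_⟩
    change FreeGroup.lift (tau q0 s B E N) (FreeGroup.of (Sum.inr none, 0)) = 1
    rw [FreeGroup.lift_apply_of]
    rfl
  have h5 : act (HN.base _ (HN.base _ g)) (o true) = o true := h3 hg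
  rw [h1 _ true] at h5
  simp only [if_true] at h5
  obtain ⟨g', hg', h6⟩ := h5
  rw [← hbi h6]
  exact hg'

end

/-- The main theorem on the embedding. -/
theorem benign (N : Subgroup (FreeGroup Bool)) [N.Normal]
    (hre : REPred fun n => ∃ w, num w = n ∧ FreeGroup.mk w ∈ N) :
    ∃ (H : Type) (_ : Group H) (i : FreeGroup Bool →* H) (L : Subgroup H),
      Group.IsFinitelyPresented H ∧ TF H ∧ Function.Injective i ∧ L.FG ∧
      ∀ f, i f ∈ L ↔ f ∈ N := by
  classical
  obtain ⟨P, ι, _, _, D, p0, q0, s, B, m, κ, E, hB, h0, h1, h2, h3, h4, hacc, hcode⟩ :=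
    exists_mach (fun w => FreeGroup.mk w ∈ N) hre
  have hcode' : ∀ w, Acc D p0 q0 (code s B E w) ↔ FreeGroup.mk w ∈ N := hcode
  have hm : 0 < m := lt_trans (h2 (true, true)) (h3 _)
  have hbi1 : Function.Injective (HN.base (D1 D q0 s B m κ hB hm)) := base_injective _ _
  have hbi2 : Function.Injective (HN.base (D2 D p0 q0 s B m κ hB hm)) := base_injective _ _
  have fp0 : Group.IsFinitelyPresented (G0 (PP P)) := G0_fp
  have fgI : ∀ p : ι ⊕ (Bool × Bool), Group.FG (G0 (PI p)) := by
    rintro (i | i)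
    · exact (G0_fg : Group.FG (G0 Unit))
    · exact (G0_fg : Group.FG (G0 (Option (Option Bool))))
  have fp1 : Group.IsFinitelyPresented (HN (D1 D q0 s B m κ hB hm)) :=
    HDof_fp (ι ⊕ (Bool × Bool)) (fun p => G0 (PI p)) _ _ _ _
  have fin2 : Finite (D2 D p0 q0 s B m κ hB hm).I := inferInstanceAs (Finite Bool)
  have fp2 : Group.IsFinitelyPresented (HN (D2 D p0 q0 s B m κ hB hm)) := by
    refine HN.fp _ fun c => ?_
    exact (Subgroup.fg_iff _).mpr ⟨_, rfl, LS_finite D p0 q0 s B m κ hB hm c⟩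
  have tf2 : TF (HN (D2 D p0 q0 s B m κ hB hm)) := HN_tf _ (HN_tf _ G0_tf)
  refine ⟨HN (D2 D p0 q0 s B m κ hB hm), inferInstance, (bb D p0 q0 s B m κ hB hm).comp i0,
    LF D p0 q0 s B m κ hB hm, fp2, tf2, (hbi2.comp hbi1).comp i0_injective, ?_, ?_⟩
  · have hc : ∀ c, ((cb D p0 q0 s B m κ hB hm c).range).FG := by
      intro c
      have : Group.FG (G0 (PP P)) := G0_fg
      rw [← Group.fg_iff_subgroup_fg]
      exact Group.fg_range _
    refine Subgroup.FG.sup (Subgroup.FG.sup (hc true) (hc false)) ?_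
    exact (Subgroup.fg_iff _).mpr ⟨{_}, (Subgroup.zpowers_eq_closure _).symm,
      Set.finite_singleton _⟩
  · intro f
    constructor
    · intro hf
      have hY : ∀ c g, HN.base (D1 D q0 s B m κ hB hm) g ∈ LL D p0 q0 s B m κ hB hm c →
          g ∈ YY (tau q0 s B E N) := by
        intro c g hg
        cases c
        · exact LL_false_le D p0 q0 hB hm N h0 h1 h2 h3 h4 g hg
        · exact LL_true_le D p0 q0 hB hm N hacc hcode' g hg
      have h5 := LF_le D p0 q0 hB hm N hY (i0 f) hf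
      rw [mem_YY] at h5
      have h6 : FreeGroup.lift (tau q0 s B E N)
          (FreeGroup.map (fun b => ((Sum.inr (some b) : PP P), (0 : V))) f) = 1 := h5.2
      have h7 : (FreeGroup.lift (tau q0 s B E N)).comp
          (FreeGroup.map (fun b => ((Sum.inr (some b) : PP P), (0 : V)))) =
          QuotientGroup.mk' N := by
        apply FreeGroup.ext_hom
        intro b
        simp only [MonoidHom.comp_apply, FreeGroup.map.of, FreeGroup.lift_apply_of]
        rfl
      have h8 := DFunLike.congr_fun h7 f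
      rw [MonoidHom.comp_apply, h6] at h8
      exact (QuotientGroup.eq_one_iff _).mp h8.symm
    · intro hf
      obtain ⟨w, rfl⟩ : ∃ w, FreeGroup.mk w = f := Quot.exists_rep f
      have h5 := bb_mem D p0 q0 s B m κ hB hm true _
        (acc_mem D p0 q0 s B m κ hB hm ((hcode' w).mpr hf))
      have h6 := bb_mem D p0 q0 s B m κ hB hm false _
        (word_mem D p0 q0 s B m hB hm E h0 h1 w)
      have h7 : bb D p0 q0 s B m κ hB hm (lt (Sum.inr none) 0) ∈ LF D p0 q0 s B m κ hB hm :=
        Subgroup.mem_sup_right (Subgroup.mem_zpowers _)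
      rw [MonoidHom.comp_apply]
      have h8 : i0 (FreeGroup.mk w) = (lt (Sum.inl q0) (code s B E w) *
          (i0 (FreeGroup.mk w) * lt (Sum.inr none) 0)⁻¹)⁻¹ *
          lt (Sum.inl q0) (code s B E w) * (lt (Sum.inr none) 0 : G0 (PP P))⁻¹ := by
        group
      rw [h8, map_mul, map_mul, map_inv, map_inv]
      exact Subgroup.mul_mem _ (Subgroup.mul_mem _ (Subgroup.inv_mem _ h6) h5)
        (Subgroup.inv_mem _ h7)

end Pool.Agent.H84.W
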