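import Pool.Agent.H84.W.Cone

set_option autoImplicit false

/-!
In a class of groups which is closed under cones, for example the groups of finite type, the
isomorphism conjecture is equivalent to its special case for the acyclic groups of the class.
-/

namespace Pool.Agent.H84.W.ClassCone

open Pool.Agent.H84.W

/-- A class of countable groups is closed under cones: every group `G` of the class has Kan-Thurston
data `f : A → G`, `i : A → Q` such that the amalgamated product of `G × Q` and `Q` over `A`, with the
homomorphisms `(f, i)` and `i`, is in the class. -/
def ConeClosed (E : ℤ → GrpFun) (K C : GClass) : Prop :=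
  ∀ (G : Type) [Group G], C G → Countable G ∧ ∃ D : KT E K G, C (ConeAm D.i D.f)

/-- Let the homology theory `E` have Mayer-Vietoris sequences, let the assembly map `T` be an
isomorphism for the groups of a class `K` which contains the trivial group, with exact sequences for
amalgamated products over groups of `K`, and let the homomorphisms which induce isomorphisms for `E`
induce isomorphisms for `H`. Let `𝒢` be a class of countable groups which is closed under cones. Then,
for every `n`, `T` is surjective in degree `n + 1` and injective in degree `n` for all groups of `𝒢` if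
and only if `L (n + 1) 1 → L (n + 1) C` is surjective for all groups `C` of `𝒢` with the homology of the
trivial group. -/
theorem result (E : ℤ → GrpFun) (K : GClass) (T : Assembly) (hE : HasMayerVietoris E)
    (hU : K Unit) (hb : ∀ (A : Type) [Group A], K A → ∀ n, T.Inj n A ∧ T.Surj n A)
    (hH : ∀ (P P' : Type) [Group P] [Group P'] (g : P →* P'), EqE E g → EqE T.H g)
    (hT : T.AmAdm K) (𝒢 : GClass) (h𝒢 : ConeClosed E K 𝒢) (n : ℤ) :
    (∀ (G : Type) [Group G], 𝒢 G → T.Surj (n + 1) G ∧ T.Inj n G) ↔
      ∀ (C : Type) [Group C], 𝒢 C → EqE E (1 : Unit →* C) →
        Function.Surjective ((T.L (n + 1)).map (1 : Unit →* C)) := by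
  refine ⟨fun h C _ hC hC' => T.unit_surj (n + 1) (hH _ _ _ hC' _).2 (h C hC).1,
    fun h G _ hG => ?_⟩
  obtain ⟨h1, D, h2⟩ := h𝒢 G hG
  exact T.descent_cone hb hU hH hT hE n D (h _ h2 (coneAm_acyclic hE D))

end Pool.Agent.H84.W.ClassCone
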