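import Pool.Agent.H84.W.AsmDef
import Pool.Agent.H84.W.AmDef

set_option autoImplicit false

/-!
Homology theories, classes of groups with Kan-Thurston data, and exact sequences for HNN extensions
and amalgamated products over the groups of a class.
-/

namespace Pool.Agent.H84.W

/-- A class of groups. -/
abbrev GClass : Type 1 := (G : Type) → [Group G] → Prop

/-- The homomorphism `f` induces isomorphisms for the theory `E`. -/
def EqE (E : ℤ → GrpFun) {G K : Type} [Group G] [Group K] (f : G →* K) : Prop :=
  ∀ n, Function.Bijective ((E n).map f)

/-- The homomorphism `E A → E B × E C`, `x ↦ (i x, - j x)`. -/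
def GrpFun.minus (E : GrpFun) {A B C : Type} [Group A] [Group B] [Group C] (i : A →* B)
    (j : A →* C) : E.obj A →+ E.obj B × E.obj C :=
  (E.map i).prod (-(E.map j))

/-- The homomorphism `E B × E C → E G`, `(x, y) ↦ k x + l y`. -/
def GrpFun.plus (E : GrpFun) {B C G : Type} [Group B] [Group C] [Group G] (k : B →* G)
    (l : C →* G) : E.obj B × E.obj C →+ E.obj G :=
  (E.map k).coprod (E.map l)

/-- The sequence `E' B × E' C → E' G → E A → E B × E C → E G` of a commutative square `i, j, k, l` is
exact at `E A` and `E B × E C`, and the first two homomorphisms have composition zero. -/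
structure GrpFun.SqRight (E' E : GrpFun) {A B C G : Type} [Group A] [Group B] [Group C] [Group G]
    (i : A →* B) (j : A →* C) (k : B →* G) (l : C →* G) (d : E'.obj G → E.obj A) : Prop where
  zero : ∀ y, d (E'.plus k l y) = 0
  exactA : Function.Exact d (E.minus i j)
  exactB : Function.Exact (E.minus i j) (E.plus k l)

/-- For all `n`, the sequence `E (n+1) B × E (n+1) C → E (n+1) G → E n A → E n B × E n C → E n G` of
a square is exact at the three inner places. -/
def SqExact (E : ℤ → GrpFun) {A B C G : Type} [Group A] [Group B] [Group C] [Group G]
    (i : A →* B) (j : A →* C) (k : B →* G) (l : C →* G) : Prop :=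
  ∀ n : ℤ, ∃ d : (E (n + 1)).obj G →+ (E n).obj A,
    Function.Exact ((E (n + 1)).plus k l) d ∧ (E (n + 1)).SqRight (E n) i j k l d

/-- The Mayer-Vietoris sequences of the theory `E` for the amalgamated product `G = B *_A C`. -/
def MayerVietoris (E : ℤ → GrpFun) {A B C : Type} [Group A] [Group B] [Group C]
    (i : A →* B) (j : A →* C) : Prop :=
  SqExact E i j (Am.inl i j) (Am.inr i j)

/-- The exact sequences of a square for an assembly map: for all `n`, the sequence
`H (n+1) B × H (n+1) C → H (n+1) G → H n A → H n B × H n C → H n G` is exact at the three inner
places, the same sequence for `L` is exact at `L n A` and `L n B × L n C`, with the composition of the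
first two homomorphisms zero, and the assembly maps commute with the connecting homomorphisms. -/
def Assembly.SqExact (T : Assembly) {A B C G : Type} [Group A] [Group B] [Group C] [Group G]
    (i : A →* B) (j : A →* C) (k : B →* G) (l : C →* G) : Prop :=
  ∀ n : ℤ, ∃ c : T.Connecting A G n,
    Function.Exact ((T.H (n + 1)).plus k l) c.dH ∧
    (T.H (n + 1)).SqRight (T.H n) i j k l c.dH ∧
    (T.L (n + 1)).SqRight (T.L n) i j k l c.dL

/-- The exact sequences of an amalgamated product for an assembly map. -/
def Assembly.AmExact (T : Assembly) {A B C : Type} [Group A] [Group B] [Group C]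
    (i : A →* B) (j : A →* C) : Prop :=
  T.SqExact i j (Am.inl i j) (Am.inr i j)

/-- Kan-Thurston data for `G`: a group `A` of the class `K` with a homomorphism `f : A → G` which
induces isomorphisms in homology, and an injective homomorphism of `A` to a torsion-free group `Q`
which is acyclic. -/
structure KT (E : ℤ → GrpFun) (K : GClass) (G : Type) [Group G] where
  /-- the group with the homology of `G` -/
  A : Type
  /-- the acyclic group -/
  Q : Type
  [grpA : Group A]
  [grpQ : Group Q]
  [ctbQ : Countable Q]
  /-- the inclusion -/
  i : A →* Q
  /-- the homomorphism to `G` -/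
  f : A →* G
  inj : Function.Injective i
  tf : TF Q
  mem : K A
  iso : EqE E f
  acyclic : ∀ (P : Type) [Group P], EqE E (MonoidHom.fst P Q)

attribute [instance] KT.grpA KT.grpQ KT.ctbQ

/-- The properties of the homology theory `E` and the class `K` of groups. -/
structure GoodClass (E : ℤ → GrpFun) (K : GClass) : Prop where
  /-- the class is closed under isomorphism -/
  iso : ∀ (A A' : Type) [Group A] [Group A'], (A ≃* A') → K A → K A'
  /-- the class contains the countable groups with a free normal subgroup and a free quotient -/
  freeByFree : ∀ (A : Type) [Group A] [Countable A], FreeByFree A → K A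
  /-- the theorem of Kan and Thurston, with groups of the class `K` -/
  kanThurston : ∀ (G : Type) [Group G] [Countable G], TF G → Nonempty (KT E K G)

/-- The theory `E` has Mayer-Vietoris sequences for all amalgamated products. -/
def HasMayerVietoris (E : ℤ → GrpFun) : Prop :=
  ∀ (A B C : Type) [Group A] [Group B] [Group C] (i : A →* B) (j : A →* C),
    Function.Injective i → Function.Injective j → MayerVietoris E i j

/-- The exact sequences of amalgamated products of countable groups over groups of the class. -/
def Assembly.AmAdm (T : Assembly) (K : GClass) : Prop :=
  ∀ (A B C : Type) [Group A] [Group B] [Group C] [Countable B] [Countable C]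
    (i : A →* B) (j : A →* C), Function.Injective i → Function.Injective j → K A →
    T.AmExact i j

/-- The properties of assembly maps which are used. -/
structure Assembly.Adm (T : Assembly) (E : ℤ → GrpFun) (K : GClass) : Prop where
  /-- source and target commute with directed colimits -/
  finitary : ∀ n, (T.H n).Finitary ∧ (T.L n).Finitary
  /-- homomorphisms which induce isomorphisms for `E` induce isomorphisms for `H` -/
  homology : ∀ (P P' : Type) [Group P] [Group P'] (g : P →* P'), EqE E g → EqE T.H g
  /-- the assembly maps are isomorphisms for the groups of the class -/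
  bijective : ∀ (A : Type) [Group A], K A → ∀ n, T.Inj n A ∧ T.Surj n A
  /-- exact sequences for HNN extensions with associated subgroups of the class -/
  hnn : ∀ (B : Type) [Group B] [Countable B] (A A' : Subgroup B) (φ : A ≃* A'),
    K A → T.HnnExact A A' φ

end Pool.Agent.H84.W
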