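import Pool.Agent.H84.W.Asm
import Pool.Agent.H84.W.Am
import Pool.Agent.H84.W.ConeDef

set_option autoImplicit false

/-!
Cones: for a group `G`, a group `A` with the homology of `G` and an acyclic group `Q` which contains
`A`, the HNN extension of `G × Q` which identifies the graph of `A → G` with `A`, and the amalgamated
product of `G × Q` and `Q` over `A`, which is acyclic.
-/

namespace Pool.Agent.H84.W

theorem Assembly.Adm.admissible {T : Assembly} {E : ℤ → GrpFun} {K : GClass}
    (hK : GoodClass E K) (hT : T.Adm E K) : T.Admissible where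
  finitary := hT.finitary
  bijective A _ _ h := hT.bijective A (hK.freeByFree A h)
  exact B _ _ A A' φ h := by
    have : Countable A := inferInstance
    exact hT.hnn B A A' φ (hK.freeByFree A h)

/-! ### The cone as an HNN extension -/

section

variable {A Q G : Type} [Group A] [Group Q] [Group G] (i : A →* Q) (f : A →* G)

theorem graph_injective (hi : Function.Injective i) : Function.Injective (f.prod i) := by
  intro a b h
  exact hi (congrArg Prod.snd h)

/-- The isomorphism of the graph of `f` with `A`. -/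
noncomputable def coneIso (hi : Function.Injective i) :
    (f.prod i).range ≃* ((1 : A →* G).prod i).range :=
  (MonoidHom.ofInjective (graph_injective i f hi)).symm.trans
    (MonoidHom.ofInjective (graph_injective i 1 hi))

theorem coneIso_apply (hi : Function.Injective i) (a : A) :
    (coneIso i f hi (MonoidHom.ofInjective (graph_injective i f hi) a) : G × Q) = (1, i a) := by
  unfold coneIso
  rw [MulEquiv.trans_apply, MulEquiv.symm_apply_apply]
  rfl

/-- The HNN extension of `G × Q` whose stable letter conjugates `(f a, i a)` to `(1, i a)`. -/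
abbrev ConeHnn (hi : Function.Injective i) : Type :=
  HNNExtension (G × Q) (f.prod i).range ((1 : A →* G).prod i).range (coneIso i f hi)

variable (T : Assembly)

/-- The cone trick: injectivity in degree `n` for `G` follows from surjectivity in degree `n + 1`
for the HNN extension. -/
theorem cone_inj (n : ℤ) (hi : Function.Injective i)
    (hA : ∀ n, T.Inj n A ∧ T.Surj n A) (h1 : T.Inj n Unit)
    (hf : Function.Surjective ((T.H n).map f))
    (hQ : Function.Injective ((T.H n).map (MonoidHom.fst G Q)))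
    (hE : T.HnnExact (f.prod i).range ((1 : A →* G).prod i).range (coneIso i f hi))
    (hS : T.Surj (n + 1) (ConeHnn i f hi)) : T.Inj n G := by
  unfold Assembly.Inj
  rw [injective_iff_map_eq_zero]
  intro x hx
  obtain ⟨y, rfl⟩ := hf x
  -- the image of `y` in the trivial group is zero
  let e : A →* Unit := 1
  have hy : (T.H n).map e y = 0 := by
    apply h1
    rw [← T.nat, map_zero]
    have h2 : e = (1 : G →* Unit).comp f := by
      ext
    rw [h2, GrpFun.map_comp_apply, T.nat, hx, map_zero]
  let ι := MonoidHom.ofInjective (graph_injective i f hi)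
  let z := (T.H n).map ι.toMonoidHom y
  have hd : ∀ (F : GrpFun) (w : F.obj A),
      F.diff (f.prod i).range.subtype
        (((1 : A →* G).prod i).range.subtype.comp (coneIso i f hi).toMonoidHom)
        (F.map ι.toMonoidHom w) = F.map (f.prod i) w - F.map ((1 : A →* G).prod i) w := by
    intro F w
    unfold GrpFun.diff
    rw [← GrpFun.map_comp_apply, ← GrpFun.map_comp_apply]
    have e5 : (((1 : A →* G).prod i).range.subtype.comp (coneIso i f hi).toMonoidHom).comp
        ι.toMonoidHom = (1 : A →* G).prod i := MonoidHom.ext (fun a => coneIso_apply i f hi a)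
    have e6 : (f.prod i).range.subtype.comp ι.toMonoidHom = f.prod i :=
      MonoidHom.ext (fun a => rfl)
    rw [e5, e6]
  -- the difference is `s x`
  have hs : (T.H n).map (f.prod i) y - (T.H n).map ((1 : A →* G).prod i) y =
      (T.H n).map (MonoidHom.inl G Q) ((T.H n).map f y) := by
    apply hQ
    rw [map_sub, ← GrpFun.map_comp_apply, ← GrpFun.map_comp_apply, (T.H n).map_retr]
    have e1 : (MonoidHom.fst G Q).comp (f.prod i) = f := by
      ext a
      rfl
    have e2 : (MonoidHom.fst G Q).comp ((1 : A →* G).prod i) = (1 : Unit →* G).comp e := by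
      ext a
      rfl
    · rw [e1, e2, GrpFun.map_comp_apply, hy, map_zero, sub_zero]
    · intro g
      rfl
  have hAr : ∀ n, T.Inj n (f.prod i).range := fun n =>
    T.inj_retr n ι.symm.toMonoidHom ι.toMonoidHom (fun x => ι.apply_symm_apply x) (hA n).1
  obtain ⟨c, e2, e3, e4⟩ := hE n
  have hα : (T.L n).diff (f.prod i).range.subtype
        (((1 : A →* G).prod i).range.subtype.comp (coneIso i f hi).toMonoidHom)
        (T.α n _ z) = 0 := by
    rw [← T.diff_nat, hd, hs, ← T.nat, hx, map_zero]
  obtain ⟨l, hl⟩ := (e4.exactA _).mp hα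
  obtain ⟨h, rfl⟩ := hS l
  rw [← c.comm] at hl
  have h2 : c.dH h = z := hAr n hl
  have h3 : (T.H n).diff (f.prod i).range.subtype
        (((1 : A →* G).prod i).range.subtype.comp (coneIso i f hi).toMonoidHom) z = 0 := by
    rw [← h2]
    exact (e3.exactA _).mpr ⟨h, rfl⟩
  rw [hd, hs] at h3
  have h4 := congrArg ((T.H n).map (MonoidHom.fst G Q)) h3
  rw [map_zero, (T.H n).map_retr] at h4
  · exact h4
  · intro g
    rfl

end

/-! ### The cone as an amalgamated product -/

theorem EqE.comp {E : ℤ → GrpFun} {G K L : Type} [Group G] [Group K] [Group L] {g : K →* L}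
    {f : G →* K} (hg : EqE E g) (hf : EqE E f) : EqE E (g.comp f) := by
  intro n
  rw [(E n).map_comp]
  exact (hg n).comp (hf n)

theorem EqE.of_comp {E : ℤ → GrpFun} {G K L : Type} [Group G] [Group K] [Group L] {g : K →* L}
    {f : G →* K} (hg : EqE E g) (h : EqE E (g.comp f)) : EqE E f := by
  intro n
  have h1 := h n
  rw [(E n).map_comp] at h1
  exact (Function.Bijective.of_comp_iff' (hg n) _).mp h1

theorem EqE.of_equiv {E : ℤ → GrpFun} {G K : Type} [Group G] [Group K] (e : G ≃* K) :
    EqE E e.toMonoidHom := by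
  intro n
  refine Function.bijective_iff_has_inverse.mpr ⟨(E n).map e.symm.toMonoidHom, ?_, ?_⟩
  · intro x
    exact (E n).map_retr _ _ (fun x => e.symm_apply_apply x) x
  · intro x
    exact (E n).map_retr _ _ (fun x => e.apply_symm_apply x) x

/-- For an acyclic group `Q`, the homomorphism from the trivial group is an isomorphism in
homology. -/
theorem unit_eqE {E : ℤ → GrpFun} {Q : Type} [Group Q]
    (h : EqE E (MonoidHom.fst Unit Q)) : EqE E (1 : Unit →* Q) := by
  have h1 : EqE E (MonoidHom.inl Unit Q) := by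
    refine EqE.of_comp h ?_
    have h2 : (MonoidHom.fst Unit Q).comp (MonoidHom.inl Unit Q) =
      (MulEquiv.refl Unit).toMonoidHom := rfl
    rw [h2]
    exact EqE.of_equiv _
  let e : Unit × Q ≃* Q :=
    { toFun := fun x => x.2
      invFun := fun x => (1, x)
      left_inv := fun x => rfl
      right_inv := fun x => rfl
      map_mul' := fun x y => rfl }
  have h3 : (1 : Unit →* Q) = e.toMonoidHom.comp (MonoidHom.inl Unit Q) := rfl
  rw [h3]
  exact EqE.comp (EqE.of_equiv e) h1

/-- In the amalgamated product of `B` and `C` over `A`, if `A → B` induces isomorphisms in homology,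
then so does `C → B *_A C`. -/
theorem MayerVietoris.inr {E : ℤ → GrpFun} {A B C : Type} [Group A] [Group B] [Group C]
    {i : A →* B} {j : A →* C} (h : MayerVietoris E i j) (hi : EqE E i) :
    EqE E (Am.inr i j) := by
  intro n
  constructor
  · rw [injective_iff_map_eq_zero]
    intro c hc
    obtain ⟨d, h1, h2⟩ := h n
    have h3 : (E n).plus (Am.inl i j) (Am.inr i j) (0, c) = 0 := by
      show (E n).map (Am.inl i j) 0 + (E n).map (Am.inr i j) c = 0
      rw [map_zero, zero_add, hc]
    obtain ⟨a, ha⟩ := (h2.exactB _).mp h3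
    have h4 : (E n).map i a = 0 := congrArg Prod.fst ha
    have h5 : -(E n).map j a = c := congrArg Prod.snd ha
    have h6 : a = 0 := by
      apply (hi n).1
      rw [h4, map_zero]
    rw [← h5, h6, map_zero, neg_zero]
  · intro x
    obtain ⟨m, rfl⟩ : ∃ m, n = m + 1 := ⟨n - 1, by ring⟩
    obtain ⟨d, h1, h2⟩ := h m
    have h3 : (E m).minus i j (d x) = 0 := (h2.exactA _).mpr ⟨x, rfl⟩
    have h4 : (E m).map i (d x) = 0 := congrArg Prod.fst h3
    have h5 : d x = 0 := by
      apply (hi m).1
      rw [h4, map_zero]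
    obtain ⟨⟨b, c⟩, h6⟩ := (h1 x).mp h5
    obtain ⟨a, rfl⟩ := (hi (m + 1)).2 b
    refine ⟨(E (m + 1)).map j a + c, ?_⟩
    rw [← h6]
    show _ = (E (m + 1)).map (Am.inl i j) ((E (m + 1)).map i a) + (E (m + 1)).map (Am.inr i j) c
    rw [map_add, ← GrpFun.map_comp_apply, ← GrpFun.map_comp_apply, Am.glue']

namespace Assembly

variable (T : Assembly) {A B C : Type} [Group A] [Group B] [Group C] {i : A →* B} {j : A →* C}

theorem minus_nat (n : ℤ) (x : (T.H n).obj A) :
    (T.L n).minus i j (T.α n A x) = (T.α n B ((T.H n).map i x), T.α n C (-(T.H n).map j x)) := by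
  show ((T.L n).map i (T.α n A x), -(T.L n).map j (T.α n A x)) = _
  rw [map_neg, T.nat, T.nat]

theorem surj_am (n : ℤ) (hA : ∀ n, T.Inj n A ∧ T.Surj n A) (hE : T.AmExact i j)
    (hG : T.Surj n (Am i j)) : T.Surj n B := by
  obtain ⟨m, rfl⟩ : ∃ m, n = m + 1 := ⟨n - 1, by ring⟩
  intro y
  obtain ⟨x, hx⟩ := hG ((T.L (m + 1)).map (Am.inl i j) y)
  obtain ⟨c1, e2, e3, e4⟩ := hE m
  obtain ⟨c2, f2, f3, f4⟩ := hE (m + 1)
  have h0 : (T.L (m + 1)).plus (Am.inl i j) (Am.inr i j) (y, 0) =
      (T.L (m + 1)).map (Am.inl i j) y := by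
    show (T.L (m + 1)).map (Am.inl i j) y + (T.L (m + 1)).map (Am.inr i j) 0 = _
    rw [map_zero, add_zero]
  have h1 : c1.dH x = 0 := by
    apply (hA m).1
    rw [c1.comm, hx, ← h0, e4.zero, map_zero]
  obtain ⟨⟨b1, b2⟩, hb⟩ := (e2 x).mp h1
  have hb' : (T.H (m + 1)).map (Am.inl i j) b1 + (T.H (m + 1)).map (Am.inr i j) b2 = x := hb
  have h2 : (T.L (m + 1)).plus (Am.inl i j) (Am.inr i j)
      (y - T.α (m + 1) B b1, - T.α (m + 1) C b2) = 0 := by
    show (T.L (m + 1)).map (Am.inl i j) (y - T.α (m + 1) B b1) +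
      (T.L (m + 1)).map (Am.inr i j) (- T.α (m + 1) C b2) = 0
    rw [map_sub, map_neg, T.nat, T.nat, ← hx, ← hb', map_add]
    abel
  obtain ⟨a, ha⟩ := (f4.exactB _).mp h2
  obtain ⟨c, rfl⟩ := (hA (m + 1)).2 a
  rw [T.minus_nat] at ha
  have h3 := congrArg Prod.fst ha
  refine ⟨(T.H (m + 1)).map i c + b1, ?_⟩
  change T.α (m + 1) B ((T.H (m + 1)).map i c) = y - T.α (m + 1) B b1 at h3
  rw [map_add, h3, sub_add_cancel]

theorem inj_am (n : ℤ) (hA : ∀ n, T.Inj n A ∧ T.Surj n A) (hE : T.AmExact i j)
    (hG : T.Inj n (Am i j)) (hG' : T.Surj (n + 1) (Am i j)) : T.Inj n B := by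
  obtain ⟨c, e2, e3, e4⟩ := hE n
  unfold Inj
  rw [injective_iff_map_eq_zero]
  intro b hb
  have h1 : (T.H n).plus (Am.inl i j) (Am.inr i j) (b, 0) = 0 := by
    show (T.H n).map (Am.inl i j) b + (T.H n).map (Am.inr i j) 0 = 0
    rw [map_zero, add_zero]
    apply hG
    rw [← T.nat, hb, map_zero, map_zero]
  obtain ⟨a, ha⟩ := (e3.exactB _).mp h1
  have h2 : (T.L n).minus i j (T.α n A a) = 0 := by
    rw [T.minus_nat]
    have h3 : (T.H n).map i a = b := congrArg Prod.fst ha
    have h4 : -(T.H n).map j a = 0 := congrArg Prod.snd ha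
    rw [h3, h4, hb, map_zero]
    rfl
  obtain ⟨l, hl⟩ := (e4.exactA _).mp h2
  obtain ⟨x, rfl⟩ := hG' l
  rw [← c.comm] at hl
  have h5 := (hA n).1 hl
  have h6 : (T.H n).minus i j a = 0 := by
    rw [← h5]
    exact (e3.exactA _).mpr ⟨x, rfl⟩
  have h7 : (T.H n).map i a = b := congrArg Prod.fst ha
  rw [← h7]
  exact congrArg Prod.fst h6

end Assembly

theorem GoodClass.unit {E : ℤ → GrpFun} {K : GClass} (hK : GoodClass E K) : K Unit := by
  have hinj : Function.Injective (1 : FreeGroup Empty →* Unit) := fun x y _ => Subsingleton.elim x y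
  have h1 : FreeByFree (1 : FreeGroup Empty →* Unit).range := freeByFree_range _ hinj
  have h2 : Subsingleton (1 : FreeGroup Empty →* Unit).range := inferInstance
  refine hK.iso _ Unit ?_ (hK.freeByFree _ h1)
  exact { toFun := fun _ => 1
          invFun := fun _ => 1
          left_inv := fun x => Subsingleton.elim _ _
          right_inv := fun x => rfl
          map_mul' := fun _ _ => rfl }

/-- Injectivity in degree `n` for a countable torsion-free group follows from surjectivity in degree
`n + 1` for the HNN extension. -/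
theorem Assembly.Adm.cone_inj {T : Assembly} {E : ℤ → GrpFun} {K : GClass}
    (hK : GoodClass E K) (hT : T.Adm E K) (n : ℤ) {G : Type} [Group G] [Countable G]
    (D : KT E K G) (hS : T.Surj (n + 1) (ConeHnn D.i D.f D.inj)) : T.Inj n G := by
  have hA : K (D.f.prod D.i).range :=
    hK.iso _ _ (MonoidHom.ofInjective (graph_injective D.i D.f D.inj)) D.mem
  exact Pool.Agent.H84.W.cone_inj D.i D.f T n D.inj (hT.bijective D.A D.mem)
    (hT.bijective Unit hK.unit n).1 (hT.homology _ _ D.f D.iso n).2
    (hT.homology _ _ _ (D.acyclic G) n).1 (hT.hnn _ _ _ _ hA) hS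

instance countable_TFQ (P : Type) [Group P] [Group.IsFinitelyPresented P] : Countable (TFQ P) := by
  have := countable_of_fp P
  exact (QuotientGroup.mk'_surjective (tfcl (∅ : Set P))).countable

theorem coneHnn_tf {A Q G : Type} [Group A] [Group Q] [Group G] (i : A →* Q) (f : A →* G)
    (hi : Function.Injective i) (hQ : TF Q) (hG : TF G) : TF (ConeHnn i f hi) :=
  HNN_tf _ _ _ (prod_tf hG hQ)

/-- Surjectivity in degree `n + 1` for all torsion-free groups implies injectivity in degree `n` for
all torsion-free groups. -/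
theorem Assembly.Adm.inj_of_surj {T : Assembly} {E : ℤ → GrpFun} {K : GClass}
    (hK : GoodClass E K) (hT : T.Adm E K) (n : ℤ)
    (hS : AllTF (fun G _ => T.Surj (n + 1) G)) : AllTF (fun G _ => T.Inj n G) := by
  intro G _ hG
  refine T.inj_colim n (hT.finitary n).1 (hT.finitary n).2 ?_ G hG
  intro P _ _
  obtain ⟨D⟩ := hK.kanThurston (TFQ P) (tfcl_tf ∅)
  exact hT.cone_inj hK n D (hS _ (coneHnn_tf D.i D.f D.inj D.tf (tfcl_tf ∅)))

/-- The acyclic amalgamated product. -/
abbrev ConeAm {A Q G : Type} [Group A] [Group Q] [Group G] (i : A →* Q) (f : A →* G) : Type :=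
  Am (f.prod i) i

theorem coneAm_acyclic {E : ℤ → GrpFun} {K : GClass} (hE : HasMayerVietoris E) {G : Type}
    [Group G] (D : KT E K G) : EqE E (1 : Unit →* ConeAm D.i D.f) := by
  have h1 : EqE E (D.f.prod D.i) := by
    refine EqE.of_comp (D.acyclic G) ?_
    have h2 : (MonoidHom.fst G D.Q).comp (D.f.prod D.i) = D.f := by
      ext a
      rfl
    rw [h2]
    exact D.iso
  have h3 := (hE _ _ _ _ _ (graph_injective D.i D.f D.inj) D.inj).inr h1
  have h4 : (1 : Unit →* ConeAm D.i D.f) = (Am.inr (D.f.prod D.i) D.i).comp 1 := by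
    rw [MonoidHom.comp_one]
  rw [h4]
  exact EqE.comp h3 (unit_eqE (D.acyclic Unit))

theorem coneAm_tf {E : ℤ → GrpFun} {K : GClass} {G : Type} [Group G] (hG : TF G)
    (D : KT E K G) : TF (ConeAm D.i D.f) :=
  Am.tf _ _ (graph_injective D.i D.f D.inj) D.inj (prod_tf hG D.tf) D.tf

/-- The assembly map of a group `C` is surjective if it is so for the trivial group and
`L n 1 → L n C` is surjective. -/
theorem Assembly.surj_of_unit (T : Assembly) (n : ℤ) (h1 : T.Surj n Unit) {C : Type} [Group C]
    (hS : Function.Surjective ((T.L n).map (1 : Unit →* C))) : T.Surj n C := by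
  intro y
  obtain ⟨x, rfl⟩ := hS y
  obtain ⟨z, rfl⟩ := h1 x
  exact ⟨(T.H n).map 1 z, (T.nat n _ _).symm⟩

/-- The assembly map of an acyclic group is injective if it is so for the trivial group. -/
theorem Assembly.inj_of_unit (T : Assembly) (n : ℤ) (h1 : T.Inj n Unit) {C : Type} [Group C]
    (hC : Function.Surjective ((T.H n).map (1 : Unit →* C))) : T.Inj n C := by
  unfold Assembly.Inj
  rw [injective_iff_map_eq_zero]
  intro x hx
  obtain ⟨y, rfl⟩ := hC x
  rw [← T.nat] at hx
  have h2 : T.α n Unit y = 0 := by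
    rw [← (T.L n).map_retr (1 : Unit →* C) (1 : C →* Unit) (fun x => rfl) (T.α n Unit y), hx,
      map_zero]
  have h3 : y = 0 := by
    apply h1
    rw [h2, map_zero]
  rw [h3, map_zero]

/-- For an acyclic group, surjectivity of the assembly map implies that `L n 1 → L n C` is
surjective. -/
theorem Assembly.unit_surj (T : Assembly) (n : ℤ) {C : Type} [Group C]
    (hC : Function.Surjective ((T.H n).map (1 : Unit →* C)))
    (hS : T.Surj n C) : Function.Surjective ((T.L n).map (1 : Unit →* C)) := by
  intro y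
  obtain ⟨x, rfl⟩ := hS y
  obtain ⟨z, rfl⟩ := hC x
  exact ⟨T.α n Unit z, T.nat n _ _⟩

/-- Descent from the acyclic amalgamated product to `G`. -/
theorem Assembly.descent_cone (T : Assembly) {E : ℤ → GrpFun} {K : GClass}
    (hb : ∀ (A : Type) [Group A], K A → ∀ n, T.Inj n A ∧ T.Surj n A) (hU : K Unit)
    (hH : ∀ (P P' : Type) [Group P] [Group P'] (g : P →* P'), EqE E g → EqE T.H g)
    (hT : T.AmAdm K) (hE : HasMayerVietoris E) (n : ℤ) {G : Type} [Group G] [Countable G]
    (D : KT E K G)
    (hS : Function.Surjective ((T.L (n + 1)).map (1 : Unit →* ConeAm D.i D.f))) :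
    T.Surj (n + 1) G ∧ T.Inj n G := by
  have h1 : T.Surj (n + 1) (ConeAm D.i D.f) := T.surj_of_unit (n + 1) (hb Unit hU _).2 hS
  have h2 : T.Inj n (ConeAm D.i D.f) :=
    T.inj_of_unit n (hb Unit hU _).1 (hH _ _ _ (coneAm_acyclic hE D) n).2
  have h3 := hT _ _ _ _ _ (graph_injective D.i D.f D.inj) D.inj D.mem
  exact ⟨T.surj_retr (n + 1) (MonoidHom.inl G D.Q) (MonoidHom.fst G D.Q) (fun x => rfl)
      (T.surj_am (n + 1) (hb D.A D.mem) h3 h1),
    T.inj_retr n (MonoidHom.inl G D.Q) (MonoidHom.fst G D.Q) (fun x => rfl)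
      (T.inj_am n (hb D.A D.mem) h3 h2 h1)⟩

end Pool.Agent.H84.W
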