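import Pool.Agent.H84.W.AsmDef

set_option autoImplicit false

/-!
Periodicity of assembly maps and splittings for the products `G × ℤ`.
-/

namespace Pool.Agent.H84.W

/-- Fourfold periodicity: isomorphisms `H n G ≃ H (n + 4) G` and `L n G ≃ L (n + 4) G` which commute
with the assembly maps. -/
def Assembly.Periodic (T : Assembly) : Prop :=
  ∀ (n : ℤ) (G : Type) [Group G], ∃ (a : (T.H n).obj G ≃+ (T.H (n + 4)).obj G)
    (b : (T.L n).obj G ≃+ (T.L (n + 4)).obj G), ∀ x, T.α (n + 4) G (a x) = b (T.α n G x)

/-- There are homomorphisms `H (n + 1) P → H' n G` and `L (n + 1) P → L' n G` which commute with the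
assembly maps, the second one surjective. -/
def Boundary (T T' : Assembly) (n : ℤ) (P G : Type) [Group P] [Group G] : Prop :=
  ∃ (dH : (T.H (n + 1)).obj P →+ (T'.H n).obj G) (dL : (T.L (n + 1)).obj P →+ (T'.L n).obj G),
    Function.Surjective dL ∧ ∀ x, T'.α n G (dH x) = dL (T.α (n + 1) P x)

/-- There are homomorphisms `H (n + 1) (G × ℤ) → H' n G` and `L (n + 1) (G × ℤ) → L' n G` which
commute with the assembly maps, the second one surjective. -/
def Splits (T T' : Assembly) (n : ℤ) (G : Type) [Group G] : Prop :=
  Boundary T T' n (G × Multiplicative ℤ) G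

end Pool.Agent.H84.W
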