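import Pool.Agent.H84.W.ConeDef
import Pool.Agent.H84.W.SplDef

set_option autoImplicit false

/-!
Assembly maps with decorations.
-/

namespace Pool.Agent.H84.W

/-- A change of decorations: isomorphisms of the sources and homomorphisms of the targets, which
commute with the assembly maps. -/
structure Change (T T' : Assembly) where
  /-- the isomorphisms of the sources -/
  h : (n : ℤ) → (G : Type) → [Group G] → ((T.H n).obj G ≃+ (T'.H n).obj G)
  /-- the homomorphisms of the targets -/
  l : (n : ℤ) → (G : Type) → [Group G] → ((T.L n).obj G →+ (T'.L n).obj G)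
  comm : ∀ (n : ℤ) (G : Type) [Group G] (x : (T.H n).obj G),
    l n G (T.α n G x) = T'.α n G (h n G x)

/-- The assembly maps `T 0, T 1, T 2, …` with the decorations `h, p, -1, …` and the assembly map
`Tinf` with the decoration `-∞`: every element of `L n G` with the decoration `-∞` comes from one of
the decorations `T j`. -/
structure Decorated where
  /-- the assembly maps -/
  T : ℕ → Assembly
  /-- the assembly map with the decoration `-∞` -/
  Tinf : Assembly
  /-- one step -/
  next : (j : ℕ) → Change (T j) (T (j + 1))
  /-- all steps -/
  toInf : (j : ℕ) → Change (T j) Tinf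
  compat : ∀ (j : ℕ) (n : ℤ) (G : Type) [Group G] (x : ((T j).L n).obj G),
    (toInf (j + 1)).l n G ((next j).l n G x) = (toInf j).l n G x
  exhaust : ∀ (n : ℤ) (G : Type) [Group G] (y : (Tinf.L n).obj G),
    ∃ (j : ℕ) (x : ((T j).L n).obj G), (toInf j).l n G x = y

/-- The properties of the decorated assembly maps which are used. -/
structure Decorated.Good (D : Decorated) (E : ℤ → GrpFun) (K : GClass) : Prop where
  zero : (D.T 0).Adm E K
  inf : D.Tinf.Adm E K
  periodic : ∀ j, (D.T j).Periodic
  splits : ∀ (j : ℕ) (n : ℤ) (G : Type) [Group G], TF G → Splits (D.T j) (D.T (j + 1)) n G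

end Pool.Agent.H84.W
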