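import Pool.Agent.H84.W.ConeDef
import Pool.Agent.H84.W.SplDef

set_option autoImplicit false

/-!
Whitehead groups, and classes with finitely generated acyclic groups.
-/

namespace Pool.Agent.H84.W

/-- The properties of the functor `Wh` (Whitehead groups) which are used: it commutes with directed
colimits, it vanishes for the groups of the class `K`, and for an HNN extension or an amalgamated
product of countable groups over groups of the class `K` the homomorphism from the Whitehead group of
the (first) base group is injective. -/
structure WhGood (Wh : GrpFun) (K : GClass) : Prop where
  finitary : Wh.Finitary
  zero : ∀ (A : Type) [Group A], K A → ∀ x : Wh.obj A, x = 0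
  hnn : ∀ (B : Type) [Group B] [Countable B] (A A' : Subgroup B) (φ : A ≃* A'), K A →
    Function.Injective (Wh.map (HNNExtension.of : B →* HNNExtension B A A' φ))
  am : ∀ (A B C : Type) [Group A] [Group B] [Group C] [Countable B] [Countable C]
    (i : A →* B) (j : A →* C), Function.Injective i → Function.Injective j → K A →
    Function.Injective (Wh.map (Am.inl i j))

/-- The properties `GoodClass`, where the acyclic group can be chosen finitely generated. -/
structure GoodClassFG (E : ℤ → GrpFun) (K : GClass) : Prop where
  /-- the class is closed under isomorphism -/
  iso : ∀ (A A' : Type) [Group A] [Group A'], (A ≃* A') → K A → K A'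
  /-- the class contains the countable groups with a free normal subgroup and a free quotient -/
  freeByFree : ∀ (A : Type) [Group A] [Countable A], FreeByFree A → K A
  /-- the theorem of Kan and Thurston, with groups of the class `K` and finitely generated acyclic
  groups `Q` -/
  kanThurston : ∀ (G : Type) [Group G] [Countable G], TF G → ∃ D : KT E K G, Group.FG D.Q

end Pool.Agent.H84.W
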