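import Pool.Agent.H84.W.Cone
import Pool.Agent.H84.W.DegDef
import Pool.Agent.H84.W.WhDef

set_option autoImplicit false

/-!
One degree: assembly maps with periodicity and splittings for the products `G × ℤ`.
-/

namespace Pool.Agent.H84.W

theorem Splits.surj {T T' : Assembly} {n : ℤ} {G : Type} [Group G] (h : Splits T T' n G)
    (hS : T.Surj (n + 1) (G × Multiplicative ℤ)) : T'.Surj n G := by
  obtain ⟨dH, dL, h1, h2⟩ := h
  intro y
  obtain ⟨z, rfl⟩ := h1 y
  obtain ⟨x, rfl⟩ := hS z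
  exact ⟨dH x, h2 x⟩

theorem Assembly.Periodic.surj {T : Assembly} (h : T.Periodic) (n : ℤ) (G : Type) [Group G] :
    T.Surj (n + 4) G ↔ T.Surj n G := by
  obtain ⟨a, b, h1⟩ := h n G
  constructor
  · intro hS y
    obtain ⟨x, hx⟩ := hS (b y)
    obtain ⟨z, rfl⟩ := a.surjective x
    rw [h1] at hx
    exact ⟨z, b.injective hx⟩
  · intro hS y
    obtain ⟨z, rfl⟩ := b.surjective y
    obtain ⟨x, rfl⟩ := hS z
    exact ⟨a x, h1 x⟩

theorem Assembly.Periodic.surj_add {T : Assembly} (h : T.Periodic) (n : ℤ) (G : Type) [Group G]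
    (k : ℕ) : T.Surj (n + 4 * k) G ↔ T.Surj n G := by
  induction k with
  | zero => simp
  | succ k ih =>
    rw [← ih, ← h.surj (n + 4 * k) G]
    push_cast
    rw [show n + 4 * ((k : ℤ) + 1) = n + 4 * k + 4 by ring]

theorem Assembly.Periodic.surj_of_dvd {T : Assembly} (h : T.Periodic) {m n : ℤ}
    (hmn : (4 : ℤ) ∣ m - n) (G : Type) [Group G] (hS : T.Surj m G) : T.Surj n G := by
  obtain ⟨k, hk⟩ := hmn
  rcases Int.eq_nat_or_neg k with ⟨l, rfl | rfl⟩
  · rw [show m = n + 4 * (l : ℤ) by linarith] at hS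
    exact (h.surj_add n G l).1 hS
  · have := (h.surj_add m G l).2 hS
    rwa [show m + 4 * (l : ℤ) = n by linarith] at this

theorem tf_int : TF (Multiplicative ℤ) := by
  intro g hg
  obtain ⟨n, hn, h⟩ := isOfFinOrder_iff_pow_eq_one.mp hg
  have h1 : (n : ℤ) * Multiplicative.toAdd g = 0 := by
    have := congrArg Multiplicative.toAdd h
    simpa using this
  rcases mul_eq_zero.mp h1 with h2 | h2
  · exact absurd (by exact_mod_cast h2) hn.ne'
  · exact Multiplicative.toAdd.injective h2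

theorem tf_prod_int {G : Type} [Group G] (hG : TF G) : TF (G × Multiplicative ℤ) :=
  prod_tf hG tf_int

/-! ### Decorations -/

theorem Decorated.lift (D : Decorated) (n : ℤ) (G : Type) [Group G] (j k : ℕ)
    (x : ((D.T j).L n).obj G) :
    ∃ y : ((D.T (j + k)).L n).obj G, (D.toInf (j + k)).l n G y = (D.toInf j).l n G x := by
  induction k with
  | zero => exact ⟨x, rfl⟩
  | succ k ih =>
    obtain ⟨y, hy⟩ := ih
    exact ⟨(D.next (j + k)).l n G y, (D.compat (j + k) n G y).trans hy⟩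

theorem Decorated.surj_inf (D : Decorated) (n : ℤ) (G : Type) [Group G]
    (h : ∀ j : ℕ, ∃ k : ℕ, (D.T (j + k)).Surj n G) : D.Tinf.Surj n G := by
  intro y
  obtain ⟨j, x, rfl⟩ := D.exhaust n G y
  obtain ⟨k, hk⟩ := h j
  obtain ⟨z, hz⟩ := D.lift n G j k x
  obtain ⟨w, rfl⟩ := hk z
  exact ⟨(D.toInf (j + k)).h n G w, by rw [← hz, (D.toInf (j + k)).comm]⟩

/-- Surjectivity in one degree `m` for all torsion-free groups implies surjectivity in the degree
`m - j` for the `j`-th next decoration. -/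
theorem Decorated.Good.surj_down {D : Decorated} {E : ℤ → GrpFun} {K : GClass}
    (hD : D.Good E K) (m : ℤ) (h : AllTF (fun G _ => (D.T 0).Surj m G)) (j : ℕ) :
    AllTF (fun G _ => (D.T j).Surj (m - j) G) := by
  induction j with
  | zero => simpa using h
  | succ j ih =>
    intro G _ hG
    refine (hD.splits j (m - (j + 1 : ℕ)) G hG).surj ?_
    have h1 := ih (G × Multiplicative ℤ) (tf_prod_int hG)
    have h2 : m - (j + 1 : ℕ) + 1 = m - (j : ℤ) := by push_cast; ring
    rw [h2]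
    exact h1

theorem Decorated.Good.surj_all {D : Decorated} {E : ℤ → GrpFun} {K : GClass}
    (hD : D.Good E K) (m : ℤ) (h : AllTF (fun G _ => (D.T 0).Surj m G)) (n : ℤ) :
    AllTF (fun G _ => D.Tinf.Surj n G) := by
  intro G _ hG
  refine D.surj_inf n G (fun j => ?_)
  obtain ⟨k, hk⟩ : ∃ k : ℕ, (4 : ℤ) ∣ (m - (j + k : ℕ)) - n := by
    refine ⟨((m - j - n) % 4).toNat, ?_⟩
    have h1 : 0 ≤ (m - j - n) % 4 := Int.emod_nonneg _ (by norm_num)
    push_cast
    rw [Int.toNat_of_nonneg h1]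
    omega
  exact ⟨k, (hD.periodic (j + k)).surj_of_dvd hk G (hD.surj_down m h (j + k) G hG)⟩

/-- Surjectivity in one degree for all torsion-free groups. -/
theorem Decorated.Good.main {D : Decorated} {E : ℤ → GrpFun} {K : GClass}
    (hK : GoodClass E K) (hD : D.Good E K) (m : ℤ)
    (h : AllTF (fun G _ => (D.T 0).Surj m G)) :
    AllTF (fun G _ => ∀ n, (D.T 0).Inj n G ∧ D.Tinf.Inj n G ∧ D.Tinf.Surj n G) := by
  intro G _ hG n
  have h1 : D.Tinf.Inj n G := hD.inf.inj_of_surj hK n (hD.surj_all m h (n + 1)) G hG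
  refine ⟨?_, h1, hD.surj_all m h n G hG⟩
  intro x y hxy
  apply ((D.toInf 0).h n G).injective
  apply h1
  rw [← (D.toInf 0).comm, ← (D.toInf 0).comm, hxy]

/-! ### Whitehead groups -/

/-- The zero functor. -/
def GrpFun.zero : GrpFun where
  obj _ _ := Unit
  grp _ _ := inferInstance
  map _ := 0
  map_id _ := rfl
  map_comp _ _ := rfl

/-- The zero homomorphisms to the Whitehead groups, as an assembly map in all degrees. -/
def whAsm (Wh : GrpFun) : Assembly where
  H _ := GrpFun.zero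
  L _ := Wh
  α _ _ _ := 0
  nat _ _ _ _ _ _ _ := map_zero _

theorem whAsm_surj (Wh : GrpFun) (n : ℤ) (G : Type) [Group G] :
    (whAsm Wh).Surj n G ↔ ∀ x : Wh.obj G, x = 0 :=
  ⟨fun h x => by obtain ⟨y, rfl⟩ := h x; rfl, fun h x => ⟨(), (h x).symm⟩⟩

theorem GrpFun.zero_finitary : GrpFun.zero.Finitary where
  surj G _ x := ⟨FreeGroup Empty, inferInstance, inferInstance, 1, (), rfl⟩
  inj F G _ _ _ f y _ := ⟨F, inferInstance, inferInstance, MonoidHom.id F, f, rfl, rfl⟩

theorem GrpFun.diff_zero (E : GrpFun) {A B : Type} [Group A] [Group B] (i j : A →* B) :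
    E.diff i j 0 = 0 := by
  unfold GrpFun.diff
  rw [map_zero, map_zero, sub_zero]

theorem WhGood.adm {Wh : GrpFun} {E : ℤ → GrpFun} {K : GClass} (h : WhGood Wh K) :
    (whAsm Wh).Adm E K where
  finitary n := ⟨GrpFun.zero_finitary, h.finitary⟩
  homology P P' _ _ g _ n := ⟨fun x y _ => rfl, fun x => ⟨(), rfl⟩⟩
  bijective A _ hA n := ⟨fun x y _ => rfl, (whAsm_surj Wh n A).2 (h.zero A hA)⟩
  hnn B _ _ A A' φ hA n := by
    refine ⟨⟨0, 0, fun x => rfl⟩, ?_, ⟨fun y => rfl, ?_, ?_⟩, ⟨fun y => rfl, ?_, ?_⟩⟩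
    · exact fun x => ⟨fun _ => ⟨(), rfl⟩, fun _ => rfl⟩
    · exact fun x => ⟨fun _ => ⟨(), rfl⟩, fun _ => rfl⟩
    · exact fun x => ⟨fun _ => ⟨(), rfl⟩, fun _ => rfl⟩
    · intro x
      refine ⟨fun _ => ⟨0, (h.zero A hA x).symm⟩, fun _ => ?_⟩
      have hx : x = 0 := h.zero A hA x
      rw [hx]
      exact Wh.diff_zero _ _
    · intro x
      constructor
      · intro hx
        refine ⟨0, ?_⟩
        have hx1 : Wh.map (HNNExtension.of : B →* HNNExtension B A A' φ) x =
            Wh.map (HNNExtension.of : B →* HNNExtension B A A' φ) (0 : Wh.obj B) :=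
          hx.trans (map_zero (Wh.map (HNNExtension.of : B →* HNNExtension B A A' φ))).symm
        have hx0 : (0 : Wh.obj B) = x := (h.hnn B A A' φ hA hx1).symm
        exact (Wh.diff_zero _ _).trans hx0
      · rintro ⟨y, rfl⟩
        have hy : y = 0 := h.zero A hA y
        have h5 : Wh.diff A.subtype (A'.subtype.comp φ.toMonoidHom) y = 0 := by
          rw [hy]
          exact Wh.diff_zero _ _
        show Wh.map _ (Wh.diff A.subtype (A'.subtype.comp φ.toMonoidHom) y) = 0
        rw [h5, map_zero]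

/-- Descent of surjectivity to all degrees, if the Whitehead groups vanish. -/
theorem surj_all_of_wh {T : Assembly} {Wh : GrpFun} (hP : T.Periodic)
    (hS : ∀ (n : ℤ) (G : Type) [Group G], TF G →
      (∀ x : Wh.obj (G × Multiplicative ℤ), x = 0) → Splits T T n G)
    (hW : AllTF (fun G _ => ∀ x : Wh.obj G, x = 0)) (m : ℤ)
    (h : AllTF (fun G _ => T.Surj m G)) (n : ℤ) : AllTF (fun G _ => T.Surj n G) := by
  have h1 : ∀ k : ℕ, AllTF (fun G _ => T.Surj (m - k) G) := by
    intro k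
    induction k with
    | zero => simpa using h
    | succ k ih =>
      intro G _ hG
      refine (hS (m - (k + 1 : ℕ)) G hG (hW _ (tf_prod_int hG))).surj ?_
      have h1 := ih (G × Multiplicative ℤ) (tf_prod_int hG)
      have h2 : m - (k + 1 : ℕ) + 1 = m - (k : ℤ) := by push_cast; ring
      rw [h2]
      exact h1
  intro G _ hG
  obtain ⟨k, hk⟩ : ∃ k : ℕ, (4 : ℤ) ∣ (m - k) - n := by
    refine ⟨((m - n) % 4).toNat, ?_⟩
    have h1 : 0 ≤ (m - n) % 4 := Int.emod_nonneg _ (by norm_num)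
    rw [Int.toNat_of_nonneg h1]
    omega
  exact hP.surj_of_dvd hk G (h1 k G hG)

theorem GoodClassFG.good {E : ℤ → GrpFun} {K : GClass} (h : GoodClassFG E K) : GoodClass E K where
  iso := h.iso
  freeByFree := h.freeByFree
  kanThurston G _ _ hG := ⟨(h.kanThurston G hG).choose⟩

/-- Amalgamated products of finitely generated groups are finitely generated. -/
theorem Am.fg {A B C : Type} [Group A] [Group B] [Group C] (i : A →* B) (j : A →* C)
    (hB : Group.FG B) (hC : Group.FG C) : Group.FG (Am i j) := by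
  have h1 : ((⊤ : Subgroup B).map (Am.inl i j)).FG := by
    rw [← MonoidHom.range_eq_map]
    exact (Group.fg_iff_subgroup_fg _).1 (Group.fg_range _)
  have h2 : ((⊤ : Subgroup C).map (Am.inr i j)).FG := by
    rw [← MonoidHom.range_eq_map]
    exact (Group.fg_iff_subgroup_fg _).1 (Group.fg_range _)
  have h3 : (⊤ : Subgroup B).map (Am.inl i j) ⊔ (⊤ : Subgroup C).map (Am.inr i j) = ⊤ := by
    rw [eq_top_iff]
    intro x _
    refine Am.mem_of _ (fun b => ?_) (fun c => ?_) x
    · exact Subgroup.mem_sup_left ⟨b, trivial, rfl⟩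
    · exact Subgroup.mem_sup_right ⟨c, trivial, rfl⟩
  constructor
  rw [← h3]
  exact Subgroup.FG.sup h1 h2

end Pool.Agent.H84.W
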