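import Pool.Agent.H84.W.TF

/-!
Finite presentations and torsion of HNN extensions.
-/

namespace Pool.Agent.H84.W

open Monoid

variable {B : Type} [Group B] (D : HD B)

/-- The relation of a stable letter and an element. -/
def HD.rel (p : D.I) (a : D.A p) : Coprod B (FreeGroup D.I) :=
  Coprod.inr (FreeGroup.of p) * Coprod.inl (a : B) *
    (Coprod.inr (FreeGroup.of p))⁻¹ * (Coprod.inl (D.φ p a : B))⁻¹

theorem HD.rel_mem_iff (N : Subgroup (Coprod B (FreeGroup D.I))) [N.Normal] (p : D.I) (a : D.A p) :
    D.rel p a ∈ N ↔ (MulAut.conj (QuotientGroup.mk' N (Coprod.inr (FreeGroup.of p))))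
      (QuotientGroup.mk' N (Coprod.inl (a : B))) =
      QuotientGroup.mk' N (Coprod.inl (D.φ p a : B)) := by
  rw [← QuotientGroup.eq_one_iff]
  change QuotientGroup.mk' N _ = 1 ↔ _
  rw [HD.rel, map_mul, map_inv, mul_inv_eq_one, map_mul, map_mul, map_inv, MulAut.conj_apply]

theorem HN.fp [Group.IsFinitelyPresented B] [Finite D.I] (hA : ∀ p, (D.A p).FG) :
    Group.IsFinitelyPresented (HN D) := by
  classical
  choose S hS using hA
  let R : Set (Coprod B (FreeGroup D.I)) :=
    ⋃ p : D.I, (fun a : D.A p => D.rel p a) '' {a | (a : B) ∈ S p}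
  have hR : R.Finite := by
    refine Set.finite_iUnion fun p => Set.Finite.image _ ?_
    exact Set.Finite.preimage (Subtype.val_injective.injOn) (S p).finite_toSet
  have key : Subgroup.normalClosure R = Subgroup.normalClosure D.rels := by
    apply le_antisymm
    · apply Subgroup.normalClosure_mono
      rintro r hr
      obtain ⟨p, a, _, rfl⟩ := Set.mem_iUnion.mp hr
      exact ⟨p, a, rfl⟩
    · apply Subgroup.normalClosure_le_normal
      rintro r ⟨p, a, rfl⟩
      change D.rel p a ∈ Subgroup.normalClosure R
      have h1 : ∀ b ∈ Subgroup.closure (S p : Set B), ∀ hb : b ∈ D.A p,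
          D.rel p ⟨b, hb⟩ ∈ Subgroup.normalClosure R := by
        intro b hb
        induction hb using Subgroup.closure_induction with
        | mem b hb =>
          intro hb'
          exact Subgroup.subset_normalClosure (Set.mem_iUnion.mpr ⟨p, ⟨b, hb'⟩, hb, rfl⟩)
        | one =>
          intro h
          rw [HD.rel_mem_iff]
          have e : (⟨1, h⟩ : D.A p) = 1 := rfl
          rw [e, map_one (D.φ p)]
          simp
        | mul x y hx hy ihx ihy =>
          intro h
          have hx' : x ∈ D.A p := by rw [← hS p]; exact hx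
          have hy' : y ∈ D.A p := by rw [← hS p]; exact hy
          have i1 := (HD.rel_mem_iff D _ p _).mp (ihx hx')
          have i2 := (HD.rel_mem_iff D _ p _).mp (ihy hy')
          rw [HD.rel_mem_iff]
          have e : (⟨x * y, h⟩ : D.A p) = ⟨x, hx'⟩ * ⟨y, hy'⟩ := rfl
          rw [e, map_mul (D.φ p)]
          simp only [Subgroup.coe_mul, map_mul] at i1 i2 ⊢
          rw [i1, i2]
        | inv x hx ihx =>
          intro h
          have hx' : x ∈ D.A p := by rw [← hS p]; exact hx
          have i1 := (HD.rel_mem_iff D _ p _).mp (ihx hx')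
          rw [HD.rel_mem_iff]
          have e : (⟨x⁻¹, h⟩ : D.A p) = (⟨x, hx'⟩)⁻¹ := rfl
          rw [e, map_inv (D.φ p)]
          simp only [Subgroup.coe_inv, map_inv] at i1 ⊢
          rw [i1]
      have h2 := h1 (a : B) (by rw [hS p]; exact a.2) a.2
      exact h2
  have hfin : (Subgroup.normalClosure D.rels).IsFinitelyNormallyGenerated :=
    ⟨R, hR, key⟩
  exact Group.IsFinitelyPresented.quotient _ hfin

/-- The data of a single HNN extension. -/
def single (A A' : Subgroup B) (φ : A ≃* A') : HD B where
  I := Unit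
  A _ := A
  A' _ := A'
  φ _ := φ

/-- The homomorphism to the HNN extension. -/
noncomputable def singleHom (A A' : Subgroup B) (φ : A ≃* A') :
    HN (single A A' φ) →* HNNExtension B A A' φ :=
  HN.lift (D := single A A' φ) HNNExtension.of (fun _ => HNNExtension.t) (fun p (a : A) => by
    have h := HNNExtension.t_mul_of (φ := φ) a
    rw [mul_inv_eq_iff_eq_mul]
    exact h)

theorem singleHom_base (A A' : Subgroup B) (φ : A ≃* A') (b : B) :
    singleHom A A' φ (HN.base (single A A' φ) b) = HNNExtension.of b :=
  HN.lift_base (D := single A A' φ) HNNExtension.of (fun _ => HNNExtension.t) _ b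

theorem singleHom_t (A A' : Subgroup B) (φ : A ≃* A') (p : Unit) :
    singleHom A A' φ (HN.t (single A A' φ) p) = HNNExtension.t :=
  HN.lift_t (D := single A A' φ) HNNExtension.of (fun _ => HNNExtension.t) _ p

/-- The homomorphism from the HNN extension. -/
noncomputable def singleInv (A A' : Subgroup B) (φ : A ≃* A') :
    HNNExtension B A A' φ →* HN (single A A' φ) :=
  HNNExtension.lift (HN.base (single A A' φ)) (HN.t (single A A' φ) ()) (fun a => by
    have h := HN.t_rel (single A A' φ) () a
    rw [mul_inv_eq_iff_eq_mul] at h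
    exact h)

theorem singleInv_of (A A' : Subgroup B) (φ : A ≃* A') (b : B) :
    singleInv A A' φ (HNNExtension.of b) = HN.base (single A A' φ) b :=
  HNNExtension.lift_of _ _ _ _

theorem singleInv_t (A A' : Subgroup B) (φ : A ≃* A') :
    singleInv A A' φ HNNExtension.t = HN.t (single A A' φ) () :=
  HNNExtension.lift_t _ _ _

/-- A multiple HNN extension with one stable letter is an HNN extension. -/
noncomputable def singleEquiv (A A' : Subgroup B) (φ : A ≃* A') :
    HN (single A A' φ) ≃* HNNExtension B A A' φ := by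
  refine MonoidHom.toMulEquiv (singleHom A A' φ) (singleInv A A' φ) ?_ ?_
  · apply HN.hom_ext
    · intro b
      rw [MonoidHom.comp_apply, singleHom_base, singleInv_of]
      rfl
    · intro p
      rw [MonoidHom.comp_apply, singleHom_t, singleInv_t]
      rfl
  · apply HNNExtension.hom_ext
    · ext b
      rw [MonoidHom.comp_apply, MonoidHom.comp_apply, singleInv_of, singleHom_base]
      rfl
    · rw [MonoidHom.comp_apply, singleInv_t, singleHom_t]
      rfl

theorem singleEquiv_base (A A' : Subgroup B) (φ : A ≃* A') (b : B) :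
    singleEquiv A A' φ (HN.base (single A A' φ) b) = HNNExtension.of b :=
  singleHom_base A A' φ b

theorem TF.of_injective {G H : Type} [Group G] [Group H] (f : G →* H) (hf : Function.Injective f)
    (h : TF H) : TF G := fun g hg => hf (by rw [h _ (f.isOfFinOrder hg), map_one])

theorem HN_tf (h : TF B) : TF (HN D) := tf base_injective B D h

theorem HNN_tf (A A' : Subgroup B) (φ : A ≃* A') (h : TF B) : TF (HNNExtension B A A' φ) :=
  TF.of_injective (singleEquiv A A' φ).symm.toMonoidHom (singleEquiv A A' φ).symm.injective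
    (HN_tf _ h)

theorem HNN_fp [Group.IsFinitelyPresented B] (A A' : Subgroup B) (φ : A ≃* A') (hA : A.FG) :
    Group.IsFinitelyPresented (HNNExtension B A A' φ) := by
  have : Finite (single A A' φ).I := inferInstanceAs (Finite Unit)
  have h1 := HN.fp (D := single A A' φ) (fun _ => hA)
  exact Group.IsFinitelyPresented.equiv (singleEquiv A A' φ)

theorem prod_tf {G H : Type} [Group G] [Group H] (h1 : TF G) (h2 : TF H) : TF (G × H) := by
  intro g hg
  exact Prod.ext (h1 _ ((MonoidHom.fst G H).isOfFinOrder hg))
    (h2 _ ((MonoidHom.snd G H).isOfFinOrder hg))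

/-- Direct products of finitely presented groups are finitely presented. -/
theorem prod_fp (G H : Type) [Group G] [Group H] [Group.IsFinitelyPresented G]
    [Group.IsFinitelyPresented H] : Group.IsFinitelyPresented (G × H) := by
  classical
  have fgG : Group.FG G := by
    obtain ⟨n, φ, hφ, _⟩ := ‹Group.IsFinitelyPresented G›
    exact Group.fg_of_surjective hφ
  have fgH : Group.FG H := by
    obtain ⟨n, φ, hφ, _⟩ := ‹Group.IsFinitelyPresented H›
    exact Group.fg_of_surjective hφ
  obtain ⟨S, hS, fS⟩ := Group.fg_iff.mp fgG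
  obtain ⟨T, hT, fT⟩ := Group.fg_iff.mp fgH
  let R : Set (Coprod G H) := (fun x : G × H => (Coprod.inl x.1 * Coprod.inr x.2 *
    (Coprod.inl x.1)⁻¹ * (Coprod.inr x.2)⁻¹ : Coprod G H)) ''
    (S ×ˢ T)
  have hR : R.Finite := (fS.prod fT).image _
  let N := Subgroup.normalClosure R
  let π : Coprod G H →* Coprod G H ⧸ N := QuotientGroup.mk' N
  have h1 : ∀ g ∈ S, ∀ h ∈ T, Commute (π (Coprod.inl g)) (π (Coprod.inr h)) := by
    intro g hg h hh
    have : (Coprod.inl g * Coprod.inr h * (Coprod.inl g)⁻¹ * (Coprod.inr h)⁻¹ : Coprod G H) ∈ N :=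
      Subgroup.subset_normalClosure ⟨(g, h), ⟨hg, hh⟩, rfl⟩
    have h2 : π (Coprod.inl g * Coprod.inr h * (Coprod.inl g)⁻¹ * (Coprod.inr h)⁻¹) = 1 :=
      (QuotientGroup.eq_one_iff _).mpr this
    rw [map_mul, map_inv, mul_inv_eq_one, map_mul, map_inv, mul_inv_eq_iff_eq_mul, map_mul] at h2
    exact h2
  have h2 : ∀ g ∈ S, ∀ h : H, Commute (π (Coprod.inl g)) (π (Coprod.inr h)) := by
    intro g hg h
    have hh : h ∈ Subgroup.closure T := by rw [hT]; trivial
    induction hh using Subgroup.closure_induction with
    | mem h hh => exact h1 g hg h hh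
    | one => simp
    | mul x y _ _ hx hy => rw [map_mul, map_mul]; exact hx.mul_right hy
    | inv x _ hx => rw [map_inv, map_inv]; exact hx.inv_right
  have h3 : ∀ (g : G) (h : H), Commute (π (Coprod.inl g)) (π (Coprod.inr h)) := by
    intro g h
    have hh : g ∈ Subgroup.closure S := by rw [hS]; trivial
    induction hh using Subgroup.closure_induction with
    | mem g hg => exact h2 g hg h
    | one => simp
    | mul x y _ _ hx hy => rw [map_mul, map_mul]; exact hx.mul_left hy
    | inv x _ hx => rw [map_inv, map_inv]; exact hx.inv_left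
  let q : Coprod G H →* G × H := Coprod.lift (MonoidHom.inl G H) (MonoidHom.inr G H)
  let θ : G × H →* Coprod G H ⧸ N :=
    (π.comp Coprod.inl).noncommCoprod (π.comp Coprod.inr) (fun g h => h3 g h)
  have hθ : θ.comp q = π := by
    apply Coprod.hom_ext
    · ext g
      simp [θ, q]
    · ext h
      simp [θ, q]
  refine Group.IsFinitelyPresented.of_surjective q ?_ ⟨R, hR, ?_⟩
  · rintro ⟨g, h⟩
    exact ⟨Coprod.inl g * Coprod.inr h, by simp [q]⟩
  · apply le_antisymm
    · apply Subgroup.normalClosure_le_normal
      rintro _ ⟨⟨g, h⟩, _, rfl⟩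
      rw [SetLike.mem_coe, MonoidHom.mem_ker]
      simp [q]
    · intro x hx
      rw [MonoidHom.mem_ker] at hx
      have h4 : π x = 1 := by rw [← hθ, MonoidHom.comp_apply, hx, map_one]
      exact (QuotientGroup.eq_one_iff _).mp h4

theorem fg_of_fp (F : Type) [Group F] [Group.IsFinitelyPresented F] : Group.FG F := by
  obtain ⟨n, φ, hφ, _⟩ := ‹Group.IsFinitelyPresented F›
  exact Group.fg_of_surjective hφ

theorem tf_freeGroup (α : Type) : TF (FreeGroup α) := by
  intro g hg
  exact (isOfFinOrder_iff_eq_one g).mp hg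

end Pool.Agent.H84.W
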