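import Pool.Agent.H84.W.Src

set_option autoImplicit false

/-!
Machines with affine rules whose accepted configurations encode a recursively enumerable set of
words.
-/

namespace Pool.Agent.H84.W

/-- Pairs of integers. -/
abbrev V : Type := Bool → ℤ

/-- The rules of a machine. -/
structure Rules (P ι : Type) where
  src : ι → P
  tgt : ι → P
  m : ι → V
  r : ι → V
  a : ι → V
  b : ι → V
  hm : ∀ i j, m i j ≠ 0
  ha : ∀ i j, a i j ≠ 0

/-- The configurations leading to the final one. -/
inductive Acc {P ι : Type} (D : Rules P ι) (p0 : P) : P → V → Prop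
  | base : Acc D p0 p0 0
  | step (i : ι) (u : V) : Acc D p0 (D.tgt i) (D.a i * u + D.b i) →
      Acc D p0 (D.src i) (D.m i * u + D.r i)

section Machine

open Pool.Agent.H84.W.Src

variable {Q : Type} (M : Sys Q Bool)

open Classical in
/-- The rules of the counter machine, completed by rules clearing the counters. -/
noncomputable def mrules (hpos : ∀ q r j, M.nxt q r ≠ none → 0 < M.a q r j) :
    Rules (Option Q) (Option Q × (Bool → Fin M.B)) where
  src i := i.1
  tgt i := match i.1 with
    | none => none
    | some q => M.nxt q i.2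
  m _ := fun _ => M.B
  r i := fun j => ((i.2 j : ℕ) : ℤ)
  a i := match i.1 with
    | none => 1
    | some q => if M.nxt q i.2 = none then 1 else fun j => (M.a q i.2 j : ℤ)
  b i := match i.1 with
    | none => 0
    | some q => if M.nxt q i.2 = none then 0 else fun j => (M.b q i.2 j : ℤ)
  hm _ _ := by
    have := M.hB
    simp only [ne_eq, Nat.cast_eq_zero]
    omega
  ha i j := by
    rcases i with ⟨_ | q, r⟩
    · simp
    · simp only
      split_ifs with h
      · simp
      · have := hpos q r j h
        simp only [ne_eq, Nat.cast_eq_zero]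
        omega

variable (hpos : ∀ q r j, M.nxt q r ≠ none → 0 < M.a q r j)

/-- The natural counters as integers. -/
def toV (n : Bool → ℕ) : V := fun j => n j

theorem toV_div (n : Bool → ℕ) :
    toV n = (fun _ => (M.B : ℤ)) * toV (fun j => n j / M.B) + fun j => ((M.res n j : ℕ) : ℤ) := by
  funext j
  simp only [toV, Pi.add_apply, Pi.mul_apply, Sys.res]
  have := Nat.div_add_mod (n j) M.B
  exact_mod_cast this.symm

theorem div_unique {b : ℕ} (hb : 0 < b) {u u' : ℤ} {r r' : ℕ} (hr : r < b) (hr' : r' < b)
    (h : (b : ℤ) * u + r = b * u' + r') : u = u' ∧ r = r' := by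
  have h1 : ((b : ℤ) * u + r) / b = u := by
    rw [add_comm, Int.add_mul_ediv_left _ _ (by omega), Int.ediv_eq_zero_of_lt (by omega)
      (by exact_mod_cast hr), zero_add]
  have h2 : ((b : ℤ) * u' + r') / b = u' := by
    rw [add_comm, Int.add_mul_ediv_left _ _ (by omega), Int.ediv_eq_zero_of_lt (by omega)
      (by exact_mod_cast hr'), zero_add]
  have h3 : u = u' := by rw [← h1, ← h2, h]
  subst h3
  exact ⟨rfl, by exact_mod_cast add_left_cancel h⟩

theorem rule_unique {i i' : Option Q × (Bool → Fin M.B)} {u u' : V} (h1 : i.1 = i'.1)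
    (h2 : (mrules M hpos).m i * u + (mrules M hpos).r i =
      (mrules M hpos).m i' * u' + (mrules M hpos).r i') : i = i' ∧ u = u' := by
  have key : ∀ j, u j = u' j ∧ (i.2 j : ℕ) = i'.2 j := by
    intro j
    have := congrFun h2 j
    exact div_unique M.hB (i.2 j).2 (i'.2 j).2 this
  refine ⟨?_, funext fun j => (key j).1⟩
  apply Prod.ext h1
  funext j
  exact Fin.ext (key j).2

theorem acc_cases {p : Option Q} {n : V} (h : Acc (mrules M hpos) none p n) :
    (p = none ∧ n = 0) ∨ ∃ i u, p = (mrules M hpos).src i ∧
      n = (mrules M hpos).m i * u + (mrules M hpos).r i ∧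
      Acc (mrules M hpos) none ((mrules M hpos).tgt i)
        ((mrules M hpos).a i * u + (mrules M hpos).b i) := by
  cases h with
  | base => exact Or.inl ⟨rfl, rfl⟩
  | step i u h => exact Or.inr ⟨i, u, rfl, rfl, h⟩

theorem acc_forward (i : Option Q × (Bool → Fin M.B)) (u : V)
    (h : Acc (mrules M hpos) none ((mrules M hpos).src i)
      ((mrules M hpos).m i * u + (mrules M hpos).r i)) :
    Acc (mrules M hpos) none ((mrules M hpos).tgt i)
      ((mrules M hpos).a i * u + (mrules M hpos).b i) := by
  rcases acc_cases M hpos h with ⟨h1, h2⟩ | ⟨i', u', h1, h2, h3⟩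
  · have h0 : ∀ j, u j = 0 ∧ (i.2 j : ℕ) = 0 := by
      intro j
      have := congrFun h2 j
      refine div_unique M.hB (i.2 j).2 M.hB ?_
      rw [mul_zero, Nat.cast_zero, zero_add]
      exact this
    have hu : u = 0 := funext fun j => (h0 j).1
    obtain ⟨i1, i2⟩ := i
    have h1 : i1 = none := h1
    subst h1
    subst hu
    change Acc (mrules M hpos) none none (1 * 0 + 0)
    rw [one_mul, zero_add]
    exact Acc.base
  · obtain ⟨rfl, rfl⟩ := rule_unique M hpos h1 h2
    exact h3

theorem acc_none (hB : 2 ≤ M.B) (n : Bool → ℕ) : Acc (mrules M hpos) none none (toV n) := by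
  induction hs : n false + n true using Nat.strong_induction_on generalizing n with
  | _ s ih =>
    by_cases h0 : n false + n true = 0
    · have : toV n = 0 := by
        funext j
        cases j
        · simp only [toV, Pi.zero_apply]; omega
        · simp only [toV, Pi.zero_apply]; omega
      rw [this]
      exact Acc.base
    · rw [toV_div M n]
      refine Acc.step (D := mrules M hpos) (none, M.res n) _ ?_
      change Acc (mrules M hpos) none none (1 * toV (fun j => n j / M.B) + 0)
      rw [one_mul, add_zero]
      refine ih (n false / M.B + n true / M.B) ?_ (fun j => n j / M.B) rfl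
      have key : ∀ k : ℕ, k / M.B ≤ k ∧ (k ≠ 0 → k / M.B < k) := fun k =>
        ⟨Nat.div_le_self _ _, fun hk => Nat.div_lt_self (by omega) hB⟩
      have k1 := key (n false)
      have k2 := key (n true)
      by_cases hf : n false = 0
      · have := k2.2 (by omega)
        omega
      · have := k1.2 hf
        omega

theorem acc_of_halts (hB : 2 ≤ M.B) {p : Option Q} {n : Bool → ℕ} (h : M.Halts p n) :
    Acc (mrules M hpos) none p (toV n) := by
  induction h with
  | stop n => exact acc_none M hpos hB n
  | step q n h ih =>
    rw [toV_div M n]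
    refine Acc.step (D := mrules M hpos) (some q, M.res n) _ ?_
    by_cases hn : M.nxt q (M.res n) = none
    · change Acc (mrules M hpos) none (M.nxt q (M.res n))
        ((if M.nxt q (M.res n) = none then 1 else fun j => (M.a q (M.res n) j : ℤ)) * _ +
          if M.nxt q (M.res n) = none then 0 else fun j => (M.b q (M.res n) j : ℤ))
      rw [if_pos hn, if_pos hn, hn, one_mul, add_zero]
      exact acc_none M hpos hB _
    · change Acc (mrules M hpos) none (M.nxt q (M.res n))
        ((if M.nxt q (M.res n) = none then 1 else fun j => (M.a q (M.res n) j : ℤ)) * _ +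
          if M.nxt q (M.res n) = none then 0 else fun j => (M.b q (M.res n) j : ℤ))
      rw [if_neg hn, if_neg hn]
      have e : toV (M.nn q n) = (fun j => (M.a q (M.res n) j : ℤ)) * toV (fun j => n j / M.B) +
          fun j => (M.b q (M.res n) j : ℤ) := by
        funext j
        simp [toV, Sys.nn]
      rw [← e]
      exact ih

theorem halts_of_acc {p : Option Q} {v : V} (h : Acc (mrules M hpos) none p v) :
    ∀ n : Bool → ℕ, v = toV n → M.Halts p n := by
  induction h with
  | base => intro n _; exact Sys.Halts.stop n
  | step i u _ ih =>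
    intro n hn
    obtain ⟨_ | q, ρ⟩ := i
    · exact Sys.Halts.stop n
    · rw [toV_div M n] at hn
      have h1 : ∀ j, u j = toV (fun j => n j / M.B) j ∧ (ρ j : ℕ) = M.res n j := by
        intro j
        have := congrFun hn j
        exact div_unique M.hB (ρ j).2 (M.res n j).2 this
      have hu : u = toV (fun j => n j / M.B) := funext fun j => (h1 j).1
      have hρ : ρ = M.res n := funext fun j => Fin.ext (h1 j).2
      subst hρ
      apply Sys.Halts.step
      by_cases hnx : M.nxt q (M.res n) = none
      · rw [hnx]; exact Sys.Halts.stop _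
      · apply ih
        change ((if M.nxt q (M.res n) = none then 1 else fun j => (M.a q (M.res n) j : ℤ)) * u +
          if M.nxt q (M.res n) = none then 0 else fun j => (M.b q (M.res n) j : ℤ)) = _
        rw [if_neg hnx, if_neg hnx, hu]
        funext j
        simp [toV, Sys.nn]

end Machine


section Codes

open Pool.Agent.H84.W.Src Turing Turing.PartrecToTM2

/-- The digits of a letter. -/
def blk (i : Bool × Bool) : List PartrecToTM2.Γ' :=
  [if i.2 then .bit1 else .bit0, if i.1 then .bit1 else .bit0, .bit1]

/-- The number of a word. -/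
def num : List (Bool × Bool) → ℕ
  | [] => 0
  | i :: w => 8 * num w + 4 + 2 * i.1.toNat + i.2.toNat

theorem trNat_num (w : List (Bool × Bool)) : trNat (num w) = w.flatMap blk := by
  induction w with
  | nil => simp [num, PartrecToTM2.trNat, PartrecToTM2.trNum]
  | cons i w ih =>
    obtain ⟨b1, b0⟩ := i
    have e1 : num ((b1, b0) :: w) = 8 * num w + 4 + 2 * b1.toNat + b0.toNat := rfl
    have h1 := trNat_rec (8 * num w + 3 + 2 * b1.toNat + b0.toNat)
    have h2 := trNat_rec (4 * num w + 1 + b1.toNat)
    have h3 := trNat_rec (2 * num w)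
    have e2 : 8 * num w + 3 + 2 * b1.toNat + b0.toNat + 1 = num ((b1, b0) :: w) := by
      rw [e1]; omega
    have hb1 : b1.toNat ≤ 1 := Bool.toNat_le b1
    have hb0 : b0.toNat ≤ 1 := Bool.toNat_le b0
    have e3 : (8 * num w + 3 + 2 * b1.toNat + b0.toNat + 1) / 2 = 4 * num w + 1 + b1.toNat + 1 := by
      omega
    have e4 : (4 * num w + 1 + b1.toNat + 1) / 2 = 2 * num w + 1 := by omega
    have e5 : (2 * num w + 1) / 2 = num w := by omega
    rw [e3, e2] at h1
    rw [e4] at h2
    rw [e5] at h3
    rw [h1, h2, h3, ih, List.flatMap_cons]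
    have e6 : (8 * num w + 3 + 2 * b1.toNat + b0.toNat + 1) % 2 = b0.toNat := by omega
    have e7 : (4 * num w + 1 + b1.toNat + 1) % 2 = b1.toNat := by omega
    have e8 : (2 * num w + 1) % 2 = 1 := by omega
    rw [e2] at e6
    rw [e6, e7, e8]
    cases b1 <;> cases b0 <;> rfl

/-- The interface: an affine machine which accepts the codes of the words in a recursively
enumerable set. -/
theorem exists_mach (p : List (Bool × Bool) → Prop) (hp : REPred fun n => ∃ w, num w = n ∧ p w) :
    ∃ (P ι : Type) (_ : Finite P) (_ : Finite ι) (D : Rules P ι) (p0 q0 : P) (s B m : ℤ)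
      (κ : Bool × Bool → ℤ) (E : List (Bool × Bool) → ℤ),
      0 < B ∧ E [] = 0 ∧ (∀ w i, E (w ++ [i]) = κ i + m * E w) ∧ (∀ i, 0 < κ i) ∧
      (∀ i, κ i < m) ∧ Function.Injective κ ∧
      (∀ i u, Acc D p0 (D.src i) (D.m i * u + D.r i) ↔ Acc D p0 (D.tgt i) (D.a i * u + D.b i)) ∧
      ∀ w, Acc D p0 q0 (fun j => if j then s + B * E w else 0) ↔ p w := by
  obtain ⟨Q, fQ, M, q0, s, k, hB, hpos, k0, k1, k2, hM⟩ := exists_sys _ hp
  let kl : Bool → ℕ := fun b => k (if b then .bit1 else .bit0)
  have kl_inj : Function.Injective kl := by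
    intro a b h
    have := k2 h
    cases a <;> cases b <;> simp_all
  let κ : Bool × Bool → ℕ := fun i => k .bit1 + M.B * (kl i.1 + M.B * kl i.2)
  let E : List (Bool × Bool) → ℕ := fun w => dg M.B ((w.flatMap blk).reverse.map k)
  have num_inj : Function.Injective num := by
    intro w
    induction w with
    | nil =>
      intro w' h
      cases w' with
      | nil => rfl
      | cons i w' => simp only [num] at h; omega
    | cons i w ih =>
      intro w' h
      cases w' with
      | nil => simp only [num] at h; omega
      | cons i' w' =>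
        obtain ⟨b1, b0⟩ := i
        obtain ⟨b1', b0'⟩ := i'
        simp only [num] at h
        have h1 : num w = num w' := by
          cases b1 <;> cases b0 <;> cases b1' <;> cases b0' <;> simp at h <;> omega
        have h2 := ih h1
        subst h2
        cases b1 <;> cases b0 <;> cases b1' <;> cases b0' <;> simp at h ⊢ <;> omega
  refine ⟨Option Q, Option Q × (Bool → Fin M.B), inferInstance, inferInstance, mrules M hpos, none,
    some q0, s, M.B, M.B ^ 3, fun i => κ i, fun w => E w, by exact_mod_cast (by omega : 0 < M.B),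
    by simp [E, dg], ?_, ?_, ?_, ?_, ?_, ?_⟩
  · intro w i
    have : E (w ++ [i]) = κ i + M.B ^ 3 * E w := by
      simp only [E, List.flatMap_append, List.flatMap_cons, List.flatMap_nil, List.append_nil,
        List.reverse_append, List.map_append, blk, List.reverse_cons, List.reverse_nil,
        List.nil_append, List.cons_append, List.map_cons, List.map_nil, dg, κ, kl]
      ring
    change (E (w ++ [i]) : ℤ) = κ i + (M.B : ℤ) ^ 3 * E w
    rw [this]
    push_cast
    ring
  · intro i
    have := k0 .bit1
    change (0 : ℤ) < (κ i : ℤ)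
    exact_mod_cast (by positivity : 0 < κ i)
  · intro i
    have h1 := k1 .bit1
    have h2 := k1 (if i.1 then .bit1 else .bit0)
    have h3 := k1 (if i.2 then .bit1 else .bit0)
    have : κ i < M.B ^ 3 := by
      simp only [κ, kl]
      calc k .bit1 + M.B * (k (if i.1 then .bit1 else .bit0) +
            M.B * k (if i.2 then .bit1 else .bit0))
          ≤ (M.B - 1) + M.B * ((M.B - 1) + M.B * (M.B - 1)) := by
            gcongr <;> omega
        _ < M.B ^ 3 := by
            obtain ⟨c, hc⟩ : ∃ c, M.B = c + 1 := ⟨M.B - 1, by omega⟩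
            rw [hc]
            simp only [Nat.add_sub_cancel]
            nlinarith
    change (κ i : ℤ) < (M.B : ℤ) ^ 3
    exact_mod_cast this
  · intro i i' h
    change (κ i : ℤ) = (κ i' : ℤ) at h
    have h0 : κ i = κ i' := by exact_mod_cast h
    simp only [κ, add_right_inj] at h0
    have hBp : 0 < M.B := by omega
    have h1 := Nat.eq_of_mul_eq_mul_left hBp h0
    have h2 : kl i.1 = kl i'.1 := by
      have := congrArg (· % M.B) h1
      simpa [Nat.add_mul_mod_self_left, Nat.mod_eq_of_lt (k1 _), kl] using this
    rw [h2, add_right_inj] at h1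
    have h3 := Nat.eq_of_mul_eq_mul_left hBp h1
    exact Prod.ext (kl_inj h2) (kl_inj h3)
  · intro i u
    exact ⟨acc_forward M hpos i u, Acc.step i u⟩
  · intro w
    have e1 : (fun j : Bool => if j then (s : ℤ) + M.B * E w else 0) =
        toV (ini (s + M.B * dg M.B ((trNat (num w)).reverse.map k))) := by
      funext j
      rw [trNat_num]
      cases j <;> simp [toV, ini, E]
    rw [e1]
    have h1 : M.Halts (some q0) (ini (s + M.B * dg M.B ((trNat (num w)).reverse.map k))) ↔
        Acc (mrules M hpos) none (some q0)
          (toV (ini (s + M.B * dg M.B ((trNat (num w)).reverse.map k)))) :=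
      ⟨acc_of_halts M hpos hB, fun h => halts_of_acc M hpos h _ rfl⟩
    rw [← h1, hM]
    constructor
    · rintro ⟨w', h, hw⟩
      rwa [num_inj h] at hw
    · intro h
      exact ⟨w, rfl, h⟩

end Codes

end Pool.Agent.H84.W
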