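import Pool.Agent.H84.W.Fp
import Pool.Agent.H84.W.Mach

set_option autoImplicit false

/-!
The free products of free groups and a free abelian group of rank two, and their subgroups.
-/

namespace Pool.Agent.H84.W

open Monoid

theorem aut_ext {α : Type} {e f : MulAut (FreeGroup α)}
    (h : ∀ a, e (FreeGroup.of a) = f (FreeGroup.of a)) : e = f := by
  apply MulEquiv.ext
  intro x
  exact DFunLike.congr_fun (FreeGroup.ext_hom (f := e.toMonoidHom) (g := f.toMonoidHom) h) x

section Model

variable (P : Type)

/-- Translation of the index. -/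
def tr (v : V) : P × V ≃ P × V where
  toFun x := (x.1, x.2 - v)
  invFun x := (x.1, x.2 + v)
  left_inv := by rintro ⟨p, n⟩; simp
  right_inv := by rintro ⟨p, n⟩; simp

/-- The action of translations on the free group. -/
def φ : Multiplicative V →* MulAut (FreeGroup (P × V)) where
  toFun v := FreeGroup.freeGroupCongr (tr P v.toAdd)
  map_one' := by
    apply aut_ext
    rintro ⟨p, n⟩
    simp [tr]
  map_mul' v w := by
    apply aut_ext
    rintro ⟨p, n⟩
    simp only [FreeGroup.freeGroupCongr_apply, MulAut.mul_apply, FreeGroup.map.of, tr,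
      Equiv.coe_fn_mk, toAdd_mul]
    congr 2
    abel

theorem φ_of (v : Multiplicative V) (p : P) (n : V) :
    φ P v (FreeGroup.of (p, n)) = FreeGroup.of (p, n - v.toAdd) := by
  simp [φ, tr]

/-- The free product of `P` infinite cyclic groups and a free abelian group of rank two. -/
abbrev G0 : Type := FreeGroup (P × V) ⋊[φ P] Multiplicative V

variable {P}

theorem G0_ext {x y : G0 P} (h1 : x.left = y.left) (h2 : x.right = y.right) : x = y :=
  SemidirectProduct.ext h1 h2

/-- The letters. -/
def lt (p : P) (n : V) : G0 P := SemidirectProduct.inl (FreeGroup.of (p, n))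

/-- The translations. -/
def xt (v : V) : G0 P := SemidirectProduct.inr (Multiplicative.ofAdd v)

theorem xt_lt (p : P) (n v : V) : (xt v)⁻¹ * lt p n * xt v = lt p (n + v) := by
  have := SemidirectProduct.inl_aut (φ := φ P) (Multiplicative.ofAdd (-v))
    (FreeGroup.of (p, n))
  rw [φ_of] at this
  rw [toAdd_ofAdd, sub_neg_eq_add, ofAdd_neg, map_inv, inv_inv] at this
  exact this.symm

theorem G0_closure (H : Subgroup (G0 P)) (h1 : ∀ p, lt p 0 ∈ H) (h2 : ∀ v, xt v ∈ H) (x : G0 P) :
    x ∈ H := by
  have h3 : ∀ p n, lt p n ∈ H := by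
    intro p n
    rw [← zero_add n, ← xt_lt]
    exact H.mul_mem (H.mul_mem (H.inv_mem (h2 n)) (h1 p)) (h2 n)
  have h4 : ∀ f : FreeGroup (P × V), (SemidirectProduct.inl f : G0 P) ∈ H := by
    intro f
    induction f using FreeGroup.induction_on with
    | C1 => rw [map_one]; exact H.one_mem
    | of y => exact h3 y.1 y.2
    | inv_of y ih => rw [map_inv]; exact H.inv_mem (h3 y.1 y.2)
    | mul a b ha hb => rw [map_mul]; exact H.mul_mem ha hb
  rw [← SemidirectProduct.inl_left_mul_inr_right x]
  exact H.mul_mem (h4 _) (h2 x.right.toAdd)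

/-- The unit vectors. -/
def ev (j : Bool) : V := Pi.single j 1

theorem xt_add (v w : V) : (xt (v + w) : G0 P) = xt v * xt w := by
  rw [xt, ofAdd_add, map_mul]
  rfl

theorem xt_mem (H : Subgroup (G0 P)) (h : ∀ j, xt (ev j) ∈ H) (v : V) : xt v ∈ H := by
  have h0 : ∀ j (c : ℤ), (xt (c • ev j) : G0 P) = xt (ev j) ^ c := by
    intro j c
    rw [xt, ofAdd_zsmul, map_zpow]
    rfl
  have h1 : v = v false • ev false + v true • ev true := by
    funext j
    cases j <;> simp [ev]
  rw [h1, xt_add, h0, h0]
  exact H.mul_mem (H.zpow_mem (h _) _) (H.zpow_mem (h _) _)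

/-- The generators. -/
theorem G0_gen : Subgroup.closure (Set.range (fun p : P => lt p 0) ∪
    Set.range (fun j => (xt (ev j) : G0 P))) = ⊤ := by
  rw [eq_top_iff]
  rintro x -
  refine G0_closure _ (fun p => Subgroup.subset_closure (Or.inl ⟨p, rfl⟩)) (fun v => ?_) x
  exact xt_mem _ (fun j => Subgroup.subset_closure (Or.inr ⟨j, rfl⟩)) v

theorem G0_fg [Finite P] : Group.FG (G0 P) :=
  Group.fg_iff.mpr ⟨_, G0_gen, (Set.finite_range _).union (Set.finite_range _)⟩

theorem V_fp : Group.IsFinitelyPresented (Multiplicative V) := by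
  have := prod_fp (Multiplicative ℤ) (Multiplicative ℤ)
  let e : Multiplicative ℤ × Multiplicative ℤ ≃* Multiplicative V :=
    { toFun := fun x => Multiplicative.ofAdd (fun j => if j then x.1.toAdd else x.2.toAdd)
      invFun := fun v => (Multiplicative.ofAdd (v.toAdd true), Multiplicative.ofAdd (v.toAdd false))
      left_inv := fun x => by simp
      right_inv := fun v => by
        apply Multiplicative.toAdd.injective
        funext j
        cases j <;> simp
      map_mul' := fun x y => by
        apply Multiplicative.toAdd.injective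
        funext j
        cases j <;> simp }
  exact Group.IsFinitelyPresented.equiv e

theorem G0_fp [Finite P] : Group.IsFinitelyPresented (G0 P) := by
  have := V_fp
  let i1 : FreeGroup P →* Coprod (FreeGroup P) (Multiplicative V) := Coprod.inl
  let i2 : Multiplicative V →* Coprod (FreeGroup P) (Multiplicative V) := Coprod.inr
  let f : Coprod (FreeGroup P) (Multiplicative V) →* G0 P :=
    Coprod.lift (FreeGroup.lift fun p => lt p 0) SemidirectProduct.inr
  let g : G0 P →* Coprod (FreeGroup P) (Multiplicative V) :=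
    SemidirectProduct.lift (FreeGroup.lift fun x : P × V =>
      (i2 (Multiplicative.ofAdd x.2))⁻¹ * i1 (FreeGroup.of x.1) * i2 (Multiplicative.ofAdd x.2)) i2
      (by
        intro v
        apply FreeGroup.ext_hom
        rintro ⟨p, n⟩
        simp only [MonoidHom.comp_apply, MulEquiv.coe_toMonoidHom, φ_of, FreeGroup.lift_apply_of,
          MulAut.conj_apply, ofAdd_sub, ofAdd_toAdd]
        rw [map_div]
        have hc : i2 (Multiplicative.ofAdd n) * (i2 v)⁻¹ = (i2 v)⁻¹ * i2 (Multiplicative.ofAdd n) := by
          rw [← map_inv, ← map_mul, ← map_mul, mul_comm]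
        rw [div_eq_mul_inv, mul_inv_rev, inv_inv, hc]
        have hc2 : i2 v * (i2 (Multiplicative.ofAdd n))⁻¹ = i2 v * (i2 (Multiplicative.ofAdd n))⁻¹ := rfl
        rw [← hc]
        group)
  have h1 : f.comp g = MonoidHom.id _ := by
    apply SemidirectProduct.hom_ext
    · apply FreeGroup.ext_hom
      rintro ⟨p, n⟩
      simp only [MonoidHom.comp_apply, g, SemidirectProduct.lift_inl, FreeGroup.lift_apply_of,
        map_mul, map_inv, f, i1, i2, Coprod.lift_apply_inl, Coprod.lift_apply_inr]
      have := xt_lt p 0 n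
      rw [zero_add] at this
      exact this
    · apply MonoidHom.ext
      intro v
      rw [MonoidHom.comp_apply, MonoidHom.comp_apply]
      simp only [g, SemidirectProduct.lift_inr, f, i2, Coprod.lift_apply_inr]
      rfl
  have h2 : g.comp f = MonoidHom.id _ := by
    apply Coprod.hom_ext
    · apply FreeGroup.ext_hom
      intro p
      simp only [MonoidHom.comp_apply, f, Coprod.lift_apply_inl, FreeGroup.lift_apply_of, lt, g,
        SemidirectProduct.lift_inl]
      rw [ofAdd_zero, map_one, inv_one, one_mul, mul_one]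
      rfl
    · apply MonoidHom.ext
      intro v
      rw [MonoidHom.comp_apply, MonoidHom.comp_apply]
      simp only [f, Coprod.lift_apply_inr, g, SemidirectProduct.lift_inr]
      rfl
  exact Group.IsFinitelyPresented.equiv (MonoidHom.toMulEquiv f g h2 h1)

theorem G0_tf : TF (G0 P) := by
  intro x hx
  have h1 : x.right = 1 := by
    have := (SemidirectProduct.rightHom (φ := φ P)).isOfFinOrder hx
    exact (isOfFinOrder_iff_eq_one _).mp this
  have h2 : x = SemidirectProduct.inl x.left := by
    apply G0_ext
    · rfl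
    · exact h1
  rw [h2] at hx ⊢
  have h3 : IsOfFinOrder x.left :=
    (SemidirectProduct.inl_injective.isOfFinOrder_iff (f := SemidirectProduct.inl)).mp hx
  rw [(isOfFinOrder_iff_eq_one _).mp h3, map_one]

/-! ### Affine maps -/

section JJ

variable {P' : Type} (π : P' → P) (μ : V) (ρ : P' → V)

/-- The map of the indices. -/
def cI (x : P' × V) : P × V := (π x.1, μ * x.2 + ρ x.1)

theorem cI_injective (hπ : Function.Injective π) (hμ : ∀ j, μ j ≠ 0) :
    Function.Injective (cI π μ ρ) := by
  rintro ⟨p, n⟩ ⟨p', n'⟩ h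
  have h1 : p = p' := hπ (Prod.mk.inj h).1
  subst h1
  have h2 : μ * n + ρ p = μ * n' + ρ p := (Prod.mk.inj h).2
  have h3 := add_right_cancel h2
  have h4 : n = n' := by
    funext j
    exact mul_left_cancel₀ (hμ j) (congrFun h3 j)
  rw [h4]

/-- The homomorphism of an affine map. -/
def JJ : G0 P' →* G0 P :=
  SemidirectProduct.map (FreeGroup.map (cI π μ ρ))
    (AddMonoidHom.toMultiplicative (AddMonoidHom.mulLeft μ)) (by
      intro v
      apply FreeGroup.ext_hom
      rintro ⟨p, u⟩
      simp only [MonoidHom.comp_apply, MulEquiv.coe_toMonoidHom, φ_of, FreeGroup.map.of, cI]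
      congr 2
      simp
      ring)

theorem JJ_left (x : G0 P') : (JJ π μ ρ x).left = FreeGroup.map (cI π μ ρ) x.left :=
  SemidirectProduct.map_left _ _ _ _

theorem JJ_right (x : G0 P') : (JJ π μ ρ x).right = Multiplicative.ofAdd (μ * x.right.toAdd) :=
  SemidirectProduct.map_right _ _ _ _

theorem mul_eq_zero_iff (hμ : ∀ j, μ j ≠ 0) (v : V) : μ * v = 0 ↔ v = 0 := by
  constructor
  · intro h
    funext j
    have := congrFun h j
    simp only [Pi.mul_apply, Pi.zero_apply, mul_eq_zero] at this
    exact this.resolve_left (hμ j)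
  · rintro rfl
    simp

theorem JJ_injective (hπ : Function.Injective π) (hμ : ∀ j, μ j ≠ 0) :
    Function.Injective (JJ π μ ρ) := by
  rw [injective_iff_map_eq_one]
  intro x hx
  have h1 := congrArg SemidirectProduct.left hx
  have h2 := congrArg SemidirectProduct.right hx
  rw [JJ_left] at h1
  rw [JJ_right] at h2
  have h3 : x.left = 1 := by
    apply FreeGroup.map_injective (cI_injective π μ ρ hπ hμ)
    rw [h1, map_one]
    rfl
  have h4 : x.right.toAdd = 0 := (mul_eq_zero_iff μ hμ _).mp h2
  exact G0_ext h3 h4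

end JJ

/-! ### A transvection -/

section Th

variable [DecidableEq P] (b d : P) (ε : Bool)

/-- A letter or its inverse. -/
def sg {G : Type} [Group G] (ε : Bool) (g : G) : G := if ε then g else g⁻¹

theorem map_sg {G H : Type} [Group G] [Group H] (f : G →* H) (ε : Bool) (g : G) :
    f (sg ε g) = sg ε (f g) := by
  cases ε <;> simp [sg]

theorem sg_not {G : Type} [Group G] (ε : Bool) (g : G) : sg (!ε) g = (sg ε g)⁻¹ := by
  cases ε <;> simp [sg]

/-- The transvection of the free group. -/
def th : FreeGroup (P × V) →* FreeGroup (P × V) :=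
  FreeGroup.lift fun x => if x.1 = d then sg ε (FreeGroup.of (b, x.2)) * FreeGroup.of x
    else FreeGroup.of x

theorem th_of_ne (x : P × V) (h : x.1 ≠ d) : th b d ε (FreeGroup.of x) = FreeGroup.of x := by
  rw [th, FreeGroup.lift_apply_of, if_neg h]

theorem th_of_eq (n : V) : th b d ε (FreeGroup.of (d, n)) =
    sg ε (FreeGroup.of (b, n)) * FreeGroup.of (d, n) := by
  rw [th, FreeGroup.lift_apply_of, if_pos rfl]

theorem th_th (h : b ≠ d) (x : FreeGroup (P × V)) : th b d (!ε) (th b d ε x) = x := by
  have : (th b d (!ε)).comp (th b d ε) = MonoidHom.id _ := by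
    apply FreeGroup.ext_hom
    intro x
    by_cases hx : x.1 = d
    · obtain ⟨p, n⟩ := x
      obtain rfl : p = d := hx
      rw [MonoidHom.comp_apply, th_of_eq, map_mul, map_sg, th_of_ne b p _ (b, n) h, th_of_eq,
        sg_not]
      simp
    · rw [MonoidHom.comp_apply, th_of_ne _ _ _ _ hx, th_of_ne _ _ _ _ hx]
      rfl
  exact DFunLike.congr_fun this x

theorem th_injective (h : b ≠ d) : Function.Injective (th b d ε) :=
  Function.LeftInverse.injective (th_th b d ε h)

/-- The transvection. -/
def TH : G0 P →* G0 P :=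
  SemidirectProduct.map (th b d ε) (MonoidHom.id _) (by
    intro v
    apply FreeGroup.ext_hom
    rintro ⟨p, u⟩
    simp only [MonoidHom.comp_apply, MulEquiv.coe_toMonoidHom, φ_of, MonoidHom.id_apply]
    by_cases hp : p = d
    · subst hp
      have := map_sg (φ P v).toMonoidHom ε (FreeGroup.of (b, u))
      rw [MulEquiv.coe_toMonoidHom] at this
      rw [th_of_eq, th_of_eq, map_mul, this, φ_of, φ_of]
    · rw [th_of_ne _ _ _ _ hp, th_of_ne _ _ _ _ hp, φ_of])

theorem TH_left (x : G0 P) : (TH b d ε x).left = th b d ε x.left :=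
  SemidirectProduct.map_left _ _ _ _

theorem TH_right (x : G0 P) : (TH b d ε x).right = x.right :=
  SemidirectProduct.map_right _ _ _ _

theorem TH_injective (h : b ≠ d) : Function.Injective (TH b d ε) := by
  intro x y hxy
  have h1 := congrArg SemidirectProduct.left hxy
  have h2 := congrArg SemidirectProduct.right hxy
  rw [TH_left, TH_left] at h1
  rw [TH_right, TH_right] at h2
  exact G0_ext (th_injective b d ε h h1) h2

end Th

/-! ### Subgroups -/

section YY

variable {Γ : Type} [Group Γ] (k : P × V → Γ)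

/-- The kernel of a homomorphism of the free group. -/
def YY : Subgroup (G0 P) := (FreeGroup.lift k).ker.map SemidirectProduct.inl

theorem mem_YY (x : G0 P) : x ∈ YY k ↔ x.right = 1 ∧ FreeGroup.lift k x.left = 1 := by
  constructor
  · rintro ⟨f, hf, rfl⟩
    exact ⟨rfl, hf⟩
  · rintro ⟨h1, h2⟩
    exact ⟨x.left, h2, G0_ext rfl h1.symm⟩

theorem JJ_mem_YY {P' : Type} (π : P' → P) (μ : V) (ρ : P' → V) (hμ : ∀ j, μ j ≠ 0) (x : G0 P') :
    JJ π μ ρ x ∈ YY k ↔ x.right = 1 ∧ FreeGroup.lift (fun y => k (cI π μ ρ y)) x.left = 1 := by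
  rw [mem_YY, JJ_left, JJ_right]
  have h1 : FreeGroup.lift k (FreeGroup.map (cI π μ ρ) x.left) =
      FreeGroup.lift (fun y => k (cI π μ ρ y)) x.left := by
    have : (FreeGroup.lift k).comp (FreeGroup.map (cI π μ ρ)) =
        FreeGroup.lift (fun y => k (cI π μ ρ y)) := by
      apply FreeGroup.ext_hom
      intro y
      simp
    exact DFunLike.congr_fun this x.left
  rw [h1]
  have h2 : Multiplicative.ofAdd (μ * x.right.toAdd) = 1 ↔ x.right = 1 :=
    mul_eq_zero_iff μ hμ x.right.toAdd
  rw [h2]

end YY

end Model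

end Pool.Agent.H84.W
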