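import Mathlib

/-!
Multiple HNN extensions: adding stable letters for a family of isomorphisms between subgroups.
-/

namespace Pool.Agent.H84.W

open Monoid

/-- A family of isomorphisms `φ p : A p ≃* A' p` between subgroups of `B`. -/
structure HD (B : Type) [Group B] where
  /-- the index set of the stable letters -/
  I : Type
  /-- the sources -/
  A : I → Subgroup B
  /-- the targets -/
  A' : I → Subgroup B
  /-- the isomorphisms -/
  φ : ∀ p, A p ≃* A' p

variable {B : Type} [Group B] (D : HD B)

/-- The relations `t_p a t_p⁻¹ = φ_p(a)`, `a ∈ A p`. -/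
def HD.rels : Set (Coprod B (FreeGroup D.I)) :=
  {r | ∃ (p : D.I) (a : D.A p), r = Coprod.inr (FreeGroup.of p) * Coprod.inl (a : B) *
    (Coprod.inr (FreeGroup.of p))⁻¹ * (Coprod.inl (D.φ p a : B))⁻¹}

/-- The multiple HNN extension `⟨B, t_p | t_p a t_p⁻¹ = φ_p(a) for a in A_p⟩`. -/
def HN : Type := Coprod B (FreeGroup D.I) ⧸ Subgroup.normalClosure D.rels

noncomputable instance HN.group : Group (HN D) :=
  inferInstanceAs (Group (Coprod B (FreeGroup D.I) ⧸ Subgroup.normalClosure D.rels))

/-- The projection from the free product. -/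
noncomputable def HN.mk : Coprod B (FreeGroup D.I) →* HN D :=
  QuotientGroup.mk' (Subgroup.normalClosure D.rels)

/-- The homomorphism from the base group. -/
noncomputable def HN.base : B →* HN D := (HN.mk D).comp Coprod.inl

/-- The stable letters. -/
noncomputable def HN.t (p : D.I) : HN D := HN.mk D (Coprod.inr (FreeGroup.of p))

theorem HN.mk_surjective : Function.Surjective (HN.mk D) := QuotientGroup.mk'_surjective _

theorem HN.t_rel (p : D.I) (a : D.A p) :
    HN.t D p * HN.base D (a : B) * (HN.t D p)⁻¹ = HN.base D (D.φ p a : B) := by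
  rw [← mul_inv_eq_one]
  change HN.mk D _ * HN.mk D _ * (HN.mk D _)⁻¹ * (HN.mk D _)⁻¹ = 1
  rw [← map_inv (HN.mk D), ← map_inv (HN.mk D), ← map_mul, ← map_mul, ← map_mul]
  exact (QuotientGroup.eq_one_iff _).mpr (Subgroup.subset_normalClosure ⟨p, a, rfl⟩)

variable {D} {K : Type*} [Group K]

/-- The universal property. -/
noncomputable def HN.lift (f : B →* K) (k : D.I → K)
    (h : ∀ p (a : D.A p), k p * f (a : B) * (k p)⁻¹ = f (D.φ p a : B)) : HN D →* K :=
  QuotientGroup.lift (Subgroup.normalClosure D.rels) (Coprod.lift f (FreeGroup.lift k)) (by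
    apply Subgroup.normalClosure_le_normal
    rintro r ⟨p, a, rfl⟩
    rw [SetLike.mem_coe, MonoidHom.mem_ker]
    simp only [map_mul, map_inv, Coprod.lift_apply_inr, Coprod.lift_apply_inl,
      FreeGroup.lift_apply_of]
    rw [h, mul_inv_cancel])

@[simp] theorem HN.lift_base (f : B →* K) (k : D.I → K)
    (h : ∀ p (a : D.A p), k p * f (a : B) * (k p)⁻¹ = f (D.φ p a : B)) (b : B) :
    HN.lift f k h (HN.base D b) = f b := by
  change Coprod.lift f (FreeGroup.lift k) (Coprod.inl b) = f b
  rw [Coprod.lift_apply_inl]

@[simp] theorem HN.lift_t (f : B →* K) (k : D.I → K)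
    (h : ∀ p (a : D.A p), k p * f (a : B) * (k p)⁻¹ = f (D.φ p a : B)) (p : D.I) :
    HN.lift f k h (HN.t D p) = k p := by
  change Coprod.lift f (FreeGroup.lift k) (Coprod.inr (FreeGroup.of p)) = k p
  rw [Coprod.lift_apply_inr, FreeGroup.lift_apply_of]

/-- Induction: a subgroup which contains the base group and the stable letters is everything. -/
theorem HN.mem_of (H : Subgroup (HN D)) (h1 : ∀ b, HN.base D b ∈ H) (h2 : ∀ p, HN.t D p ∈ H)
    (x : HN D) : x ∈ H := by
  obtain ⟨w, rfl⟩ := HN.mk_surjective D x
  induction w using Coprod.induction_on with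
  | inl b => exact h1 b
  | inr w =>
    induction w using FreeGroup.induction_on with
    | C1 => rw [map_one, map_one]; exact H.one_mem
    | of p => exact h2 p
    | inv_of p _ => rw [map_inv, map_inv]; exact H.inv_mem (h2 p)
    | mul x y hx hy => rw [map_mul, map_mul]; exact H.mul_mem hx hy
  | mul x y hx hy => rw [map_mul]; exact H.mul_mem hx hy

theorem HN.hom_ext {f g : HN D →* K} (h1 : ∀ b, f (HN.base D b) = g (HN.base D b))
    (h2 : ∀ p, f (HN.t D p) = g (HN.t D p)) : f = g := by
  ext x
  exact HN.mem_of (f.eqLocus g) h1 h2 x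

/-- Countability. -/
theorem HN.countable (hB : Countable B) (hI : Countable D.I) : Countable (HN D) := by
  have : Countable (Coprod B (FreeGroup D.I)) := by
    have h : Function.Surjective (Coprod.mk : FreeMonoid (B ⊕ FreeGroup D.I) → _) :=
      Coprod.mk_surjective
    have : Countable (FreeGroup D.I) := by
      have h' : Function.Surjective (FreeGroup.mk : List (D.I × Bool) → _) := Quot.mk_surjective
      exact h'.countable
    have : Countable (FreeMonoid (B ⊕ FreeGroup D.I)) :=
      inferInstanceAs (Countable (List (B ⊕ FreeGroup D.I)))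
    exact h.countable
  exact (HN.mk_surjective D).countable

end Pool.Agent.H84.W
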