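import Pool.Agent.H84.W.Fp
import Pool.Agent.H84.W.Mach

set_option autoImplicit false

/-!
The smallest normal subgroup with torsion-free quotient containing a recursively enumerable set has
a recursively enumerable set of words.
-/

namespace Pool.Agent.H84.W

/-! ### Isolated normal subgroups -/

/-- Normal subgroups with torsion-free quotient which contain a given set. -/
def IsoN {G : Type} [Group G] (S : Set G) (N : Subgroup G) : Prop :=
  N.Normal ∧ (∀ (g : G) (n : ℕ), n ≠ 0 → g ^ n ∈ N → g ∈ N) ∧ S ⊆ N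

/-- The smallest normal subgroup with torsion-free quotient which contains a given set. -/
def tfcl {G : Type} [Group G] (S : Set G) : Subgroup G := sInf {N | IsoN S N}

section

variable {G : Type} [Group G] (S : Set G)

theorem mem_tfcl (g : G) : g ∈ tfcl S ↔ ∀ N, IsoN S N → g ∈ N := by
  rw [tfcl, Subgroup.mem_sInf]
  rfl

theorem tfcl_isoN : IsoN S (tfcl S) := by
  refine ⟨⟨fun n hn g => ?_⟩, fun g n hn h => ?_, fun g hg => ?_⟩
  · rw [mem_tfcl] at hn ⊢
    exact fun N hN => hN.1.conj_mem n (hn N hN) g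
  · rw [mem_tfcl] at h ⊢
    exact fun N hN => hN.2.1 g n hn (h N hN)
  · rw [SetLike.mem_coe, mem_tfcl]
    exact fun N hN => hN.2.2 hg

instance tfcl_normal : (tfcl S).Normal := (tfcl_isoN S).1

theorem subset_tfcl : S ⊆ tfcl S := (tfcl_isoN S).2.2

theorem tfcl_tf : TF (G ⧸ tfcl S) := by
  intro q hq
  obtain ⟨g, rfl⟩ := QuotientGroup.mk'_surjective (tfcl S) q
  obtain ⟨n, hn, h⟩ := isOfFinOrder_iff_pow_eq_one.1 hq
  rw [← map_pow] at h
  exact (QuotientGroup.eq_one_iff g).mpr
    ((tfcl_isoN S).2.1 g n hn.ne' ((QuotientGroup.eq_one_iff _).mp h))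

theorem isoN_ker {K : Type} [Group K] (hK : TF K) (f : G →* K) (h : ∀ s ∈ S, f s = 1) :
    IsoN S f.ker := by
  refine ⟨inferInstance, fun g n hn hg => ?_, h⟩
  rw [MonoidHom.mem_ker, map_pow] at hg
  rw [MonoidHom.mem_ker]
  exact hK _ (isOfFinOrder_iff_pow_eq_one.2 ⟨n, Nat.pos_of_ne_zero hn, hg⟩)

theorem tfcl_le_ker {K : Type} [Group K] (hK : TF K) (f : G →* K) (h : ∀ s ∈ S, f s = 1) :
    tfcl S ≤ f.ker := fun g hg => (mem_tfcl S g).mp hg _ (isoN_ker S hK f h)

end

/-! ### Words -/

/-- Words. -/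
abbrev Wd : Type := List (Bool × Bool)

/-- The inverse word. -/
def iv (w : Wd) : Wd := (w.map fun x => (x.1, !x.2)).reverse

theorem mk_iv (w : Wd) : FreeGroup.mk (iv w) = (FreeGroup.mk w)⁻¹ := rfl

/-- Reduction. -/
def rd (w : Wd) : Wd :=
  w.foldr (fun x acc => if acc.head? = some (x.1, !x.2) then acc.tail else x :: acc) []

theorem rd_eq (w : Wd) : rd w = FreeGroup.reduce w := by
  induction w with
  | nil => rfl
  | cons x w ih =>
    have e1 : rd (x :: w) = if (rd w).head? = some (x.1, !x.2) then (rd w).tail else x :: rd w := rfl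
    rw [e1, FreeGroup.reduce.cons, ih]
    rcases FreeGroup.reduce w with _ | ⟨y, l⟩
    · rfl
    · simp only [List.head?_cons, Option.some.injEq, List.tail_cons]
      obtain ⟨a, b⟩ := x
      obtain ⟨c, d⟩ := y
      cases a <;> cases b <;> cases c <;> cases d <;> simp

theorem rd_iff (w w' : Wd) : rd w = rd w' ↔ FreeGroup.mk w = FreeGroup.mk w' := by
  rw [rd_eq, rd_eq]
  exact ⟨FreeGroup.reduce.exact, FreeGroup.reduce.sound⟩

/-- Powers of words. -/
def pw (w : Wd) (n : ℕ) : Wd := (List.range n).flatMap fun _ => w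

theorem mk_pw (w : Wd) (n : ℕ) : FreeGroup.mk (pw w n) = FreeGroup.mk w ^ n := by
  induction n with
  | zero => rfl
  | succ n ih =>
    have : pw w (n + 1) = pw w n ++ w := by
      unfold pw
      rw [List.range_succ, List.flatMap_append]
      simp
    rw [this, ← FreeGroup.mul_mk, ih, pow_succ]

/-- Instructions: a number for the kind, a number, and a word. -/
abbrev Ins : Type := (ℕ × ℕ) × Wd

variable (ρ : ℕ → Wd)

/-- One step of the evaluation. -/
def stp (s : List Wd) (x : Ins) : List Wd :=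
  if x.1.1 = 0 then ρ x.1.2 :: s
  else if x.1.1 = 1 then (s.headI ++ s.tail.headI) :: s.tail.tail
  else if x.1.1 = 2 then iv s.headI :: s.tail
  else if x.1.1 = 3 then (x.2 ++ (s.headI ++ iv x.2)) :: s.tail
  else if x.1.1 = 4 then (if rd (pw x.2 (x.1.2 + 1)) = rd s.headI then x.2 else []) :: s.tail
  else [] :: s

/-- The evaluation. -/
def run (s : List Wd) (p : List Ins) : List Wd := p.foldl (stp ρ) s

theorem run_append (s : List Wd) (p p' : List Ins) : run ρ s (p ++ p') = run ρ (run ρ s p) p' :=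
  List.foldl_append

/-- The elements which are the results of evaluations. -/
def Ach (g : FreeGroup Bool) : Prop := ∃ p : List Ins, ∀ s, ∃ w, run ρ s p = w :: s ∧
  FreeGroup.mk w = g

theorem ach_step {g : FreeGroup Bool} (h : Ach ρ g) (x : Ins) (f : Wd → Wd) (g' : FreeGroup Bool)
    (hx : ∀ w s, stp ρ (w :: s) x = f w :: s)
    (hf : ∀ w, FreeGroup.mk w = g → FreeGroup.mk (f w) = g') : Ach ρ g' := by
  obtain ⟨p, hp⟩ := h
  refine ⟨p ++ [x], fun s => ?_⟩
  obtain ⟨w, h1, h2⟩ := hp s
  refine ⟨f w, ?_, hf w h2⟩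
  rw [run_append, h1]
  exact hx w s

/-- The results of evaluations form a normal subgroup with torsion-free quotient. -/
def AchS : Subgroup (FreeGroup Bool) where
  carrier := {g | Ach ρ g}
  one_mem' := ⟨[((5, 0), [])], fun s => ⟨[], rfl, rfl⟩⟩
  mul_mem' := by
    rintro g h ⟨p, hp⟩ ⟨q, hq⟩
    refine ⟨q ++ p ++ [((1, 0), [])], fun s => ?_⟩
    obtain ⟨w, h1, h2⟩ := hq s
    obtain ⟨w', h3, h4⟩ := hp (w :: s)
    refine ⟨w' ++ w, ?_, ?_⟩
    · rw [run_append, run_append, h1, h3]
      rfl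
    · rw [← FreeGroup.mul_mk, h2, h4]
  inv_mem' := by
    intro g hg
    exact ach_step ρ hg ((2, 0), []) iv g⁻¹ (fun w s => rfl) (fun w hw => by rw [mk_iv, hw])

theorem achS_isoN : IsoN (Set.range fun n => FreeGroup.mk (ρ n)) (AchS ρ) := by
  refine ⟨⟨fun g hg u => ?_⟩, fun g n hn hg => ?_, ?_⟩
  · obtain ⟨v, rfl⟩ : ∃ v, FreeGroup.mk v = u := Quot.exists_rep u
    refine ach_step ρ hg ((3, 0), v) (fun w => v ++ (w ++ iv v)) _ (fun w s => rfl)
      (fun w hw => ?_)
    rw [← FreeGroup.mul_mk, ← FreeGroup.mul_mk, mk_iv, hw, mul_assoc]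
  · obtain ⟨v, rfl⟩ : ∃ v, FreeGroup.mk v = g := Quot.exists_rep g
    obtain ⟨m, rfl⟩ : ∃ m, n = m + 1 := ⟨n - 1, by omega⟩
    refine ach_step ρ hg ((4, m), v) (fun w => if rd (pw v (m + 1)) = rd w then v else []) _
      (fun w s => rfl) (fun w hw => ?_)
    have : rd (pw v (m + 1)) = rd w := by
      rw [rd_iff, mk_pw, hw]
    simp only [this, if_true]
  · rintro _ ⟨n, rfl⟩
    exact ⟨[((0, n), [])], fun s => ⟨ρ n, rfl, rfl⟩⟩

theorem stp_mem (N : Subgroup (FreeGroup Bool)) (hN : IsoN (Set.range fun n => FreeGroup.mk (ρ n)) N)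
    (s : List Wd) (hs : ∀ w ∈ s, FreeGroup.mk w ∈ N) (x : Ins) :
    ∀ w ∈ stp ρ s x, FreeGroup.mk w ∈ N := by
  have h1 : FreeGroup.mk s.headI ∈ N := by
    rcases s with _ | ⟨w, s⟩
    · exact N.one_mem
    · exact hs w (by simp)
  have h2 : ∀ w ∈ s.tail, FreeGroup.mk w ∈ N := fun w hw => hs w (List.mem_of_mem_tail hw)
  have h3 : FreeGroup.mk s.tail.headI ∈ N := by
    rcases hst : s.tail with _ | ⟨w, s'⟩
    · exact N.one_mem
    · exact h2 w (by simp [hst])
  have h4 : ∀ w ∈ s.tail.tail, FreeGroup.mk w ∈ N := fun w hw => h2 w (List.mem_of_mem_tail hw)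
  unfold stp
  intro w hw
  split_ifs at hw with c0 c1 c2 c3 c4 c5
  · rcases List.mem_cons.mp hw with rfl | hw
    · exact hN.2.2 ⟨_, rfl⟩
    · exact hs w hw
  · rcases List.mem_cons.mp hw with rfl | hw
    · rw [← FreeGroup.mul_mk]
      exact N.mul_mem h1 h3
    · exact h4 w hw
  · rcases List.mem_cons.mp hw with rfl | hw
    · rw [mk_iv]
      exact N.inv_mem h1
    · exact h2 w hw
  · rcases List.mem_cons.mp hw with rfl | hw
    · rw [← FreeGroup.mul_mk, ← FreeGroup.mul_mk, mk_iv, ← mul_assoc]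
      exact hN.1.conj_mem _ h1 _
    · exact h2 w hw
  · rcases List.mem_cons.mp hw with rfl | hw
    · apply hN.2.1 _ (x.1.2 + 1) (by omega)
      rw [rd_iff, mk_pw] at c5
      rw [c5]
      exact h1
    · exact h2 w hw
  · rcases List.mem_cons.mp hw with rfl | hw
    · exact N.one_mem
    · exact h2 w hw
  · rcases List.mem_cons.mp hw with rfl | hw
    · exact N.one_mem
    · exact hs w hw

theorem run_mem (N : Subgroup (FreeGroup Bool)) (hN : IsoN (Set.range fun n => FreeGroup.mk (ρ n)) N)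
    (p : List Ins) : ∀ s : List Wd, (∀ w ∈ s, FreeGroup.mk w ∈ N) →
    ∀ w ∈ run ρ s p, FreeGroup.mk w ∈ N := by
  induction p with
  | nil => exact fun s hs => hs
  | cons x p ih => exact fun s hs => ih _ (stp_mem ρ N hN s hs x)

theorem mem_tfcl_iff (g : FreeGroup Bool) : g ∈ tfcl (Set.range fun n => FreeGroup.mk (ρ n)) ↔
    ∃ p : List Ins, FreeGroup.mk (run ρ [] p).headI = g := by
  constructor
  · intro hg
    obtain ⟨p, hp⟩ : Ach ρ g := (mem_tfcl _ g).mp hg _ (achS_isoN ρ)
    obtain ⟨w, h1, h2⟩ := hp []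
    refine ⟨p, ?_⟩
    rw [h1]
    exact h2
  · rintro ⟨p, rfl⟩
    have h1 := run_mem ρ _ (tfcl_isoN (Set.range fun n => FreeGroup.mk (ρ n))) p [] (by simp)
    rcases h : run ρ [] p with _ | ⟨w, s⟩
    · exact Subgroup.one_mem _
    · exact h1 w (by simp [h])

/-! ### Computability -/

theorem iv_primrec : Primrec iv := by
  unfold iv
  refine Primrec.list_reverse.comp (Primrec.list_map Primrec.id ?_)
  exact (Primrec.pair (Primrec.fst.comp Primrec.snd)
    (Primrec.not.comp (Primrec.snd.comp Primrec.snd))).to₂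

theorem rd_primrec : Primrec rd := by
  unfold rd
  refine Primrec.list_foldr (f := fun w : Wd => w) (g := fun _ => []) (h := fun _ (p : (Bool × Bool) × Wd) =>
    if p.2.head? = some (p.1.1, !p.1.2) then p.2.tail else p.1 :: p.2) Primrec.id (Primrec.const _) ?_
  have hx : Primrec (fun q : Wd × ((Bool × Bool) × Wd) => q.2.1) := Primrec.fst.comp Primrec.snd
  have hw : Primrec (fun q : Wd × ((Bool × Bool) × Wd) => q.2.2) := Primrec.snd.comp Primrec.snd
  refine Primrec.ite (PrimrecRel.comp Primrec.eq (Primrec.list_head?.comp hw)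
    (Primrec.option_some.comp (Primrec.pair (Primrec.fst.comp hx)
      (Primrec.not.comp (Primrec.snd.comp hx))))) ?_ ?_
  · exact Primrec.list_tail.comp hw
  · exact Primrec.list_cons.comp hx hw

theorem pw_primrec : Primrec₂ pw := by
  unfold pw
  refine Primrec.list_flatMap (f := fun x : Wd × ℕ => List.range x.2) (g := fun x _ => x.1)
    (Primrec.list_range.comp Primrec.snd) ?_
  exact (Primrec.fst.comp Primrec.fst).to₂

theorem stp_primrec (hρ : Primrec ρ) : Primrec₂ (stp ρ) := by
  unfold stp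
  have hs : Primrec (fun q : List Wd × Ins => q.1) := Primrec.fst
  have hk : Primrec (fun q : List Wd × Ins => q.2.1.1) :=
    Primrec.fst.comp (Primrec.fst.comp Primrec.snd)
  have hn : Primrec (fun q : List Wd × Ins => q.2.1.2) :=
    Primrec.snd.comp (Primrec.fst.comp Primrec.snd)
  have hw : Primrec (fun q : List Wd × Ins => q.2.2) := Primrec.snd.comp Primrec.snd
  have hh : Primrec (fun q : List Wd × Ins => q.1.headI) := Primrec.list_headI.comp hs
  have ht : Primrec (fun q : List Wd × Ins => q.1.tail) := Primrec.list_tail.comp hs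
  have hc : ∀ c : ℕ, PrimrecPred (fun q : List Wd × Ins => q.2.1.1 = c) := fun c =>
    PrimrecRel.comp Primrec.eq hk (Primrec.const c)
  refine Primrec.ite (hc 0) (Primrec.list_cons.comp (hρ.comp hn) hs) ?_
  refine Primrec.ite (hc 1) (Primrec.list_cons.comp (Primrec.list_append.comp hh
    (Primrec.list_headI.comp ht)) (Primrec.list_tail.comp ht)) ?_
  refine Primrec.ite (hc 2) (Primrec.list_cons.comp (iv_primrec.comp hh) ht) ?_
  refine Primrec.ite (hc 3) (Primrec.list_cons.comp (Primrec.list_append.comp hw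
    (Primrec.list_append.comp hh (iv_primrec.comp hw))) ht) ?_
  refine Primrec.ite (hc 4) (Primrec.list_cons.comp (Primrec.ite (PrimrecRel.comp Primrec.eq
    (rd_primrec.comp (pw_primrec.comp hw (Primrec.succ.comp hn))) (rd_primrec.comp hh)) hw
    (Primrec.const _)) ht) ?_
  exact Primrec.list_cons.comp (Primrec.const _) hs

theorem run_primrec (hρ : Primrec ρ) : Primrec (run ρ []) := by
  unfold run
  refine Primrec.list_foldl (f := fun p : List Ins => p) (g := fun _ => [])
    (h := fun _ (q : List Wd × Ins) => stp ρ q.1 q.2) Primrec.id (Primrec.const _) ?_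
  exact ((stp_primrec ρ hρ).comp (Primrec.fst.comp Primrec.snd)
    (Primrec.snd.comp Primrec.snd)).to₂

theorem num_primrec : Primrec num := by
  have h : Primrec (fun w : Wd => w.foldr (fun i n => 8 * n + 4 + 2 * i.1.toNat + i.2.toNat) 0) := by
    refine Primrec.list_foldr (f := fun w : Wd => w) (g := fun _ => 0)
      (h := fun _ (p : (Bool × Bool) × ℕ) => 8 * p.2 + 4 + 2 * p.1.1.toNat + p.1.2.toNat)
      Primrec.id (Primrec.const _) ?_
    have ht : Primrec Bool.toNat := Primrec.dom_finite _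
    have hx : Primrec (fun q : Wd × ((Bool × Bool) × ℕ) => q.2.1) := Primrec.fst.comp Primrec.snd
    have hn : Primrec (fun q : Wd × ((Bool × Bool) × ℕ) => q.2.2) := Primrec.snd.comp Primrec.snd
    refine Primrec.nat_add.comp (Primrec.nat_add.comp (Primrec.nat_add.comp
      (Primrec.nat_mul.comp (Primrec.const 8) hn) (Primrec.const 4))
      (Primrec.nat_mul.comp (Primrec.const 2) (ht.comp (Primrec.fst.comp hx)))) ?_
    exact ht.comp (Primrec.snd.comp hx)
  refine h.of_eq fun w => ?_
  induction w with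
  | nil => rfl
  | cons i w ih => simp only [List.foldr_cons, num, ih]

/-- Projections of decidable relations are recursively enumerable. -/
theorem re_exists (c : ℕ → ℕ → Bool) (hc : Primrec₂ c) : REPred fun n => ∃ k, c n k = true := by
  have h1 : Partrec (fun n : ℕ => Nat.rfind fun k => (Part.some (c n k))) :=
    Partrec.rfind (p := fun n k => (Part.some (c n k) : Part Bool)) hc.to_comp.partrec₂
  refine (h1.dom_re).of_eq fun n => ?_
  rw [Nat.rfind_dom]
  constructor
  · rintro ⟨k, hk, _⟩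
    exact ⟨k, (Part.mem_some_iff.mp hk).symm⟩
  · rintro ⟨k, hk⟩
    refine ⟨k, Part.mem_some_iff.mpr hk.symm, fun _ => trivial⟩

/-- The words of the smallest normal subgroup with torsion-free quotient are recursively
enumerable. -/
theorem re_tfcl (hρ : Primrec ρ) : REPred fun n => ∃ w, num w = n ∧
    FreeGroup.mk w ∈ tfcl (Set.range fun n => FreeGroup.mk (ρ n)) := by
  let c : ℕ → ℕ → Bool := fun n k =>
    ((Encodable.decode (α := Wd × List Ins) k).map fun x =>
      decide (num x.1 = n ∧ rd (run ρ [] x.2).headI = rd x.1)).getD false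
  have hc : Primrec₂ c := by
    refine Primrec.option_getD.comp (Primrec.option_map (Primrec.decode.comp Primrec.snd) ?_)
      (Primrec.const false)
    have hx : Primrec (fun q : (ℕ × ℕ) × (Wd × List Ins) => q.2.1) := Primrec.fst.comp Primrec.snd
    have hp : Primrec (fun q : (ℕ × ℕ) × (Wd × List Ins) => q.2.2) := Primrec.snd.comp Primrec.snd
    have hn : Primrec (fun q : (ℕ × ℕ) × (Wd × List Ins) => q.1.1) := Primrec.fst.comp Primrec.fst
    have h1 : PrimrecPred (fun q : (ℕ × ℕ) × (Wd × List Ins) => num q.2.1 = q.1.1) :=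
      PrimrecRel.comp Primrec.eq (num_primrec.comp hx) hn
    have h2 : PrimrecPred (fun q : (ℕ × ℕ) × (Wd × List Ins) =>
        rd (run ρ [] q.2.2).headI = rd q.2.1) :=
      PrimrecRel.comp Primrec.eq
        (rd_primrec.comp (Primrec.list_headI.comp ((run_primrec ρ hρ).comp hp)))
        (rd_primrec.comp hx)
    exact (h1.and h2).decide
  refine (re_exists c hc).of_eq fun n => ?_
  constructor
  · rintro ⟨k, hk⟩
    simp only [c] at hk
    cases hd : Encodable.decode (α := Wd × List Ins) k with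
    | none => rw [hd] at hk; simp at hk
    | some x =>
      rw [hd] at hk
      simp only [Option.map_some, Option.getD_some, decide_eq_true_eq] at hk
      refine ⟨x.1, hk.1, ?_⟩
      rw [mem_tfcl_iff]
      exact ⟨x.2, (rd_iff _ _).mp hk.2⟩
  · rintro ⟨w, hw, hm⟩
    rw [mem_tfcl_iff] at hm
    obtain ⟨p, hp⟩ := hm
    refine ⟨Encodable.encode (w, p), ?_⟩
    simp only [c, Encodable.encodek, Option.map_some, Option.getD_some, decide_eq_true_eq]
    exact ⟨hw, (rd_iff _ _).mpr hp⟩

end Pool.Agent.H84.W
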