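import Pool.Agent.H84.W.FbfDef
import Pool.Agent.H84.W.Ben3

set_option autoImplicit false

/-!
The final HNN extension in the embedding theorem, with free-by-free associated subgroups.
-/

namespace Pool.Agent.H84.W

open Monoid

theorem isFree_of_injective {A F : Type} [Group A] [Group F] [IsFreeGroup F] (g : A →* F)
    (hg : Function.Injective g) : IsFreeGroup A := by
  have h : IsFreeGroup g.range := inferInstance
  exact IsFreeGroup.ofMulEquiv (MonoidHom.ofInjective hg).symm

theorem freeByFree_of {A F F' : Type} [Group A] [Group F] [Group F'] [IsFreeGroup F]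
    [IsFreeGroup F'] (f : A →* F) (hf : Function.Surjective f) (g : f.ker →* F')
    (hg : Function.Injective g) : FreeByFree A :=
  ⟨f.ker, inferInstance, isFree_of_injective g hg,
    IsFreeGroup.ofMulEquiv (QuotientGroup.quotientKerEquivOfSurjective f hf).symm⟩

section Map

variable {F H : Type} [Group F] [Group H] (i : F →* H) (N : Subgroup F) (L : Subgroup H)

/-- The extension by a letter centralizing a subgroup. -/
abbrev Cen (L : Subgroup H) : Type := HNNExtension H L L (MulEquiv.refl L)

variable (h : ∀ f, i f ∈ L ↔ f ∈ N)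

/-- The homomorphism between the extensions. -/
def kap0 : Cen N →* Cen L :=
  HNNExtension.lift (HNNExtension.of.comp i) HNNExtension.t (fun a => by
    have := HNNExtension.t_mul_of (φ := MulEquiv.refl L) ⟨i a, (h a).mpr a.2⟩
    exact this)

theorem kap0_of (f : F) : kap0 i N L h (HNNExtension.of f) = HNNExtension.of (i f) :=
  HNNExtension.lift_of _ _ _ _

theorem kap0_t : kap0 i N L h HNNExtension.t = HNNExtension.t :=
  HNNExtension.lift_t _ _ _

theorem mem_toSubgroup (u : ℤˣ) (x : H) : x ∈ HNNExtension.toSubgroup L L u ↔ x ∈ L := by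
  rcases Int.units_eq_one_or u with rfl | rfl <;> rfl

theorem kap0_injective (hi : Function.Injective i) : Function.Injective (kap0 i N L h) := by
  rw [injective_iff_map_eq_one]
  intro x hx
  obtain ⟨d⟩ := HNNExtension.NormalWord.TransversalPair.nonempty F N N
  set w := HNNExtension.NormalWord.equiv (MulEquiv.refl N) d x with hw
  have h1 : w.prod (MulEquiv.refl N) = x := by
    rw [hw]
    exact (HNNExtension.NormalWord.equiv (MulEquiv.refl N) d).symm_apply_apply x
  let w' : HNNExtension.NormalWord.ReducedWord H L L :=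
    { head := i w.head
      toList := w.toList.map fun a => (a.1, i a.2)
      chain := by
        rw [List.isChain_map]
        refine w.chain.imp ?_
        intro a b hab hm
        apply hab
        rw [mem_toSubgroup] at hm ⊢
        exact (h _).mp hm }
  have h2 : w'.prod (MulEquiv.refl L) = kap0 i N L h x := by
    rw [← h1]
    unfold HNNExtension.NormalWord.ReducedWord.prod
    rw [map_mul, kap0_of, map_list_prod, List.map_map, List.map_map]
    congr 2
    apply List.map_congr_left
    intro a _
    simp only [Function.comp_apply, map_mul, map_zpow, kap0_of, kap0_t]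
  have h3 := HNNExtension.ReducedWord.toList_eq_nil_of_mem_of_range (MulEquiv.refl L) w'
    ⟨1, by rw [h2, hx, map_one]⟩
  have h4 : w.toList = [] := List.map_eq_nil_iff.mp h3
  have h5 : x = HNNExtension.of w.head := by
    rw [← h1]
    unfold HNNExtension.NormalWord.ReducedWord.prod
    rw [h4]
    simp
  have h6 : HNNExtension.of (i w.head) = (1 : Cen L) := by
    rw [← kap0_of i N L h, ← h5, hx]
  have h7 : i w.head = 1 := by
    apply HNNExtension.of_injective (MulEquiv.refl L)
    rw [h6, map_one]
  rw [h5, hi (h7.trans (map_one i).symm), map_one]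

end Map

section Edge

variable {F : Type} [Group F] (N : Subgroup F)

/-- The action on the free group on the cosets. -/
def psi : F →* MulAut (FreeGroup (F ⧸ N)) where
  toFun f := FreeGroup.freeGroupCongr (MulAction.toPerm f)
  map_one' := by
    apply aut_ext
    intro q
    simp
  map_mul' f g := by
    apply aut_ext
    intro q
    simp [mul_smul]

theorem psi_of (f : F) (q : F ⧸ N) : psi N f (FreeGroup.of q) = FreeGroup.of (f • q) := by
  simp [psi]

/-- The homomorphism to the semidirect product. -/
def sig : Cen N →* FreeGroup (F ⧸ N) ⋊[psi N] F :=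
  HNNExtension.lift SemidirectProduct.inr (SemidirectProduct.inl (FreeGroup.of ((1 : F) : F ⧸ N)))
    (fun a => by
      have e1 : (MulEquiv.refl N) a = a := rfl
      rw [e1]
      have h1 : (a : F) • ((1 : F) : F ⧸ N) = ((1 : F) : F ⧸ N) := by
        rw [MulAction.Quotient.smul_coe, smul_eq_mul, mul_one, QuotientGroup.eq, mul_one]
        exact N.inv_mem a.2
      have h2 := SemidirectProduct.inl_aut (φ := psi N) (a : F) (FreeGroup.of ((1 : F) : F ⧸ N))
      rw [psi_of, h1, map_inv, eq_mul_inv_iff_mul_eq] at h2
      exact h2)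

theorem sig_of (f : F) : sig N (HNNExtension.of f) = SemidirectProduct.inr f :=
  HNNExtension.lift_of _ _ _ _

theorem sig_t : sig N HNNExtension.t =
    SemidirectProduct.inl (FreeGroup.of ((1 : F) : F ⧸ N)) :=
  HNNExtension.lift_t _ _ _

theorem t_comm (n : F) (hn : n ∈ N) : Commute (HNNExtension.t : Cen N) (HNNExtension.of n) :=
  HNNExtension.t_mul_of (φ := MulEquiv.refl N) ⟨n, hn⟩

theorem conj_t_eq (f g : F) (h : (f : F ⧸ N) = g) :
    (HNNExtension.of f * HNNExtension.t * (HNNExtension.of f)⁻¹ : Cen N) =
      HNNExtension.of g * HNNExtension.t * (HNNExtension.of g)⁻¹ := by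
  rw [QuotientGroup.eq] at h
  have h1 := (t_comm N _ h).eq
  rw [map_mul, map_inv] at h1
  have h2 : (HNNExtension.of f : Cen N) * (HNNExtension.t *
      ((HNNExtension.of f)⁻¹ * HNNExtension.of g)) * (HNNExtension.of g)⁻¹ =
      HNNExtension.of f * ((HNNExtension.of f)⁻¹ * HNNExtension.of g * HNNExtension.t) *
        (HNNExtension.of g)⁻¹ := by rw [h1]
  calc (HNNExtension.of f * HNNExtension.t * (HNNExtension.of f)⁻¹ : Cen N)
      = (HNNExtension.of f : Cen N) * (HNNExtension.t *
        ((HNNExtension.of f)⁻¹ * HNNExtension.of g)) * (HNNExtension.of g)⁻¹ := by group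
    _ = HNNExtension.of f * ((HNNExtension.of f)⁻¹ * HNNExtension.of g * HNNExtension.t) *
        (HNNExtension.of g)⁻¹ := h2
    _ = _ := by group

/-- The inverse homomorphism. -/
noncomputable def sigInv : FreeGroup (F ⧸ N) ⋊[psi N] F →* Cen N :=
  SemidirectProduct.lift (FreeGroup.lift fun q =>
    HNNExtension.of q.out * HNNExtension.t * (HNNExtension.of q.out)⁻¹) HNNExtension.of (by
      intro f
      apply FreeGroup.ext_hom
      intro q
      simp only [MonoidHom.comp_apply, MulEquiv.coe_toMonoidHom, psi_of, FreeGroup.lift_apply_of,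
        MulAut.conj_apply]
      rw [conj_t_eq N (f • q).out (f * q.out)]
      · rw [map_mul]
        group
      · rw [QuotientGroup.out_eq', ← smul_eq_mul, ← MulAction.Quotient.smul_coe,
          QuotientGroup.out_eq'])

theorem sigInv_sig (x : Cen N) : sigInv N (sig N x) = x := by
  have : (sigInv N).comp (sig N) = MonoidHom.id _ := by
    apply HNNExtension.hom_ext
    · ext f
      rw [MonoidHom.comp_apply, MonoidHom.comp_apply, sig_of, sigInv, SemidirectProduct.lift_inr]
      rfl
    · rw [MonoidHom.comp_apply, sig_t, sigInv, SemidirectProduct.lift_inl,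
        FreeGroup.lift_apply_of]
      rw [conj_t_eq N (((1 : F) : F ⧸ N)).out 1 (QuotientGroup.out_eq' _)]
      simp
  exact DFunLike.congr_fun this x

theorem sig_injective : Function.Injective (sig N) :=
  Function.LeftInverse.injective (sigInv_sig N)

/-- The subgroup generated by the base group and its conjugate. -/
def E0 : Subgroup (Cen N) :=
  (HNNExtension.of (A := N) (B := N) (φ := MulEquiv.refl N)).range ⊔
    ((MulAut.conj (HNNExtension.t : Cen N)).toMonoidHom.comp HNNExtension.of).range

/-- The base group in the subgroup. -/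
def ea : F →* E0 N :=
  HNNExtension.of.codRestrict (E0 N) fun f => Subgroup.mem_sup_left ⟨f, rfl⟩

/-- The conjugate of the base group in the subgroup. -/
def eb : F →* E0 N :=
  ((MulAut.conj (HNNExtension.t : Cen N)).toMonoidHom.comp HNNExtension.of).codRestrict
    (E0 N) fun f => Subgroup.mem_sup_right ⟨f, rfl⟩

theorem E0_top : (ea N).range ⊔ (eb N).range = ⊤ := by
  apply Subgroup.map_injective (E0 N).subtype_injective
  rw [Subgroup.map_sup, MonoidHom.map_range, MonoidHom.map_range, ← MonoidHom.range_eq_map,
    Subgroup.range_subtype]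
  rfl

theorem E0_hom_ext {G : Type} [Group G] {f g : E0 N →* G} (h1 : ∀ x, f (ea N x) = g (ea N x))
    (h2 : ∀ x, f (eb N x) = g (eb N x)) : f = g := by
  have h : (ea N).range ⊔ (eb N).range ≤ f.eqLocus g := by
    apply sup_le
    · rintro _ ⟨x, rfl⟩
      exact h1 x
    · rintro _ ⟨x, rfl⟩
      exact h2 x
  rw [E0_top] at h
  ext x
  exact h (Subgroup.mem_top x)

theorem ea_eq_eb (n : F) (hn : n ∈ N) : ea N n = eb N n := by
  apply Subtype.ext
  change (HNNExtension.of n : Cen N) = HNNExtension.t * HNNExtension.of n * HNNExtension.t⁻¹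
  rw [(t_comm N n hn).eq, mul_inv_cancel_right]

/-- The folding homomorphism. -/
def fold : Cen N →* F :=
  HNNExtension.lift (MonoidHom.id F) 1 (fun a => by simp)

theorem fold_of (f : F) : fold N (HNNExtension.of f) = f := HNNExtension.lift_of _ _ _ _

theorem fold_eq (x : Cen N) : fold N x = (sig N x).right := by
  have : fold N = SemidirectProduct.rightHom.comp (sig N) := by
    apply HNNExtension.hom_ext
    · ext f
      rw [MonoidHom.comp_apply, MonoidHom.comp_apply, MonoidHom.comp_apply, fold_of, sig_of]
      rfl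
    · rw [MonoidHom.comp_apply, sig_t, fold, HNNExtension.lift_t]
      rfl
  rw [this]
  rfl

theorem E0_freeByFree [IsFreeGroup F] : FreeByFree (E0 N) := by
  let f : E0 N →* F := (fold N).comp (E0 N).subtype
  have hf : Function.Surjective f := fun x => ⟨ea N x, fold_of N x⟩
  have h1 : ∀ x : f.ker, (sig N ((x : E0 N) : Cen N)).right = 1 := by
    intro x
    rw [← fold_eq]
    exact x.2
  let g : f.ker →* FreeGroup (F ⧸ N) :=
    { toFun := fun x => (sig N ((x : E0 N) : Cen N)).left
      map_one' := by simp
      map_mul' := fun x y => by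
        have h2 : (((x * y : f.ker) : E0 N) : Cen N) = ((x : E0 N) : Cen N) * ((y : E0 N) : Cen N) :=
          rfl
        rw [h2, map_mul, SemidirectProduct.mul_left, h1 x, map_one]
        rfl }
  refine freeByFree_of f hf g ?_
  intro x y hxy
  apply Subtype.ext
  apply Subtype.ext
  apply sig_injective N
  apply SemidirectProduct.ext
  · exact hxy
  · rw [h1 x, h1 y]

end Edge

section Phi

variable {F : Type} [Group F] (N : Subgroup F) [N.Normal]

/-- Left multiplications on two sheets. -/
def TT : (F ⧸ N) × (F ⧸ N) →* Equiv.Perm ((F ⧸ N) × Bool) where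
  toFun q :=
    { toFun := fun x => (if x.2 then q.2 * x.1 else q.1 * x.1, x.2)
      invFun := fun x => (if x.2 then q.2⁻¹ * x.1 else q.1⁻¹ * x.1, x.2)
      left_inv := by rintro ⟨x, _ | _⟩ <;> simp
      right_inv := by rintro ⟨x, _ | _⟩ <;> simp }
  map_one' := by ext ⟨x, _ | _⟩ <;> simp
  map_mul' q q' := by
    apply Equiv.ext
    rintro ⟨x, _ | _⟩ <;> simp [mul_assoc]

theorem TT_apply (q : (F ⧸ N) × (F ⧸ N)) (x : F ⧸ N) (ε : Bool) :
    TT N q (x, ε) = (if ε then q.2 * x else q.1 * x, ε) := rfl

theorem TT_injective : Function.Injective (TT N) := by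
  intro q q' h
  have h1 := congrArg (fun σ => (σ (1, false)).1) h
  have h2 := congrArg (fun σ => (σ (1, true)).1) h
  simp only [TT_apply, if_true, mul_one, Bool.false_eq_true, if_false] at h1 h2
  exact Prod.ext h1 h2

/-- The exchange of the sheets. -/
def sw : Equiv.Perm ((F ⧸ N) × Bool) where
  toFun x := (x.1, !x.2)
  invFun x := (x.1, !x.2)
  left_inv x := by simp
  right_inv x := by simp

/-- The homomorphism to the permutations. -/
def xi : Cen N →* Equiv.Perm ((F ⧸ N) × Bool) :=
  HNNExtension.lift ((TT N).comp ((MonoidHom.inl _ _).comp (QuotientGroup.mk' N))) (sw N)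
    (fun a => by
      have h1 : ((a : F) : F ⧸ N) = 1 := (QuotientGroup.eq_one_iff _).mpr a.2
      have h2 : QuotientGroup.mk' N (a : F) = 1 := h1
      change sw N * TT N (QuotientGroup.mk' N (a : F), 1) =
        TT N (QuotientGroup.mk' N (a : F), 1) * sw N
      have h3 : ((1 : F ⧸ N), (1 : F ⧸ N)) = 1 := rfl
      rw [h2, h3, map_one, mul_one, one_mul])

theorem xi_of (f : F) : xi N (HNNExtension.of f) = TT N ((f : F ⧸ N), 1) :=
  HNNExtension.lift_of _ _ _ _

theorem xi_conj (f : F) :
    xi N (HNNExtension.t * HNNExtension.of f * HNNExtension.t⁻¹) = TT N (1, (f : F ⧸ N)) := by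
  rw [map_mul, map_mul, map_inv, xi_of]
  have : xi N HNNExtension.t = sw N := HNNExtension.lift_t _ _ _
  rw [this, mul_inv_eq_iff_eq_mul]
  apply Equiv.ext
  rintro ⟨x, _ | _⟩
  · change (((f : F ⧸ N) * x, true) : (F ⧸ N) × Bool) = (_, true)
    rfl
  · change (((1 : F ⧸ N) * x, false) : (F ⧸ N) × Bool) = (1 * x, false)
    rfl

theorem E0_le : E0 N ≤ (TT N).range.comap (xi N) := by
  apply sup_le
  · rintro _ ⟨f, rfl⟩
    exact ⟨_, (xi_of N f).symm⟩
  · rintro _ ⟨f, rfl⟩
    exact ⟨_, (xi_conj N f).symm⟩

/-- The homomorphism which is the projection on the base group and trivial on its conjugate. -/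
noncomputable def phi : E0 N →* F ⧸ N :=
  (MonoidHom.fst _ _).comp ((MonoidHom.ofInjective (TT_injective N)).symm.toMonoidHom.comp
    (((xi N).comp (E0 N).subtype).codRestrict (TT N).range fun x => E0_le N x.2))

theorem phi_aux (x : E0 N) (q : (F ⧸ N) × (F ⧸ N)) (h : xi N x = TT N q) : phi N x = q.1 := by
  have h1 : (((xi N).comp (E0 N).subtype).codRestrict (TT N).range fun x => E0_le N x.2) x =
      MonoidHom.ofInjective (TT_injective N) q := Subtype.ext h
  change ((MonoidHom.ofInjective (TT_injective N)).symm
    ((((xi N).comp (E0 N).subtype).codRestrict (TT N).range fun x => E0_le N x.2) x)).1 = _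
  rw [h1, MulEquiv.symm_apply_apply]

theorem phi_ea (f : F) : phi N (ea N f) = (f : F ⧸ N) :=
  phi_aux N _ ((f : F ⧸ N), 1) (xi_of N f)

theorem phi_eb (f : F) : phi N (eb N f) = 1 :=
  phi_aux N _ (1, (f : F ⧸ N)) (xi_conj N f)

end Phi

end Pool.Agent.H84.W
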