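import Pool.Agent.H84.W.Rope

set_option autoImplicit false

/-!
The final HNN extension is finitely presented.
-/

namespace Pool.Agent.H84.W

open Monoid

theorem fp_of_section {P W : Type} [Group P] [Group W] [Group.IsFinitelyPresented P] (π : P →* W)
    (hπ : Function.Surjective π) (R : Set P) (hR : R.Finite) (hR1 : ∀ r ∈ R, π r = 1)
    (θ : W →* P ⧸ Subgroup.normalClosure R)
    (hθ : θ.comp π = QuotientGroup.mk' (Subgroup.normalClosure R)) :
    Group.IsFinitelyPresented W := by
  refine Group.IsFinitelyPresented.of_surjective π hπ ⟨R, hR, ?_⟩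
  apply le_antisymm
  · apply Subgroup.normalClosure_le_normal
    exact fun r hr => hR1 r hr
  · intro x hx
    rw [MonoidHom.mem_ker] at hx
    have h4 : QuotientGroup.mk' (Subgroup.normalClosure R) x = 1 := by
      rw [← hθ, MonoidHom.comp_apply, hx, map_one]
    exact (QuotientGroup.eq_one_iff _).mp h4

theorem hom_eq_of_closure {G K : Type} [Group G] [Group K] {S : Set G}
    (hS : Subgroup.closure S = ⊤) {f g : G →* K} (h : ∀ x ∈ S, f x = g x) (x : G) : f x = g x := by
  have h1 : Subgroup.closure S ≤ f.eqLocus g := (Subgroup.closure_le _).mpr h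
  rw [hS] at h1
  exact h1 (Subgroup.mem_top x)

theorem commute_of_closure {G G' K : Type} [Group G] [Group G'] [Group K] {S : Set G} {S' : Set G'}
    (hS : Subgroup.closure S = ⊤) (hS' : Subgroup.closure S' = ⊤) {f : G →* K} {g : G' →* K}
    (h : ∀ x ∈ S, ∀ y ∈ S', Commute (f x) (g y)) (x : G) (y : G') : Commute (f x) (g y) := by
  have h2 : ∀ x ∈ S, ∀ y, Commute (f x) (g y) := by
    intro x hx y
    have hh : y ∈ Subgroup.closure S' := by rw [hS']; trivial
    induction hh using Subgroup.closure_induction with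
    | mem y hy => exact h x hx y hy
    | one => simp
    | mul x y _ _ hx hy => rw [map_mul]; exact hx.mul_right hy
    | inv x _ hx => rw [map_inv]; exact hx.inv_right
  have hh : x ∈ Subgroup.closure S := by rw [hS]; trivial
  induction hh using Subgroup.closure_induction with
  | mem x hx => exact h2 x hx y
  | one => simp
  | mul x y _ _ hx hy => rw [map_mul]; exact hx.mul_left hy
  | inv x _ hx => rw [map_inv]; exact hx.inv_left

section

variable {F H : Type} [Group F] [Group H] (i : F →* H) (N : Subgroup F) [N.Normal]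
  (L : Subgroup H) (h : ∀ f, i f ∈ L ↔ f ∈ N) (hi : Function.Injective i)

/-- The first embedding of the edge group. -/
def uu : E0 N →* Cen L × (F ⧸ N) := ((kap0 i N L h).comp (E0 N).subtype).prod 1

/-- The second embedding of the edge group. -/
noncomputable def vv : E0 N →* Cen L × (F ⧸ N) :=
  ((kap0 i N L h).comp (E0 N).subtype).prod (phi N)

include hi

theorem uu_injective : Function.Injective (uu i N L h) := by
  intro x y hxy
  exact Subtype.ext (kap0_injective i N L h hi (congrArg Prod.fst hxy))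

theorem vv_injective : Function.Injective (vv i N L h) := by
  intro x y hxy
  exact Subtype.ext (kap0_injective i N L h hi (congrArg Prod.fst hxy))

/-- The isomorphism of the associated subgroups. -/
noncomputable def isoW : (uu i N L h).range ≃* (vv i N L h).range :=
  (MonoidHom.ofInjective (uu_injective i N L h hi)).symm.trans
    (MonoidHom.ofInjective (vv_injective i N L h hi))

theorem isoW_apply (x : E0 N) (hx : uu i N L h x ∈ (uu i N L h).range) :
    (isoW i N L h hi ⟨uu i N L h x, hx⟩ : Cen L × (F ⧸ N)) = vv i N L h x := by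
  have h2 : (⟨uu i N L h x, hx⟩ : (uu i N L h).range) =
    MonoidHom.ofInjective (uu_injective i N L h hi) x := rfl
  change (MonoidHom.ofInjective (vv_injective i N L h hi)
    ((MonoidHom.ofInjective (uu_injective i N L h hi)).symm ⟨uu i N L h x, hx⟩) :
      Cen L × (F ⧸ N)) = _
  rw [h2, MulEquiv.symm_apply_apply]
  rfl

/-- The final group. -/
abbrev WW : Type := HNNExtension (Cen L × (F ⧸ N)) (uu i N L h).range (vv i N L h).range
  (isoW i N L h hi)

theorem WW_fp [Group.IsFinitelyPresented H] [Group.IsFinitelyPresented F] (hL : L.FG) :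
    Group.IsFinitelyPresented (WW i N L h hi) := by
  classical
  have fpK : Group.IsFinitelyPresented (Cen L) := HNN_fp _ _ _ hL
  obtain ⟨SK, hSK, fSK⟩ := Group.fg_iff.mp (fg_of_fp (Cen L))
  obtain ⟨SF, hSF, fSF⟩ := Group.fg_iff.mp (fg_of_fp F)
  let P := Coprod (Coprod (Cen L) F) (FreeGroup Unit)
  let kK : Cen L →* P := Coprod.inl.comp Coprod.inl
  let kF : F →* P := Coprod.inl.comp Coprod.inr
  let σ : P := Coprod.inr (FreeGroup.of ())
  let k1 : F →* Cen L := ((kap0 i N L h).comp (E0 N).subtype).comp (ea N)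
  let k2 : F →* Cen L := ((kap0 i N L h).comp (E0 N).subtype).comp (eb N)
  let R1 : Set P := (fun x : Cen L × F => kK x.1 * kF x.2 * (kF x.2 * kK x.1)⁻¹) '' (SK ×ˢ SF)
  let R2 : Set P := (fun f : F => σ * kK (k1 f) * σ⁻¹ * (kK (k1 f) * kF f)⁻¹) '' SF
  let R3 : Set P := (fun f : F => σ * kK (k2 f) * σ⁻¹ * (kK (k2 f))⁻¹) '' SF
  let R : Set P := R1 ∪ R2 ∪ R3
  have fR : R.Finite :=
    (((fSK.prod fSF).image _).union (fSF.image _)).union (fSF.image _)
  let π : P →* WW i N L h hi := Coprod.lift (Coprod.lift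
    (HNNExtension.of.comp (MonoidHom.inl _ _))
    (HNNExtension.of.comp ((MonoidHom.inr _ _).comp (QuotientGroup.mk' N))))
    (FreeGroup.lift fun _ => HNNExtension.t)
  have πK : ∀ k, π (kK k) = HNNExtension.of (k, 1) := fun k => by
    change Coprod.lift _ _ (Coprod.inl (Coprod.inl k)) = _
    rw [Coprod.lift_apply_inl, Coprod.lift_apply_inl]
    rfl
  have πF : ∀ f, π (kF f) = HNNExtension.of (1, (f : F ⧸ N)) := fun f => by
    change Coprod.lift _ _ (Coprod.inl (Coprod.inr f)) = _
    rw [Coprod.lift_apply_inl, Coprod.lift_apply_inr]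
    rfl
  have πσ : π σ = HNNExtension.t := by
    change Coprod.lift _ _ (Coprod.inr (FreeGroup.of ())) = _
    rw [Coprod.lift_apply_inr, FreeGroup.lift_apply_of]
  have hconj : ∀ x : E0 N, (HNNExtension.t : WW i N L h hi) * HNNExtension.of (uu i N L h x) *
      (HNNExtension.t)⁻¹ = HNNExtension.of (vv i N L h x) := by
    intro x
    have h1 := HNNExtension.t_mul_of (φ := isoW i N L h hi) ⟨uu i N L h x, ⟨x, rfl⟩⟩
    rw [isoW_apply] at h1
    rw [mul_inv_eq_iff_eq_mul]
    exact h1
  have hsurj : Function.Surjective π := by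
    rw [← MonoidHom.range_eq_top, eq_top_iff]
    rintro x -
    induction x using HNNExtension.induction_on with
    | of g =>
      obtain ⟨k, q⟩ := g
      obtain ⟨f, rfl⟩ := QuotientGroup.mk'_surjective N q
      refine ⟨kK k * kF f, ?_⟩
      rw [map_mul, πK, πF, ← map_mul]
      congr 1
      simp
    | t => exact ⟨σ, πσ⟩
    | mul x y hx hy => exact Subgroup.mul_mem _ hx hy
    | inv x hx => exact Subgroup.inv_mem _ hx
  have hR1 : ∀ r ∈ R, π r = 1 := by
    rintro r ((⟨⟨k, f⟩, _, rfl⟩ | ⟨f, _, rfl⟩) | ⟨f, _, rfl⟩)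
    · rw [map_mul, map_inv, map_mul, map_mul, πK, πF, mul_inv_eq_one, ← map_mul, ← map_mul]
      congr 1
      simp
    · rw [map_mul, map_inv, map_mul, map_mul, map_mul, map_inv, πK, πF, πσ, mul_inv_eq_one,
        ← map_mul]
      have h1 := hconj (ea N f)
      have h2 : uu i N L h (ea N f) = (k1 f, 1) := rfl
      have h3 : vv i N L h (ea N f) = (k1 f, (f : F ⧸ N)) := Prod.ext rfl (phi_ea N f)
      rw [h2, h3] at h1
      rw [h1]
      congr 1
      simp
    · rw [map_mul, map_inv, map_mul, map_mul, map_inv, πK, πσ, mul_inv_eq_one]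
      have h1 := hconj (eb N f)
      have h2 : uu i N L h (eb N f) = (k2 f, 1) := rfl
      have h3 : vv i N L h (eb N f) = (k2 f, 1) := Prod.ext rfl (phi_eb N f)
      rw [h2, h3] at h1
      rw [h1]
  let Q := P ⧸ Subgroup.normalClosure R
  let mk : P →* Q := QuotientGroup.mk' (Subgroup.normalClosure R)
  have hmk : ∀ r ∈ R, mk r = 1 := fun r hr =>
    (QuotientGroup.eq_one_iff _).mpr (Subgroup.subset_normalClosure hr)
  have c1 : ∀ k f, Commute ((mk.comp kK) k) ((mk.comp kF) f) := by
    apply commute_of_closure hSK hSF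
    intro k hk f hf
    have := hmk _ (Or.inl (Or.inl ⟨(k, f), ⟨hk, hf⟩, rfl⟩))
    rw [map_mul, map_inv, mul_inv_eq_one, map_mul, map_mul] at this
    exact this
  let g2 : F →* Q :=
    { toFun := fun f => mk (kK (k1 f)) * mk (kF f)
      map_one' := by simp
      map_mul' := fun f f' => by
        have := (c1 (k1 f') f).eq
        simp only [MonoidHom.comp_apply] at this
        simp only [map_mul]
        rw [mul_assoc (mk (kK (k1 f))) (mk (kK (k1 f'))), ← mul_assoc (mk (kK (k1 f'))) (mk (kF f)),
          this]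
        simp only [mul_assoc] }
  have c2 : ∀ f, mk σ * mk (kK (k1 f)) * (mk σ)⁻¹ = mk (kK (k1 f)) * mk (kF f) := by
    have := hom_eq_of_closure hSF
      (f := (MulAut.conj (mk σ)).toMonoidHom.comp ((mk.comp kK).comp k1)) (g := g2) (by
      intro f hf
      have := hmk _ (Or.inl (Or.inr ⟨f, hf, rfl⟩))
      rw [map_mul, map_inv, mul_inv_eq_one, map_mul, map_mul, map_mul, map_inv] at this
      exact this)
    exact this
  have c3 : ∀ f, mk σ * mk (kK (k2 f)) * (mk σ)⁻¹ = mk (kK (k2 f)) := by
    have := hom_eq_of_closure hSF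
      (f := (MulAut.conj (mk σ)).toMonoidHom.comp ((mk.comp kK).comp k2))
      (g := (mk.comp kK).comp k2) (by
      intro f hf
      have := hmk _ (Or.inr ⟨f, hf, rfl⟩)
      rw [map_mul, map_inv, mul_inv_eq_one, map_mul, map_mul, map_inv] at this
      exact this)
    exact this
  have c4 : ∀ n ∈ N, (mk.comp kF) n = 1 := by
    intro n hn
    have e1 : k1 n = k2 n := by
      change (kap0 i N L h) (ea N n : Cen N) = (kap0 i N L h) (eb N n : Cen N)
      rw [ea_eq_eb N n hn]
    have h2 := c2 n
    have h3 := c3 n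
    rw [← e1] at h3
    rw [h3] at h2
    exact (mul_eq_left.mp h2.symm)
  let bq : F ⧸ N →* Q := QuotientGroup.lift N (mk.comp kF) c4
  have hbq : ∀ f : F, bq (f : F ⧸ N) = mk (kF f) := fun f => QuotientGroup.lift_mk' N c4 f
  have c5 : ∀ k q, Commute ((mk.comp kK) k) (bq q) := by
    intro k q
    obtain ⟨f, rfl⟩ := QuotientGroup.mk'_surjective N q
    change Commute _ (bq (f : F ⧸ N))
    rw [hbq]
    exact c1 k f
  let h0 : Cen L × (F ⧸ N) →* Q := (mk.comp kK).noncommCoprod bq c5
  have hh0 : ∀ k q, h0 (k, q) = mk (kK k) * bq q := fun k q => rfl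
  have hrel : ∀ x : E0 N, mk σ * h0 (uu i N L h x) * (mk σ)⁻¹ = h0 (vv i N L h x) := by
    have : ((MulAut.conj (mk σ)).toMonoidHom.comp h0).comp (uu i N L h) = h0.comp (vv i N L h) := by
      apply E0_hom_ext
      · intro f
        have h2 : uu i N L h (ea N f) = (k1 f, 1) := rfl
        have h3 : vv i N L h (ea N f) = (k1 f, (f : F ⧸ N)) := Prod.ext rfl (phi_ea N f)
        rw [MonoidHom.comp_apply, MonoidHom.comp_apply, MonoidHom.comp_apply, h2, h3, hh0, hh0,
          map_one, mul_one, hbq]
        exact c2 f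
      · intro f
        have h2 : uu i N L h (eb N f) = (k2 f, 1) := rfl
        have h3 : vv i N L h (eb N f) = (k2 f, 1) := Prod.ext rfl (phi_eb N f)
        rw [MonoidHom.comp_apply, MonoidHom.comp_apply, MonoidHom.comp_apply, h2, h3, hh0,
          map_one, mul_one]
        exact c3 f
    exact fun x => DFunLike.congr_fun this x
  let θ : WW i N L h hi →* Q := HNNExtension.lift h0 (mk σ) (by
    rintro ⟨_, ⟨x, rfl⟩⟩
    rw [isoW_apply, ← mul_inv_eq_iff_eq_mul]
    exact hrel x)
  refine fp_of_section π hsurj R fR hR1 θ ?_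
  apply Coprod.hom_ext
  · apply Coprod.hom_ext
    · apply MonoidHom.ext
      intro k
      change θ (π (kK k)) = mk (kK k)
      rw [πK, HNNExtension.lift_of, hh0, map_one, mul_one]
    · apply MonoidHom.ext
      intro f
      change θ (π (kF f)) = mk (kF f)
      rw [πF, HNNExtension.lift_of, hh0, map_one, map_one, one_mul, hbq]
  · apply FreeGroup.ext_hom
    rintro ⟨⟩
    change θ (π σ) = mk σ
    rw [πσ, HNNExtension.lift_t]

end

/-- The embedding theorem: the quotient is a retract of the base group of an HNN extension with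
free-by-free associated subgroups, which is finitely presented and torsion-free. -/
theorem rope (N : Subgroup (FreeGroup Bool)) [N.Normal]
    (hre : REPred fun n => ∃ w, num w = n ∧ FreeGroup.mk w ∈ N) (htf : TF (FreeGroup Bool ⧸ N)) :
    ∃ (B : Type) (_ : Group B) (A A' : Subgroup B) (φ : A ≃* A') (i : FreeGroup Bool ⧸ N →* B)
      (r : B →* FreeGroup Bool ⧸ N), (∀ q, r (i q) = q) ∧ FreeByFree A ∧
      Group.IsFinitelyPresented (HNNExtension B A A' φ) ∧ TF (HNNExtension B A A' φ) := by
  obtain ⟨H, _, i, L, fpH, tfH, hi, hL, h⟩ := benign N hre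
  refine ⟨Cen L × (FreeGroup Bool ⧸ N), inferInstance, (uu i N L h).range, (vv i N L h).range,
    isoW i N L h hi, MonoidHom.inr _ _, MonoidHom.snd _ _, fun q => rfl, ?_,
    WW_fp i N L h hi hL, HNN_tf _ _ _ (prod_tf (HNN_tf _ _ _ tfH) htf)⟩
  obtain ⟨K, _, hK1, hK2⟩ := E0_freeByFree N
  let e := MonoidHom.ofInjective (uu_injective i N L h hi)
  have : (K.map e.toMonoidHom).Normal := Subgroup.Normal.map inferInstance _ e.surjective
  refine ⟨K.map e.toMonoidHom, this, ?_, ?_⟩
  · exact IsFreeGroup.ofMulEquiv (K.equivMapOfInjective e.toMonoidHom e.injective)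
  · exact IsFreeGroup.ofMulEquiv (QuotientGroup.congr K (K.map e.toMonoidHom) e rfl)

end Pool.Agent.H84.W
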