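import Pool.Agent.H84.W.Univ
import Pool.Agent.H84.W.Rope2

set_option autoImplicit false

/-!
The two-generator group which contains the universal group, and its recursively enumerable set of
relations.
-/

namespace Pool.Agent.H84.W

/-- the shift action of `ℤ` on the free group on `ℤ` -/
def shz : Multiplicative ℤ →* MulAut (FreeGroup ℤ) where
  toFun k := FreeGroup.freeGroupCongr (Equiv.addRight k.toAdd)
  map_one' := by
    apply aut_ext
    intro i
    simp
  map_mul' k l := by
    apply aut_ext
    intro i
    simp [add_comm, add_left_comm]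

theorem shz_of (k : Multiplicative ℤ) (i : ℤ) :
    shz k (FreeGroup.of i) = FreeGroup.of (i + k.toAdd) := by
  simp [shz]

/-- the homomorphism to the semidirect product sending `u` to the letter `0` and the other letter
to the shift -/
def pz (u : Bool) : FreeGroup Bool →* FreeGroup ℤ ⋊[shz] Multiplicative ℤ :=
  FreeGroup.lift fun i => if i = u then SemidirectProduct.inl (FreeGroup.of 0)
    else SemidirectProduct.inr (Multiplicative.ofAdd 1)

/-- The elements `b ^ (-n) * a * b ^ n`. -/
def cj {K : Type} [Group K] (a b : K) (n : ℕ) : K := (b ^ n)⁻¹ * a * b ^ n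

theorem map_cj {K L : Type} [Group K] [Group L] (f : K →* L) (a b : K) (n : ℕ) :
    f (cj a b n) = cj (f a) (f b) n := by
  simp only [cj, map_mul, map_pow, map_inv]

theorem cj_mem {K : Type} [Group K] (H : Subgroup K) {a b : K} (ha : a ∈ H) (hb : b ∈ H) (n : ℕ) :
    cj a b n ∈ H :=
  H.mul_mem (H.mul_mem (H.inv_mem (H.pow_mem hb _)) ha) (H.pow_mem hb _)

theorem cj_zero {K : Type} [Group K] (a b : K) : cj a b 0 = a := by simp [cj]

theorem cj_inj (u v : Bool) (huv : u ≠ v) : Function.Injective (FreeGroup.lift (fun n : ℕ =>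
    cj (FreeGroup.of u) (FreeGroup.of v) n) : FreeGroup ℕ →* FreeGroup Bool) := by
  have hcomp : (pz u).comp (FreeGroup.lift (fun n : ℕ =>
      cj (FreeGroup.of u) (FreeGroup.of v) n) : FreeGroup ℕ →* FreeGroup Bool) =
      (SemidirectProduct.inl : FreeGroup ℤ →* FreeGroup ℤ ⋊[shz] Multiplicative ℤ).comp
        (FreeGroup.map fun n : ℕ => -(n : ℤ)) := by
    apply FreeGroup.ext_hom
    intro n
    have h1 : (SemidirectProduct.inr (Multiplicative.ofAdd (1 : ℤ)) :
        FreeGroup ℤ ⋊[shz] Multiplicative ℤ) ^ n =
        SemidirectProduct.inr (Multiplicative.ofAdd (n : ℤ)) := by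
      rw [← map_pow, ← ofAdd_nsmul]
      simp
    have h3 := SemidirectProduct.inl_aut (φ := shz) (Multiplicative.ofAdd (-(n : ℤ)))
      (FreeGroup.of 0)
    rw [shz_of] at h3
    have h4 : pz u (FreeGroup.of u) = SemidirectProduct.inl (FreeGroup.of 0) := by
      simp [pz]
    have h5 : pz u (FreeGroup.of v) = SemidirectProduct.inr (Multiplicative.ofAdd 1) := by
      simp [pz, huv.symm]
    simp only [MonoidHom.comp_apply, FreeGroup.lift_apply_of, FreeGroup.map.of]
    rw [map_cj, h4, h5, cj, h1]
    rw [toAdd_ofAdd, zero_add, ofAdd_neg, map_inv, inv_inv] at h3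
    exact h3.symm
  have hinj : Function.Injective ((pz u).comp (FreeGroup.lift (fun n : ℕ =>
      cj (FreeGroup.of u) (FreeGroup.of v) n) : FreeGroup ℕ →* FreeGroup Bool)) := by
    rw [hcomp, MonoidHom.coe_comp]
    refine SemidirectProduct.inl_injective.comp ?_
    refine FreeGroup.map_injective ?_
    intro a b hab
    simpa using hab
  rw [MonoidHom.coe_comp] at hinj
  exact hinj.of_comp

section Two

variable (G : Type) [Group G]

/-- The data for the free product with a free group of rank two. -/
def DF : HD G where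
  I := Bool
  A _ := ⊥
  A' _ := ⊥
  φ _ := MulEquiv.refl _

/-- The free product with a free group of rank two. -/
abbrev BF : Type := HN (DF G)

/-- The first letter. -/
noncomputable def la : BF G := HN.t (DF G) false

/-- The second letter. -/
noncomputable def lb : BF G := HN.t (DF G) true

/-- A homomorphism from the free product. -/
noncomputable def BFlift {K : Type} [Group K] (f : G →* K) (a b : K) : BF G →* K :=
  HN.lift (D := DF G) f (fun p : Bool => if p then b else a) (by
    rintro p ⟨x, hx⟩
    have hx : x = 1 := hx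
    subst hx
    have : (((DF G).φ p ⟨1, hx⟩ : (DF G).A' p) : G) = 1 := rfl
    rw [this]
    simp)

theorem BFlift_base {K : Type} [Group K] (f : G →* K) (a b : K) (g : G) :
    BFlift G f a b (HN.base (DF G) g) = f g :=
  HN.lift_base (D := DF G) f (fun p : Bool => if p then b else a) _ g

theorem BFlift_la {K : Type} [Group K] (f : G →* K) (a b : K) : BFlift G f a b (la G) = a :=
  HN.lift_t (D := DF G) f (fun p : Bool => if p then b else a) _ false

theorem BFlift_lb {K : Type} [Group K] (f : G →* K) (a b : K) : BFlift G f a b (lb G) = b :=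
  HN.lift_t (D := DF G) f (fun p : Bool => if p then b else a) _ true

/-- The first free subgroup. -/
noncomputable def xh : FreeGroup ℕ →* BF G := FreeGroup.lift (cj (la G) (lb G))

/-- The second free subgroup. -/
noncomputable def yh (g : ℕ → G) : FreeGroup ℕ →* BF G :=
  FreeGroup.lift fun n => HN.base (DF G) (g n) * cj (lb G) (la G) n

theorem xh_of (n : ℕ) : xh G (FreeGroup.of n) = cj (la G) (lb G) n := FreeGroup.lift_apply_of

theorem yh_of (g : ℕ → G) (n : ℕ) : yh G g (FreeGroup.of n) =
    HN.base (DF G) (g n) * cj (lb G) (la G) n := FreeGroup.lift_apply_of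

theorem xh_injective : Function.Injective (xh G) := by
  have h : (BFlift G 1 (FreeGroup.of false) (FreeGroup.of true)).comp (xh G) =
      FreeGroup.lift (cj (FreeGroup.of false) (FreeGroup.of true)) := by
    apply FreeGroup.ext_hom
    intro n
    rw [MonoidHom.comp_apply, xh, FreeGroup.lift_apply_of, FreeGroup.lift_apply_of, map_cj,
      BFlift_la, BFlift_lb]
  have h1 := cj_inj false true (by decide)
  change Function.Injective (FreeGroup.lift (cj (FreeGroup.of false) (FreeGroup.of true))) at h1
  rw [← h] at h1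
  exact Function.Injective.of_comp h1

theorem yh_injective (g : ℕ → G) : Function.Injective (yh G g) := by
  have h : (BFlift G 1 (FreeGroup.of false) (FreeGroup.of true)).comp (yh G g) =
      FreeGroup.lift (cj (FreeGroup.of true) (FreeGroup.of false)) := by
    apply FreeGroup.ext_hom
    intro n
    rw [MonoidHom.comp_apply, yh, FreeGroup.lift_apply_of, FreeGroup.lift_apply_of, map_mul,
      BFlift_base, MonoidHom.one_apply, one_mul, map_cj, BFlift_la, BFlift_lb]
  have h1 := cj_inj true false (by decide)
  change Function.Injective (FreeGroup.lift (cj (FreeGroup.of true) (FreeGroup.of false))) at h1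
  rw [← h] at h1
  exact Function.Injective.of_comp h1

variable (g : ℕ → G)

/-- The isomorphism. -/
noncomputable def isoU : (xh G).range ≃* (yh G g).range :=
  (MonoidHom.ofInjective (xh_injective G)).symm.trans (MonoidHom.ofInjective (yh_injective G g))

theorem isoU_apply (w : FreeGroup ℕ) (h : xh G w ∈ (xh G).range) :
    (isoU G g ⟨xh G w, h⟩ : BF G) = yh G g w := by
  have h2 : (⟨xh G w, h⟩ : (xh G).range) = MonoidHom.ofInjective (xh_injective G) w := rfl
  change (MonoidHom.ofInjective (yh_injective G g)
    ((MonoidHom.ofInjective (xh_injective G)).symm ⟨xh G w, h⟩) : BF G) = _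
  rw [h2, MulEquiv.symm_apply_apply]
  rfl

/-- The two-generator group. -/
abbrev TG : Type := HNNExtension (BF G) (xh G).range (yh G g).range (isoU G g)

/-- The inclusion. -/
noncomputable def jG : G →* TG G g := HNNExtension.of.comp (HN.base (DF G))

theorem TG_rel (w : FreeGroup ℕ) : (HNNExtension.t : TG G g) * HNNExtension.of (xh G w) *
    (HNNExtension.t)⁻¹ = HNNExtension.of (yh G g w) := by
  have h1 := HNNExtension.t_mul_of (φ := isoU G g) ⟨xh G w, ⟨w, rfl⟩⟩
  rw [isoU_apply] at h1
  rw [mul_inv_eq_iff_eq_mul]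
  exact h1

/-- The projection from the free group. -/
noncomputable def pT : FreeGroup Bool →* TG G g :=
  FreeGroup.lift fun ε => if ε then HNNExtension.t else HNNExtension.of (la G)

/-- The expression of the elements. -/
def XX {K : Type} [Group K] (a t : K) (n : ℕ) : K :=
  t * cj a (t * a * t⁻¹) n * t⁻¹ * (cj (t * a * t⁻¹) a n)⁻¹

theorem map_XX {K L : Type} [Group K] [Group L] (f : K →* L) (a b : K) (n : ℕ) :
    f (XX a b n) = XX (f a) (f b) n := by
  simp only [XX, map_mul, map_inv, map_cj]

variable (h0 : g 0 = 1)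

include h0

theorem TG_lb : (HNNExtension.t : TG G g) * HNNExtension.of (la G) * (HNNExtension.t)⁻¹ =
    HNNExtension.of (lb G) := by
  have h := TG_rel G g (FreeGroup.of 0)
  rw [xh_of, yh_of, cj_zero, cj_zero, h0, map_one, one_mul] at h
  exact h

theorem TG_g (n : ℕ) : XX (HNNExtension.of (la G)) (HNNExtension.t : TG G g) n =
    jG G g (g n) := by
  have h := TG_rel G g (FreeGroup.of n)
  rw [xh_of, yh_of, map_mul, map_cj, map_cj] at h
  rw [XX, TG_lb G g h0, h]
  rw [mul_inv_cancel_right]
  rfl

theorem pT_XX (n : ℕ) : pT G g (XX (FreeGroup.of false) (FreeGroup.of true) n) =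
    jG G g (g n) := by
  rw [map_XX, ← TG_g G g h0]
  simp [pT]

theorem pT_surjective (hg : Subgroup.closure (Set.range g) = ⊤) :
    Function.Surjective (pT G g) := by
  rw [← MonoidHom.range_eq_top, eq_top_iff]
  have ha : HNNExtension.of (la G) ∈ (pT G g).range := ⟨FreeGroup.of false, by simp [pT]⟩
  have ht : HNNExtension.t ∈ (pT G g).range := ⟨FreeGroup.of true, by simp [pT]⟩
  have hb : HNNExtension.of (lb G) ∈ (pT G g).range := by
    rw [← TG_lb G g h0]
    exact Subgroup.mul_mem _ (Subgroup.mul_mem _ ht ha) (Subgroup.inv_mem _ ht)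
  have hG : ∀ x, jG G g x ∈ (pT G g).range := by
    intro x
    have hx : x ∈ Subgroup.closure (Set.range g) := by rw [hg]; trivial
    have h1 : Subgroup.closure (Set.range g) ≤ (pT G g).range.comap (jG G g) := by
      rw [Subgroup.closure_le]
      rintro _ ⟨n, rfl⟩
      exact ⟨_, pT_XX G g h0 n⟩
    exact h1 hx
  rintro x -
  induction x using HNNExtension.induction_on with
  | of b =>
    refine HN.mem_of (D := DF G) ((pT G g).range.comap HNNExtension.of) hG ?_ b
    intro p
    change HNNExtension.of (HN.t (DF G) p) ∈ (pT G g).range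
    have hp : ∀ p : Bool, HNNExtension.of (HN.t (DF G) p) ∈ (pT G g).range := by
      rintro (_ | _)
      · exact ha
      · exact hb
    exact hp p
  | t => exact ht
  | mul x y hx hy => exact Subgroup.mul_mem _ hx hy
  | inv x hx => exact Subgroup.inv_mem _ hx

/-- A homomorphism from the two-generator group. -/
theorem exists_TG_hom {K : Type} [Group K] (f : G →* K) (a t : K)
    (hf : ∀ n, f (g n) = XX a t n) :
    ∃ ω : TG G g →* K, ω.comp (pT G g) = FreeGroup.lift (fun ε : Bool => if ε then t else a) := by
  refine ⟨HNNExtension.lift (BFlift G f a (t * a * t⁻¹)) t ?_, ?_⟩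
  · rintro ⟨_, ⟨w, rfl⟩⟩
    rw [isoU_apply, ← mul_inv_eq_iff_eq_mul]
    have h1 : (MulAut.conj t).toMonoidHom.comp ((BFlift G f a (t * a * t⁻¹)).comp (xh G)) =
        (BFlift G f a (t * a * t⁻¹)).comp (yh G g) := by
      apply FreeGroup.ext_hom
      intro n
      change t * (BFlift G f a (t * a * t⁻¹)) (xh G (FreeGroup.of n)) * t⁻¹ =
        (BFlift G f a (t * a * t⁻¹)) (yh G g (FreeGroup.of n))
      rw [xh_of, yh_of, map_mul, map_cj, map_cj, BFlift_base, BFlift_la, BFlift_lb, hf, XX,
        inv_mul_cancel_right]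
    exact DFunLike.congr_fun h1 w
  · apply FreeGroup.ext_hom
    rintro (_ | _)
    · simp only [MonoidHom.comp_apply, pT, FreeGroup.lift_apply_of, Bool.false_eq_true, if_false,
        HNNExtension.lift_of, BFlift_la]
    · simp only [MonoidHom.comp_apply, pT, FreeGroup.lift_apply_of, if_true,
        HNNExtension.lift_t]

end Two

/-! ### The relations -/

/-- The generators of the universal group. -/
def gU : ℕ → UU
  | 0 => 1
  | n + 1 => QuotientGroup.mk' (tfcl RU) (FreeGroup.of n)

theorem gU_closure : Subgroup.closure (Set.range gU) = ⊤ := by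
  rw [eq_top_iff]
  rintro x -
  obtain ⟨y, rfl⟩ := QuotientGroup.mk'_surjective (tfcl RU) x
  have : ∀ y : FreeGroup ℕ, QuotientGroup.mk' (tfcl RU) y ∈ Subgroup.closure (Set.range gU) := by
    intro y
    induction y using FreeGroup.induction_on with
    | C1 => rw [map_one]; exact Subgroup.one_mem _
    | of n => exact Subgroup.subset_closure ⟨n + 1, rfl⟩
    | inv_of n h => rw [map_inv]; exact Subgroup.inv_mem _ h
    | mul a b ha hb => rw [map_mul]; exact Subgroup.mul_mem _ ha hb
  exact this y

/-- The substitution. -/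
noncomputable def subX : FreeGroup ℕ →* FreeGroup Bool :=
  FreeGroup.lift fun n => XX (FreeGroup.of false) (FreeGroup.of true) (n + 1)

/-- The relations of the two-generator group. -/
def RQ : Set (FreeGroup Bool) := subX '' RU

theorem pT_ker : (pT UU gU).ker = tfcl RQ := by
  have h0 : gU 0 = 1 := rfl
  apply le_antisymm
  · let q : FreeGroup Bool →* FreeGroup Bool ⧸ tfcl RQ := QuotientGroup.mk' (tfcl RQ)
    have h1 : tfcl RU ≤ (q.comp subX).ker := by
      apply tfcl_le_ker RU (tfcl_tf RQ)
      intro s hs
      exact (QuotientGroup.eq_one_iff _).mpr (subset_tfcl RQ ⟨s, hs, rfl⟩)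
    let f : UU →* FreeGroup Bool ⧸ tfcl RQ := QuotientGroup.lift (tfcl RU) (q.comp subX) h1
    obtain ⟨ω, hω⟩ := exists_TG_hom UU gU h0 f (q (FreeGroup.of false)) (q (FreeGroup.of true)) (by
      intro n
      rcases n with _ | n
      · rw [h0, map_one]
        simp [XX, cj_zero]
      · change q (subX (FreeGroup.of n)) = _
        rw [subX, FreeGroup.lift_apply_of, map_XX])
    have hω2 : ω.comp (pT UU gU) = q := by
      rw [hω]
      apply FreeGroup.ext_hom
      rintro (_ | _) <;> simp
    intro x hx
    have h2 := DFunLike.congr_fun hω2 x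
    rw [MonoidHom.comp_apply, MonoidHom.mem_ker.mp hx, map_one] at h2
    exact (QuotientGroup.eq_one_iff _).mp h2.symm
  · have htf : TF (TG UU gU) := HNN_tf _ _ _ (HN_tf _ (tfcl_tf RU))
    apply tfcl_le_ker RQ htf
    rintro _ ⟨s, hs, rfl⟩
    have h1 : (pT UU gU).comp subX = (jG UU gU).comp (QuotientGroup.mk' (tfcl RU)) := by
      apply FreeGroup.ext_hom
      intro n
      rw [MonoidHom.comp_apply, subX, FreeGroup.lift_apply_of, pT_XX UU gU h0]
      rfl
    have h2 := DFunLike.congr_fun h1 s
    rw [MonoidHom.comp_apply, MonoidHom.comp_apply] at h2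
    have h3 : QuotientGroup.mk' (tfcl RU) s = 1 :=
      (QuotientGroup.eq_one_iff _).mpr (subset_tfcl RU hs)
    rw [h2, h3, map_one]

/-! ### Enumeration of the relations -/

/-- The word of a generator. -/
def Xl (n : ℕ) : Wd :=
  [(true, true), (true, true)] ++ (pw [(false, false)] n ++ ([(true, false), (false, true),
    (true, true)] ++ (pw [(false, true)] n ++ ([(true, false), (true, false)] ++
    (pw [(false, false)] n ++ ([(true, true), (false, false), (true, false)] ++
      pw [(false, true)] n))))))

theorem mk_Xl (n : ℕ) : FreeGroup.mk (Xl n) = XX (FreeGroup.of false) (FreeGroup.of true) n := by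
  have e1 : FreeGroup.mk [(false, true)] = FreeGroup.of false := rfl
  have e2 : FreeGroup.mk [(false, false)] = (FreeGroup.of false)⁻¹ := rfl
  have e3 : FreeGroup.mk [(true, true), (true, true)] = FreeGroup.of true * FreeGroup.of true := rfl
  have e4 : FreeGroup.mk [(true, false), (false, true), (true, true)] =
      (FreeGroup.of true)⁻¹ * FreeGroup.of false * FreeGroup.of true := rfl
  have e5 : FreeGroup.mk [(true, false), (true, false)] =
      (FreeGroup.of true)⁻¹ * (FreeGroup.of true)⁻¹ := rfl
  have e6 : FreeGroup.mk [(true, true), (false, false), (true, false)] =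
      FreeGroup.of true * (FreeGroup.of false)⁻¹ * (FreeGroup.of true)⁻¹ := rfl
  simp only [Xl, ← FreeGroup.mul_mk, mk_pw, e1, e2, e3, e4, e5, e6, XX, cj]
  rw [conj_pow, inv_pow]
  simp only [mul_inv_rev, inv_inv, mul_assoc, inv_mul_cancel_left, mul_inv_cancel_left]

/-- The substitution on letters. -/
def sb (i : ℕ) (x : ℕ × Bool) : Wd :=
  if x.2 then Xl (Nat.pair i x.1 + 1) else iv (Xl (Nat.pair i x.1 + 1))

/-- The enumeration. -/
def enumR (k : ℕ) : Wd :=
  ((((Encodable.decode (α := List (List (ℕ × Bool))) k.unpair.1).getD []).getD k.unpair.2 []).flatMap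
    (sb k.unpair.1))

theorem mk_sb (i : ℕ) (w : List (ℕ × Bool)) : FreeGroup.mk (w.flatMap (sb i)) =
    subX (FreeGroup.map (Nat.pair i) (FreeGroup.mk w)) := by
  induction w with
  | nil => rfl
  | cons x w ih =>
    obtain ⟨a, b⟩ := x
    rw [List.flatMap_cons, ← FreeGroup.mul_mk, ih]
    have e1 : FreeGroup.mk ((a, b) :: w) = FreeGroup.mk [(a, b)] * FreeGroup.mk w := by
      rw [FreeGroup.mul_mk]
      rfl
    rw [e1, map_mul, map_mul]
    congr 1
    cases b
    · have e2 : FreeGroup.mk [(a, false)] = (FreeGroup.of a)⁻¹ := rfl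
      rw [e2, map_inv, map_inv, FreeGroup.map.of, subX, FreeGroup.lift_apply_of, ← mk_Xl, ← mk_iv]
      rfl
    · have e2 : FreeGroup.mk [(a, true)] = FreeGroup.of a := rfl
      rw [e2, FreeGroup.map.of, subX, FreeGroup.lift_apply_of, ← mk_Xl]
      rfl

theorem tfcl_enum : tfcl (Set.range fun n => FreeGroup.mk (enumR n)) = tfcl RQ := by
  apply le_antisymm
  · intro g hg
    rw [mem_tfcl] at hg ⊢
    intro N hN
    apply hg
    refine ⟨hN.1, hN.2.1, ?_⟩
    rintro _ ⟨k, rfl⟩
    change FreeGroup.mk (enumR k) ∈ N
    rw [enumR, mk_sb]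
    cases hd : Encodable.decode (α := List (List (ℕ × Bool))) k.unpair.1 with
    | none =>
      simp only [Option.getD_none, List.getD_nil]
      change subX 1 ∈ N
      rw [map_one]
      exact N.one_mem
    | some l =>
      simp only [Option.getD_some]
      by_cases hk : k.unpair.2 < l.length
      · apply hN.2.2
        refine ⟨_, ⟨k.unpair.1, l, l.getD k.unpair.2 [], hd, ?_, rfl⟩, rfl⟩
        rw [List.getD_eq_getElem _ _ hk]
        exact List.getElem_mem hk
      · rw [List.getD_eq_default _ _ (by omega)]
        change subX 1 ∈ N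
        rw [map_one]
        exact N.one_mem
  · intro g hg
    rw [mem_tfcl] at hg ⊢
    intro N hN
    apply hg
    refine ⟨hN.1, hN.2.1, ?_⟩
    rintro _ ⟨_, ⟨i, l, w, h1, h2, rfl⟩, rfl⟩
    obtain ⟨j, hj, hw⟩ := List.getElem_of_mem h2
    apply hN.2.2
    refine ⟨Nat.pair i j, ?_⟩
    change FreeGroup.mk (enumR (Nat.pair i j)) = _
    rw [← mk_sb]
    congr 1
    simp only [enumR, Nat.unpair_pair, h1, Option.getD_some]
    rw [List.getD_eq_getElem _ _ hj, hw]

theorem enumR_primrec : Primrec enumR := by
  have hpw : ∀ w : Wd, Primrec (fun n : ℕ => pw w n) := fun w =>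
    pw_primrec.comp (Primrec.const w) Primrec.id
  have hX : Primrec Xl := by
    unfold Xl
    refine Primrec.list_append.comp (Primrec.const _) (Primrec.list_append.comp (hpw _)
      (Primrec.list_append.comp (Primrec.const _) (Primrec.list_append.comp (hpw _)
      (Primrec.list_append.comp (Primrec.const _) (Primrec.list_append.comp (hpw _)
      (Primrec.list_append.comp (Primrec.const _) (hpw _)))))))
  have hsb : Primrec₂ sb := by
    have hn : Primrec (fun q : ℕ × (ℕ × Bool) => Xl (Nat.pair q.1 q.2.1 + 1)) :=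
      hX.comp (Primrec.succ.comp (Primrec₂.natPair.comp Primrec.fst
        (Primrec.fst.comp Primrec.snd)))
    refine Primrec.ite (PrimrecRel.comp Primrec.eq (Primrec.snd.comp Primrec.snd)
      (Primrec.const true)) hn (iv_primrec.comp hn)
  unfold enumR
  refine Primrec.list_flatMap ?_ ?_
  · refine (Primrec.list_getD []).comp (Primrec.option_getD.comp (Primrec.decode.comp
      (Primrec.fst.comp Primrec.unpair)) (Primrec.const [])) (Primrec.snd.comp Primrec.unpair)
  · exact (hsb.comp (Primrec.fst.comp (Primrec.unpair.comp Primrec.fst)) Primrec.snd).to₂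

/-- The words of the relations are recursively enumerable. -/
theorem re_RQ : REPred fun n => ∃ w, num w = n ∧ FreeGroup.mk w ∈ tfcl RQ := by
  have h := re_tfcl enumR enumR_primrec
  rw [tfcl_enum] at h
  exact h

end Pool.Agent.H84.W
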