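import Pool.Agent.H84.W.Rec

set_option autoImplicit false

/-!
A countable torsion-free group such that the maximal torsion-free quotients of all finitely
presented groups are retracts.
-/

namespace Pool.Agent.H84.W

/-- The relators of the universal group. -/
def RU : Set (FreeGroup ℕ) :=
  {r | ∃ (i : ℕ) (l : List (List (ℕ × Bool))) (w : List (ℕ × Bool)),
    Encodable.decode i = some l ∧ w ∈ l ∧ r = FreeGroup.map (Nat.pair i) (FreeGroup.mk w)}

/-- The universal group. -/
abbrev UU : Type := FreeGroup ℕ ⧸ tfcl RU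

/-- The maximal torsion-free quotient. -/
abbrev TFQ (P : Type) [Group P] : Type := P ⧸ tfcl (∅ : Set P)

/-- The homomorphism to a torsion-free group. -/
def TFQ.lift {P K : Type} [Group P] [Group K] (hK : TF K) (f : P →* K) : TFQ P →* K :=
  QuotientGroup.lift (tfcl ∅) f (tfcl_le_ker ∅ hK f (by simp))

theorem TFQ.lift_mk {P K : Type} [Group P] [Group K] (hK : TF K) (f : P →* K) (x : P) :
    TFQ.lift hK f (QuotientGroup.mk' (tfcl ∅) x) = f x := rfl

theorem retr_U (P : Type) [Group P] [Group.IsFinitelyPresented P] :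
    ∃ (i : TFQ P →* UU) (r : UU →* TFQ P), ∀ x, r (i x) = x := by
  classical
  obtain ⟨n, s, hs, ⟨e⟩⟩ := Group.IsFinitelyPresented.exists_mulEquiv_presentedGroup (G := P)
  let l : List (List (ℕ × Bool)) :=
    hs.toFinset.toList.map fun r => r.toWord.map fun x => (x.1.val, x.2)
  let c : ℕ := Encodable.encode l
  have hc : Encodable.decode c = some l := Encodable.encodek l
  have hmk : ∀ r : FreeGroup (Fin n), FreeGroup.mk (r.toWord.map fun x => (x.1.val, x.2)) =
      FreeGroup.map (fun j : Fin n => (j : ℕ)) r := by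
    intro r
    conv_rhs => rw [← FreeGroup.mk_toWord (x := r)]
    rfl
  let q : FreeGroup ℕ →* UU := QuotientGroup.mk' (tfcl RU)
  have hq : ∀ r ∈ RU, q r = 1 := fun r hr => (QuotientGroup.eq_one_iff _).mpr (subset_tfcl RU hr)
  let f1 : PresentedGroup s →* UU :=
    PresentedGroup.toGroup (f := fun j : Fin n => q (FreeGroup.of (Nat.pair c j))) (by
      intro r hr
      have h1 : FreeGroup.lift (fun j : Fin n => q (FreeGroup.of (Nat.pair c j))) =
          (q.comp (FreeGroup.map (Nat.pair c))).comp (FreeGroup.map (fun j : Fin n => (j : ℕ))) := by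
        apply FreeGroup.ext_hom
        intro j
        simp
      rw [h1, MonoidHom.comp_apply, MonoidHom.comp_apply, ← hmk]
      apply hq
      refine ⟨c, l, _, hc, ?_, rfl⟩
      exact List.mem_map.mpr ⟨r, by simpa using hr, rfl⟩)
  let m : P →* TFQ P := QuotientGroup.mk' (tfcl ∅)
  let g0 : ℕ → TFQ P := fun k =>
    if h : (Nat.unpair k).1 = c ∧ (Nat.unpair k).2 < n then
      m (e.symm (PresentedGroup.of ⟨(Nat.unpair k).2, h.2⟩)) else 1
  have hg0 : ∀ j : Fin n, g0 (Nat.pair c j) = m (e.symm (PresentedGroup.of j)) := by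
    intro j
    have h : (Nat.unpair (Nat.pair c j)).1 = c ∧ (Nat.unpair (Nat.pair c j)).2 < n := by simp
    simp only [g0]
    rw [dif_pos h]
    congr 3
    apply Fin.ext
    simp
  have hg1 : ∀ i j, i ≠ c → g0 (Nat.pair i j) = 1 := by
    intro i j hi
    simp only [g0]
    rw [dif_neg]
    rintro ⟨h, _⟩
    apply hi
    simpa using h
  have hkill : ∀ r ∈ RU, FreeGroup.lift g0 r = 1 := by
    rintro _ ⟨i, l', w, h1, h2, rfl⟩
    by_cases hi : i = c
    · subst hi
      rw [hc] at h1
      have h1 := Option.some.inj h1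
      subst h1
      obtain ⟨r, hr, rfl⟩ := List.mem_map.mp h2
      rw [hmk]
      have h3 : ((FreeGroup.lift g0).comp (FreeGroup.map (Nat.pair c))).comp
          (FreeGroup.map (fun j : Fin n => (j : ℕ))) =
          (m.comp e.symm.toMonoidHom).comp (PresentedGroup.mk s) := by
        apply FreeGroup.ext_hom
        intro j
        simp only [MonoidHom.comp_apply, FreeGroup.map.of, FreeGroup.lift_apply_of]
        exact hg0 j
      have h4 := DFunLike.congr_fun h3 r
      simp only [MonoidHom.comp_apply] at h4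
      rw [h4]
      have h5 : PresentedGroup.mk s r = 1 :=
        PresentedGroup.one_of_mem (by simpa using hr)
      rw [h5, map_one, map_one]
    · have h3 : (FreeGroup.lift g0).comp (FreeGroup.map (Nat.pair i)) = 1 := by
        apply FreeGroup.ext_hom
        intro j
        simp only [MonoidHom.comp_apply, FreeGroup.map.of, FreeGroup.lift_apply_of]
        exact hg1 i j hi
      exact DFunLike.congr_fun h3 (FreeGroup.mk w)
  let g : UU →* TFQ P := QuotientGroup.lift (tfcl RU) (FreeGroup.lift g0)
    (tfcl_le_ker RU (tfcl_tf ∅) _ hkill)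
  have hgq : ∀ x, g (q x) = FreeGroup.lift g0 x := fun x => rfl
  refine ⟨TFQ.lift (tfcl_tf RU) (f1.comp e.toMonoidHom), g, ?_⟩
  intro x
  obtain ⟨y, rfl⟩ := QuotientGroup.mk'_surjective (tfcl ∅) x
  rw [TFQ.lift_mk]
  obtain ⟨z, rfl⟩ := e.symm.surjective y
  obtain ⟨v, rfl⟩ := PresentedGroup.mk_surjective s z
  have h6 : (g.comp f1).comp (PresentedGroup.mk s) =
      (m.comp e.symm.toMonoidHom).comp (PresentedGroup.mk s) := by
    apply FreeGroup.ext_hom
    intro j
    simp only [MonoidHom.comp_apply]
    have h7 : f1 (PresentedGroup.mk s (FreeGroup.of j)) = q (FreeGroup.of (Nat.pair c j)) :=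
      PresentedGroup.toGroup.of _
    rw [h7, hgq, FreeGroup.lift_apply_of, hg0]
    rfl
  have h7 := DFunLike.congr_fun h6 v
  simp only [MonoidHom.comp_apply] at h7 ⊢
  have h8 : e.toMonoidHom (e.symm (PresentedGroup.mk s v)) = PresentedGroup.mk s v :=
    e.apply_symm_apply _
  rw [h8, h7]
  rfl

end Pool.Agent.H84.W
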